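import Pool.Agent.LA78.Defs

/-!
# Basic facts on the free associative and the free Lie algebra
-/

set_option autoImplicit false

namespace Pool.Agent.LA78

variable {X : Type}

theorem cf_ext {f g : U X} (h : ∀ w, cf f w = cf g w) : f = g := by
  apply MonoidAlgebra.ext
  apply Finsupp.ext
  intro w
  exact h (FreeMonoid.toList w)

@[simp] theorem cf_zero (w : List X) : cf (0 : U X) w = 0 := rfl

@[simp] theorem cf_add (f g : U X) (w : List X) : cf (f + g) w = cf f w + cf g w := rfl

@[simp] theorem cf_smul (c : ℚ) (f : U X) (w : List X) : cf (c • f) w = c * cf f w := rfl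

@[simp] theorem cf_neg (f : U X) (w : List X) : cf (-f) w = - cf f w := by
  have h : -f = (-1 : ℚ) • f := by simp
  rw [h, cf_smul]
  ring

@[simp] theorem cf_sub (f g : U X) (w : List X) : cf (f - g) w = cf f w - cf g w := by
  rw [sub_eq_add_neg, cf_add, cf_neg, sub_eq_add_neg]

/-- `cf` as a linear map. -/
noncomputable def cfl (w : List X) : U X →ₗ[ℚ] ℚ where
  toFun f := cf f w
  map_add' f g := cf_add f g w
  map_smul' c f := cf_smul c f w

@[simp] theorem cfl_apply (w : List X) (f : U X) : cfl w f = cf f w := rfl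

theorem cf_sum {ι : Type*} (s : Finset ι) (f : ι → U X) (w : List X) :
    cf (∑ i ∈ s, f i) w = ∑ i ∈ s, cf (f i) w := map_sum (cfl w) f s

theorem cf_wd [DecidableEq X] (v w : List X) : cf (wd v) w = if v = w then 1 else 0 := by
  change Finsupp.single (FreeMonoid.ofList v) (1 : ℚ) (FreeMonoid.ofList w) = _
  classical
  rw [Finsupp.single_apply]
  by_cases h : v = w
  · rw [if_pos h, if_pos (congrArg _ h)]
  · rw [if_neg h, if_neg]
    intro h2
    exact h (FreeMonoid.ofList.injective h2)

theorem wd_nil : wd ([] : List X) = 1 := rfl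

theorem wd_append (v w : List X) : wd (v ++ w) = wd v * wd w := by
  simp [wd, FreeMonoid.ofList_append]

theorem wd_single (x : X) : wd [x] = uof x := rfl

theorem wd_cons (x : X) (w : List X) : wd (x :: w) = uof x * wd w := by
  rw [← wd_single, ← wd_append]
  rfl

theorem cf_one [DecidableEq X] (w : List X) : cf (1 : U X) w = if w = [] then 1 else 0 := by
  rw [← wd_nil, cf_wd]
  simp [eq_comm]

theorem cf_one_nil : cf (1 : U X) [] = 1 := by
  classical
  rw [cf_one]; simp

theorem cf_uof [DecidableEq X] (x : X) (w : List X) :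
    cf (uof x) w = if w = [x] then 1 else 0 := by
  rw [← wd_single, cf_wd]
  simp [eq_comm]

/-- Every element is the sum of its words. -/
theorem eq_sum_wd (f : U X) : f = ∑ w ∈ f.coeff.support, cf f (FreeMonoid.toList w) •
    wd (FreeMonoid.toList w) := by
  conv_lhs => rw [← MonoidAlgebra.sum_coeff_single f]
  rw [Finsupp.sum]
  apply Finset.sum_congr rfl
  intro w _
  rw [wd, MonoidAlgebra.smul_single]
  simp [cf]

/-- Induction on elements of the free associative algebra. -/
theorem U_ind {P : U X → Prop} (h0 : P 0) (hadd : ∀ f g, P f → P g → P (f + g))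
    (hw : ∀ (c : ℚ) (w : List X), P (c • wd w)) (f : U X) : P f := by
  refine MonoidAlgebra.induction_linear f h0 hadd ?_
  intro m r
  have h := hw r (FreeMonoid.toList m)
  rw [wd, MonoidAlgebra.smul_single] at h
  simpa using h

/-- A linear map is determined by its values on words. -/
theorem lin_ext {M : Type*} [AddCommGroup M] [Module ℚ M] {F G : U X →ₗ[ℚ] M}
    (h : ∀ w, F (wd w) = G (wd w)) : F = G := by
  refine LinearMap.ext fun f => ?_
  refine U_ind (P := fun f => F f = G f) (by simp) ?_ ?_ f
  · intro f g hf hg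
    rw [map_add, map_add, hf, hg]
  · intro c w
    rw [map_smul, map_smul, h]

theorem cf_mul (f g : U X) (w : List X) :
    cf (f * g) w = ∑ i ∈ Finset.range (w.length + 1), cf f (w.take i) * cf g (w.drop i) := by
  classical
  unfold cf
  rw [MonoidAlgebra.coeff_mul_antidiag (s := (Finset.range (w.length + 1)).image
    (fun i => (FreeMonoid.ofList (w.take i), FreeMonoid.ofList (w.drop i))))]
  · rw [Finset.sum_image]
    intro i hi j hj hij
    simp only [Prod.mk.injEq, EmbeddingLike.apply_eq_iff_eq] at hij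
    have h1 := congrArg List.length hij.1
    simp only [List.length_take] at h1
    simp only [Finset.coe_range, Set.mem_Iio] at hi hj
    omega
  · rintro ⟨u, v⟩
    simp only [Finset.mem_image, Finset.mem_range, Prod.mk.injEq]
    constructor
    · rintro ⟨i, hi, rfl, rfl⟩
      rw [← FreeMonoid.ofList_append, List.take_append_drop]
    · intro h
      have h2 : w = FreeMonoid.toList u ++ FreeMonoid.toList v := by
        have := congrArg FreeMonoid.toList h
        simpa using this.symm
      refine ⟨(FreeMonoid.toList u).length, ?_, ?_, ?_⟩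
      · rw [h2, List.length_append]; omega
      · rw [h2]; simp
      · rw [h2]; simp

theorem cf_mul_nil (f g : U X) : cf (f * g) [] = cf f [] * cf g [] := by
  rw [cf_mul]; simp

theorem cf_mul_ne {f g : U X} {w : List X} (h : cf (f * g) w ≠ 0) :
    ∃ u v, w = u ++ v ∧ cf f u ≠ 0 ∧ cf g v ≠ 0 := by
  rw [cf_mul] at h
  obtain ⟨i, _, hi⟩ := Finset.exists_ne_zero_of_sum_ne_zero h
  exact ⟨w.take i, w.drop i, (List.take_append_drop i w).symm, left_ne_zero_of_mul hi,
    right_ne_zero_of_mul hi⟩

theorem cf_uof_mul_nil (x : X) (f : U X) : cf (uof x * f) [] = 0 := by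
  classical
  rw [cf_mul_nil, cf_uof]; simp

theorem cf_mul_uof_nil (x : X) (f : U X) : cf (f * uof x) [] = 0 := by
  classical
  rw [cf_mul_nil, cf_uof]; simp

theorem cf_uof_mul_cons [DecidableEq X] (x y : X) (f : U X) (w : List X) :
    cf (uof x * f) (y :: w) = if y = x then cf f w else 0 := by
  rw [cf_mul, Finset.sum_eq_single 1]
  · simp only [List.take_succ_cons, List.take_zero, List.drop_succ_cons, List.drop_zero, cf_uof]
    by_cases h : y = x
    · simp [h]
    · simp [h]
  · intro i _ hi
    rw [cf_uof, if_neg, zero_mul]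
    intro h
    have := congrArg List.length h
    simp only [List.length_take, List.length_cons, List.length_nil, Finset.mem_range] at *
    omega
  · intro h
    simp at h

theorem cf_mul_uof_concat [DecidableEq X] (x y : X) (f : U X) (w : List X) :
    cf (f * uof x) (w ++ [y]) = if y = x then cf f w else 0 := by
  rw [cf_mul, Finset.sum_eq_single w.length]
  · simp only [List.take_left', List.drop_left', cf_uof]
    by_cases h : y = x
    · simp [h]
    · simp [h]
  · intro i hi hne
    rw [cf_uof, if_neg, mul_zero]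
    intro h
    have := congrArg List.length h
    simp only [List.length_drop, List.length_append, List.length_cons, List.length_nil,
      Finset.mem_range] at *
    omega
  · intro h
    simp at h

theorem exists_cf_ne {f : U X} (h : f ≠ 0) : ∃ w, cf f w ≠ 0 := by
  by_contra hc
  push Not at hc
  exact h (cf_ext (by simpa using hc))

theorem finite_supp (f : U X) : {w : List X | cf f w ≠ 0}.Finite := by
  have h : {w : List X | cf f w ≠ 0} ⊆ FreeMonoid.toList '' (↑f.coeff.support) := by
    intro w hw
    refine ⟨FreeMonoid.ofList w, ?_, rfl⟩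
    simpa [cf] using hw
  exact (f.coeff.support.finite_toSet.image _).subset h

/-! ### Weights and degrees -/

@[simp] theorem wsum_nil (wt : X → ℕ) : wsum wt [] = 0 := rfl

@[simp] theorem wsum_append (wt : X → ℕ) (u v : List X) :
    wsum wt (u ++ v) = wsum wt u + wsum wt v := by
  simp [wsum]

@[simp] theorem wsum_cons (wt : X → ℕ) (x : X) (v : List X) :
    wsum wt (x :: v) = wt x + wsum wt v := by
  simp [wsum]

theorem le_dg (wt : X → ℕ) {f : U X} {w : List X} (h : cf f w ≠ 0) : wsum wt w ≤ dg wt f := by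
  have h1 : FreeMonoid.ofList w ∈ f.coeff.support := by simpa [cf] using h
  exact Finset.le_sup (f := fun w => wsum wt (FreeMonoid.toList w)) h1

theorem dg_le (wt : X → ℕ) {f : U X} {n : ℕ} (h : ∀ w, cf f w ≠ 0 → wsum wt w ≤ n) :
    dg wt f ≤ n := by
  refine Finset.sup_le ?_
  intro w hw
  apply h
  simpa [cf] using hw

theorem dg_zero (wt : X → ℕ) : dg wt (0 : U X) = 0 := rfl

theorem dg_add_le (wt : X → ℕ) (f g : U X) : dg wt (f + g) ≤ max (dg wt f) (dg wt g) := by
  refine dg_le wt ?_
  intro w hw
  by_cases h : cf f w = 0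
  · have h2 : cf g w ≠ 0 := by
      intro h2
      apply hw
      rw [cf_add, h, h2, add_zero]
    exact le_max_of_le_right (le_dg wt h2)
  · exact le_max_of_le_left (le_dg wt h)

theorem dg_smul_le (wt : X → ℕ) (c : ℚ) (f : U X) : dg wt (c • f) ≤ dg wt f := by
  refine dg_le wt ?_
  intro w hw
  refine le_dg wt ?_
  intro h
  apply hw
  rw [cf_smul, h, mul_zero]

theorem dg_smul (wt : X → ℕ) {c : ℚ} (hc : c ≠ 0) (f : U X) : dg wt (c • f) = dg wt f := by
  refine le_antisymm (dg_smul_le wt c f) ?_
  have h : f = c⁻¹ • (c • f) := by rw [smul_smul, inv_mul_cancel₀ hc, one_smul]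
  conv_lhs => rw [h]
  exact dg_smul_le wt _ _

theorem dg_mul_le (wt : X → ℕ) (f g : U X) : dg wt (f * g) ≤ dg wt f + dg wt g := by
  refine dg_le wt ?_
  intro w hw
  obtain ⟨u, v, rfl, hu, hv⟩ := cf_mul_ne hw
  rw [wsum_append]
  exact add_le_add (le_dg wt hu) (le_dg wt hv)

theorem dg_sub_le (wt : X → ℕ) (f g : U X) : dg wt (f - g) ≤ max (dg wt f) (dg wt g) := by
  have h : f - g = f + (-1 : ℚ) • g := by simp [sub_eq_add_neg]
  rw [h]
  exact (dg_add_le wt _ _).trans (max_le_max le_rfl (dg_smul_le wt _ _))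

theorem dg_uof [DecidableEq X] (wt : X → ℕ) (x : X) : dg wt (uof x) = wt x := by
  apply le_antisymm
  · refine dg_le wt ?_
    intro w hw
    rw [cf_uof] at hw
    have : w = [x] := by
      by_contra h
      exact hw (if_neg h)
    rw [this]; simp
  · have : wsum wt [x] = wt x := by simp
    rw [← this]
    exact le_dg wt (by rw [cf_uof]; simp)

/-! ### The maps -/

@[simp] theorem llift_of {g : Type*} [LieRing g] [LieAlgebra ℚ g] (ζ : X → g) (x : X) :
    llift ζ (of x) = ζ x := FreeLieAlgebra.lift_of_apply ζ x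

@[simp] theorem io_of (x : X) : io (of x) = uof x := FreeLieAlgebra.lift_of_apply uof x

theorem io_lie (f g : L X) : io ⁅f, g⁆ = io f * io g - io g * io f := by
  rw [LieHom.map_lie]
  rfl

theorem lie_U (f g : U X) : ⁅f, g⁆ = f * g - g * f := rfl

theorem hom_ext {g : Type*} [LieRing g] [LieAlgebra ℚ g] {F G : L X →ₗ⁅ℚ⁆ g}
    (h : ∀ x, F (of x) = G (of x)) : F = G := FreeLieAlgebra.hom_ext h

@[simp] theorem ulift_uof {A : Type*} [Ring A] [Algebra ℚ A] (ζ : X → A) (x : X) :
    ulift ζ (uof x) = ζ x := by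
  simp [ulift, uof]

theorem ulift_wd_nil {A : Type*} [Ring A] [Algebra ℚ A] (ζ : X → A) :
    ulift ζ (wd []) = 1 := by
  rw [wd_nil, map_one]

theorem ulift_wd {A : Type*} [Ring A] [Algebra ℚ A] (ζ : X → A) (w : List X) :
    ulift ζ (wd w) = (w.map ζ).prod := by
  induction w with
  | nil => rw [wd_nil, map_one]; simp
  | cons x w ih => rw [wd_cons, map_mul, ulift_uof, ih]; simp

/-- Algebra maps out of the free associative algebra are determined by the letters. -/
theorem ahom_ext {A : Type*} [Ring A] [Algebra ℚ A] {F G : U X →ₐ[ℚ] A}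
    (h : ∀ x, F (uof x) = G (uof x)) : F = G := by
  have h2 : F.toLinearMap = G.toLinearMap := by
    apply lin_ext
    intro w
    simp only [AlgHom.toLinearMap_apply]
    induction w with
    | nil => rw [wd_nil, map_one, map_one]
    | cons x w ih => rw [wd_cons, map_mul, map_mul, h, ih]
  exact AlgHom.toLinearMap_injective h2

/-- Induction on the free Lie algebra. -/
theorem L_ind {P : L X → Prop} (h0 : P 0) (hof : ∀ x, P (of x))
    (hadd : ∀ f g, P f → P g → P (f + g)) (hsmul : ∀ (c : ℚ) f, P f → P (c • f))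
    (hlie : ∀ f g, P f → P g → P ⁅f, g⁆) (f : L X) : P f := by
  let K : LieSubalgebra ℚ (L X) :=
    { carrier := {f | P f}
      add_mem' := fun {a b} ha hb => hadd a b ha hb
      zero_mem' := h0
      smul_mem' := fun c {x} hx => hsmul c x hx
      lie_mem' := fun {a b} ha hb => hlie a b ha hb }
  let F : L X →ₗ⁅ℚ⁆ K := FreeLieAlgebra.lift ℚ (fun x => (⟨of x, hof x⟩ : K))
  have h1 : K.incl.comp F = LieHom.id := by
    apply hom_ext
    intro x
    have h2 : F (of x) = (⟨of x, hof x⟩ : K) := FreeLieAlgebra.lift_of_apply _ x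
    rw [LieHom.comp_apply, h2]
    rfl
  have h3 : K.incl (F f) = f := by
    have := LieHom.congr_fun h1 f
    simpa using this
  rw [← h3]
  exact (F f).2

/-- Induction on the free Lie algebra by left-normed monomials. -/
theorem L_ind_right {P : L X → Prop} (h0 : P 0) (hof : ∀ x, P (of x))
    (hadd : ∀ f g, P f → P g → P (f + g)) (hsmul : ∀ (c : ℚ) f, P f → P (c • f))
    (hr : ∀ f x, P f → P ⁅f, of x⁆) (f : L X) : P f := by
  have hQ : ∀ g : L X, ∀ f, P f → P ⁅f, g⁆ := by
    intro g
    refine L_ind (P := fun g => ∀ f, P f → P ⁅f, g⁆) ?_ ?_ ?_ ?_ ?_ g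
    · intro f _
      rw [lie_zero]; exact h0
    · intro x f hf
      exact hr f x hf
    · intro g h hg hh f hf
      rw [lie_add]
      exact hadd _ _ (hg f hf) (hh f hf)
    · intro c g hg f hf
      rw [lie_smul]
      exact hsmul _ _ (hg f hf)
    · intro g h hg hh f hf
      have e : ⁅f, ⁅g, h⁆⁆ = ⁅⁅f, g⁆, h⁆ + (-1 : ℚ) • ⁅⁅f, h⁆, g⁆ := by
        rw [leibniz_lie f g h, neg_smul, one_smul, ← lie_skew g ⁅f, h⁆]
      rw [e]
      exact hadd _ _ (hh _ (hg f hf)) (hsmul _ _ (hg _ (hh f hf)))
  exact L_ind h0 hof hadd hsmul (fun f g hf _ => hQ g f hf) f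

/-- A Lie homomorphism to an associative algebra extends to the free associative algebra. -/
theorem io_hom {Y : Type} (Θ : L X →ₗ⁅ℚ⁆ L Y) (f : L X) :
    io (Θ f) = ulift (fun x => io (Θ (of x))) (io f) := by
  refine L_ind (P := fun f => io (Θ f) = ulift (fun x => io (Θ (of x))) (io f))
    ?_ ?_ ?_ ?_ ?_ f
  · simp
  · intro x; simp
  · intro f g hf hg
    rw [map_add, map_add, map_add, map_add, hf, hg]
  · intro c f hf
    rw [map_smul, map_smul, map_smul, map_smul, hf]
  · intro f g hf hg
    rw [LieHom.map_lie, io_lie, io_lie, map_sub, map_mul, map_mul, hf, hg]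

/-- The constant term of a Lie element is zero. -/
theorem cf_io_nil (f : L X) : cf (io f) [] = 0 := by
  classical
  refine L_ind (P := fun f => cf (io f) [] = 0) ?_ ?_ ?_ ?_ ?_ f
  · simp
  · intro x; rw [io_of, cf_uof]; simp
  · intro f g hf hg; rw [map_add, cf_add, hf, hg, add_zero]
  · intro c f hf; rw [map_smul, cf_smul, hf, mul_zero]
  · intro f g hf hg
    rw [io_lie, cf_sub, cf_mul_nil, cf_mul_nil, hf, hg]; simp

theorem dg_lie_le (wt : X → ℕ) (f g : L X) :
    dg wt (io ⁅f, g⁆) ≤ dg wt (io f) + dg wt (io g) := by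
  rw [io_lie]
  refine (dg_sub_le wt _ _).trans (max_le (dg_mul_le wt _ _) ?_)
  rw [add_comm]
  exact dg_mul_le wt _ _

/-! ### The filtration by length -/

theorem lo_zero (n : ℕ) : lo n (0 : U X) := fun _ _ => rfl

theorem lo_add {n : ℕ} {f g : U X} (hf : lo n f) (hg : lo n g) : lo n (f + g) :=
  fun w hw => by rw [cf_add, hf w hw, hg w hw, add_zero]

theorem lo_smul {n : ℕ} (c : ℚ) {f : U X} (hf : lo n f) : lo n (c • f) :=
  fun w hw => by rw [cf_smul, hf w hw, mul_zero]

theorem lo_neg {n : ℕ} {f : U X} (hf : lo n f) : lo n (-f) :=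
  fun w hw => by rw [cf_neg, hf w hw, neg_zero]

theorem lo_sub {n : ℕ} {f g : U X} (hf : lo n f) (hg : lo n g) : lo n (f - g) :=
  fun w hw => by rw [cf_sub, hf w hw, hg w hw, sub_zero]

theorem lo_mono {m n : ℕ} (h : m ≤ n) {f : U X} (hf : lo n f) : lo m f :=
  fun w hw => hf w (lt_of_lt_of_le hw h)

theorem lo_sum {n : ℕ} {ι : Type*} (s : Finset ι) (f : ι → U X) (h : ∀ i ∈ s, lo n (f i)) :
    lo n (∑ i ∈ s, f i) := fun w hw => by
  rw [cf_sum]
  exact Finset.sum_eq_zero fun i hi => h i hi w hw

theorem lo_mul {m n : ℕ} {f g : U X} (hf : lo m f) (hg : lo n g) : lo (m + n) (f * g) := by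
  intro w hw
  by_contra h
  obtain ⟨u, v, rfl, hu, hv⟩ := cf_mul_ne h
  rw [List.length_append] at hw
  rcases lt_or_ge u.length m with h1 | h1
  · exact hu (hf u h1)
  · exact hv (hg v (by omega))

theorem lo_lie {m n : ℕ} {f g : L X} (hf : lo m (io f)) (hg : lo n (io g)) :
    lo (m + n) (io ⁅f, g⁆) := by
  rw [io_lie]
  refine lo_sub (lo_mul hf hg) ?_
  rw [add_comm m n]
  exact lo_mul hg hf

theorem lo_io (f : L X) : lo 1 (io f) := by
  intro w hw
  have : w = [] := List.length_eq_zero_iff.1 (by omega)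
  rw [this, cf_io_nil]

/-- A substitution of letters by elements without constant term respects the filtration. -/
theorem lo_ulift {Y : Type} (ζ : X → U Y) (hζ : ∀ x, lo 1 (ζ x)) {n : ℕ} {f : U X}
    (hf : lo n f) : lo n (ulift ζ f) := by
  have key : ∀ w : List X, lo w.length (ulift ζ (wd w)) := by
    intro w
    induction w with
    | nil => intro v hv; simp at hv
    | cons x w ih =>
      rw [wd_cons, map_mul, ulift_uof, List.length_cons, add_comm]
      exact lo_mul (hζ x) ih
  rw [eq_sum_wd f, map_sum]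
  refine lo_sum _ _ ?_
  intro w _
  rw [map_smul]
  by_cases h : cf f (FreeMonoid.toList w) = 0
  · rw [h, zero_smul]; exact lo_zero n
  · refine lo_smul _ (lo_mono ?_ (key _))
    by_contra hlt
    exact h (hf _ (by omega))

theorem lo_hom {Y : Type} (Θ : L X →ₗ⁅ℚ⁆ L Y) {n : ℕ} {f : L X} (hf : lo n (io f)) :
    lo n (io (Θ f)) := by
  rw [io_hom]
  exact lo_ulift _ (fun x => lo_io _) hf

/-! ### The action of words and codes -/

section act

variable {g : Type*} [LieRing g]

@[simp] theorem act_nil (ζ : X → g) (f : g) : act ζ [] f = f := rfl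

@[simp] theorem act_cons (ζ : X → g) (x : X) (w : List X) (f : g) :
    act ζ (x :: w) f = act ζ w ⁅f, ζ x⁆ := rfl

theorem act_append (ζ : X → g) (v w : List X) (f : g) :
    act ζ (v ++ w) f = act ζ w (act ζ v f) := List.foldl_append

@[simp] theorem act_zero (ζ : X → g) (w : List X) : act ζ w (0 : g) = 0 := by
  induction w with
  | nil => rfl
  | cons x w ih => rw [act_cons, zero_lie, ih]

theorem act_add (ζ : X → g) (w : List X) (f h : g) :
    act ζ w (f + h) = act ζ w f + act ζ w h := by
  induction w generalizing f h with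
  | nil => rfl
  | cons x w ih => rw [act_cons, add_lie, ih]; rfl

theorem act_neg (ζ : X → g) (w : List X) (f : g) : act ζ w (-f) = - act ζ w f := by
  induction w generalizing f with
  | nil => rfl
  | cons x w ih => rw [act_cons, neg_lie, ih]; rfl

theorem act_sub (ζ : X → g) (w : List X) (f h : g) :
    act ζ w (f - h) = act ζ w f - act ζ w h := by
  rw [sub_eq_add_neg, act_add, act_neg, sub_eq_add_neg]

theorem act_zsmul (ζ : X → g) (w : List X) (c : ℤ) (f : g) :
    act ζ w (c • f) = c • act ζ w f := by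
  induction w generalizing f with
  | nil => rfl
  | cons x w ih => rw [act_cons, zsmul_lie, ih]; rfl

theorem act_smul [LieAlgebra ℚ g] (ζ : X → g) (w : List X) (c : ℚ) (f : g) :
    act ζ w (c • f) = c • act ζ w f := by
  induction w generalizing f with
  | nil => rfl
  | cons x w ih => rw [act_cons, smul_lie, ih]; rfl

theorem act_sum {ι : Type*} (ζ : X → g) (w : List X) (s : Finset ι) (f : ι → g) :
    act ζ w (∑ i ∈ s, f i) = ∑ i ∈ s, act ζ w (f i) := by
  classical
  induction s using Finset.induction_on with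
  | empty => simp
  | insert a s ha ih => rw [Finset.sum_insert ha, act_add, ih, Finset.sum_insert ha]

theorem act_hom [LieAlgebra ℚ g] {h : Type*} [LieRing h] [LieAlgebra ℚ h] (φ : g →ₗ⁅ℚ⁆ h)
    (ζ : X → g) (w : List X) (f : g) : φ (act ζ w f) = act (fun x => φ (ζ x)) w (φ f) := by
  induction w generalizing f with
  | nil => rfl
  | cons x w ih => rw [act_cons, ih, LieHom.map_lie]; rfl

theorem act_map {Y : Type} (ζ : Y → g) (m : X → Y) (w : List X) (f : g) :
    act ζ (w.map m) f = act (fun x => ζ (m x)) w f := by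
  induction w generalizing f with
  | nil => rfl
  | cons x w ih => rw [List.map_cons, act_cons, ih]; rfl

@[simp] theorem val_nil (ζ : X → g) : val ζ [] = 0 := rfl

theorem val_cons (ζ : X → g) (t : ℤ × X × List X) (c : Code X) :
    val ζ (t :: c) = t.1 • act ζ t.2.2 (ζ t.2.1) + val ζ c := by
  simp [val]

theorem val_append (ζ : X → g) (c d : Code X) : val ζ (c ++ d) = val ζ c + val ζ d := by
  simp [val]

theorem val_hom [LieAlgebra ℚ g] {h : Type*} [LieRing h] [LieAlgebra ℚ h] (φ : g →ₗ⁅ℚ⁆ h)
    (ζ : X → g) (c : Code X) : φ (val ζ c) = val (fun x => φ (ζ x)) c := by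
  induction c with
  | nil => simp
  | cons t c ih =>
    rw [val_cons, val_cons, map_add, ih, map_zsmul, act_hom]

theorem val_snoc (ζ : X → g) (c : Code X) (w : List X) :
    val ζ (c.map fun t => (t.1, t.2.1, t.2.2 ++ w)) = act ζ w (val ζ c) := by
  induction c with
  | nil => simp
  | cons t c ih =>
    rw [List.map_cons, val_cons, val_cons, ih, act_add, act_zsmul, act_append]

theorem val_map {Y : Type} (ζ : Y → g) (m : X → Y) (c : Code X) :
    val ζ (c.map fun t => (t.1, m t.2.1, t.2.2.map m)) = val (fun x => ζ (m x)) c := by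
  induction c with
  | nil => simp
  | cons t c ih =>
    rw [List.map_cons, val_cons, val_cons, ih, act_map]

end act

end Pool.Agent.LA78
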