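import Pool.Agent.LA78.Eqn

/-!
# Codes of the relators
-/

set_option autoImplicit false

namespace Pool.Agent.LA78

variable {P J Z C : Type}

/-- The code of `tt z`. -/
def ttC (z : Fin 4 → P) : Code (P ⊕ J) :=
  [(1, Sum.inl (z 0), [Sum.inl (z 1)]), (1, Sum.inl (z 2), [Sum.inl (z 3)])]

/-- Append a word to all monomials of a code. -/
def snocC {X : Type} (w : List X) (c : Code X) : Code X := c.map fun t => (t.1, t.2.1, t.2.2 ++ w)

/-- Rename the letters. -/
def mapC {X Y : Type} (m : X → Y) (c : Code X) : Code Y :=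
  c.map fun t => (t.1, m t.2.1, t.2.2.map m)

/-- The code of `Wof A`. -/
noncomputable def WC [Fintype C] [Fintype J] (A : J → C → List (ℤ × List Z)) :
    Code ((Z ⊕ C) ⊕ J) :=
  (Finset.univ : Finset C).toList.flatMap fun c => (Finset.univ : Finset J).toList.flatMap fun j =>
    (A j c).map fun t => (t.1, Sum.inr j, t.2.map (fun z => Sum.inl (Sum.inl z)) ++
      [Sum.inl (Sum.inr c)])

/-- The code of the relator. -/
def relC (z : Fin 4 → P) (R : List P) (V : Code (P ⊕ J)) : Code (Option (P ⊕ J)) :=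
  snocC [none] (mapC some (ttC z ++ snocC (R.map Sum.inl) V))

/-- The code of one monomial of `Gof (Gf F I)`. -/
def monC {Γ ρ J : Type} (c : ℤ) (w : List Γ) : ℤ × (((Γ ⊕ Bool) ⊕ Option ρ) ⊕ J) ×
    List (((Γ ⊕ Bool) ⊕ Option ρ) ⊕ J) :=
  (c, Sum.inl (Sum.inl (Sum.inr false)), (up w ++ [Sum.inr true]).map
    (fun z => Sum.inl (Sum.inl z)) ++ [Sum.inl (Sum.inr none)])

theorem val_snocC {X : Type} {g : Type*} [LieRing g] (ζ : X → g) (w : List X) (c : Code X) :
    val ζ (snocC w c) = act ζ w (val ζ c) := val_snoc ζ c w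

theorem val_mapC {X Y : Type} {g : Type*} [LieRing g] (ζ : Y → g) (m : X → Y) (c : Code X) :
    val ζ (mapC m c) = val (fun x => ζ (m x)) c := val_map ζ m c

theorem val_flatMap {X ι : Type} {g : Type*} [LieRing g] (ζ : X → g) (l : List ι)
    (F : ι → Code X) : val ζ (l.flatMap F) = (l.map fun i => val ζ (F i)).sum := by
  induction l with
  | nil => simp
  | cons i l ih => rw [List.flatMap_cons, val_append, ih]; simp

theorem sum_toList {ι : Type} [Fintype ι] {g : Type*} [AddCommMonoid g] (F : ι → g) :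
    ((Finset.univ : Finset ι).toList.map F).sum = ∑ i, F i := by
  rw [Finset.sum_map_toList]

theorem act_lsum {X : Type} {g : Type*} [LieRing g] (ζ : X → g) (w : List X) (l : List g) :
    act ζ w l.sum = (l.map (act ζ w)).sum := by
  induction l with
  | nil => simp
  | cons a l ih => rw [List.sum_cons, act_add, ih]; simp

theorem val_WC [Fintype C] [Fintype J] (A : J → C → List (ℤ × List Z)) :
    val of (WC A) = Wof A := by
  rw [WC, val_flatMap, sum_toList, Wof]
  refine Finset.sum_congr rfl fun c _ => ?_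
  rw [val_flatMap, sum_toList]
  have h : ∀ f : L ((Z ⊕ C) ⊕ J), ⁅f, (dl c : L ((Z ⊕ C) ⊕ J))⁆ = act of [Sum.inl (Sum.inr c)] f :=
    fun f => rfl
  rw [h, act_sum]
  refine Finset.sum_congr rfl fun j _ => ?_
  rw [← h]
  induction A j c with
  | nil => simp
  | cons t a ih =>
    rw [List.map_cons, val_cons, actL_cons, add_lie, ih, act_append, act_map, zsmul_lie]
    rfl

theorem val_monC {Γ ρ : Type} [Fintype ρ] (F I : List Γ) :
    val of [(monC 1 F : ℤ × (((Γ ⊕ Bool) ⊕ Option ρ) ⊕ J) × List (((Γ ⊕ Bool) ⊕ Option ρ) ⊕ J)),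
      monC (-1) I] = (Gof (Gf F I) : L (((Γ ⊕ Bool) ⊕ Option ρ) ⊕ J)) := by
  classical
  rw [Gof, Fintype.sum_option]
  simp only [Gf, val_nil, zero_lie, Finset.sum_const_zero, add_zero]
  rw [val_cons, val_cons, val_cons, val_cons, val_nil, val_nil, add_zero, add_zero, add_lie]
  simp only [monC, act_append, act_map, one_smul, act_cons, act_nil, neg_smul, neg_lie]
  rfl

theorem val_relC (z : Fin 4 → P) (R : List P) (V : Code (P ⊕ J)) :
    val of (relC z R V) = rr (wel z R (val of V)) := by
  have h1 : val of (mapC some (ttC z ++ snocC (R.map Sum.inl) V)) =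
      inc (val of (ttC z ++ snocC (R.map Sum.inl) V)) := by
    rw [val_mapC, val_hom]
    simp
  rw [relC, val_snocC, h1, val_append, val_snocC, rr]
  have h2 : val of (ttC z : Code (P ⊕ J)) = tt z := by
    simp [ttC, val_cons, tt, pl]
  rw [h2, act_map]
  rfl

end Pool.Agent.LA78
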