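import Pool.Agent.LA78.Words

/-!
# Leading words

PROOFS. `kle wt` is a total order on words compatible with concatenation (`Words`), the support is
finite (`finite_supp`). `exists_lead`: a maximum of the finite nonempty support. `IsLead.mul`: if
`cf f u ≠ 0`, `cf g v ≠ 0` and `u ++ v = F ++ G` then `u = F`, `v = G` (`kle_append_eq`); so in
`cf_mul` only the splitting `F | G` contributes to the coefficient at `F ++ G`; and by `cf_mul_ne`
each word of `f * g` is `u ++ v`, `kle_append`. `mul_ne_zero'` follows.
-/

set_option autoImplicit false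

namespace Pool.Agent.LA78

variable {X : Type} [LinearOrder X]

theorem exists_lead (wt : X → ℕ) {f : U X} (hf : f ≠ 0) : ∃ W, IsLead wt f W := by
  have key : ∀ s : Finset (List X), s.Nonempty → ∃ W ∈ s, ∀ w ∈ s, kle wt w W := by
    intro s
    induction s using Finset.induction_on with
    | empty => intro h; exact absurd h (by simp)
    | insert a s _ ih =>
      intro _
      rcases s.eq_empty_or_nonempty with hs | hs
      · subst hs
        refine ⟨a, by simp, ?_⟩
        intro w hw
        rw [Finset.mem_insert] at hw
        rcases hw with rfl | hw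
        · exact kle_refl wt _
        · simp at hw
      · obtain ⟨W, hW, hmax⟩ := ih hs
        rcases kle_total wt a W with h | h
        · refine ⟨W, Finset.mem_insert_of_mem hW, ?_⟩
          intro w hw
          rw [Finset.mem_insert] at hw
          rcases hw with rfl | hw
          · exact h
          · exact hmax w hw
        · refine ⟨a, Finset.mem_insert_self _ _, ?_⟩
          intro w hw
          rw [Finset.mem_insert] at hw
          rcases hw with rfl | hw
          · exact kle_refl wt _
          · exact kle_trans (hmax w hw) h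
  obtain ⟨w, hw⟩ := exists_cf_ne hf
  have hfin := finite_supp f
  obtain ⟨W, hW, hmax⟩ := key hfin.toFinset ⟨w, by simpa using hw⟩
  refine ⟨W, by simpa using hW, ?_⟩
  intro v hv
  exact hmax v (by simpa using hv)

theorem IsLead.ne_zero {wt : X → ℕ} {f : U X} {W : List X} (h : IsLead wt f W) : f ≠ 0 := by
  rintro rfl
  exact h.1 (cf_zero W)

theorem IsLead.unique {wt : X → ℕ} {f : U X} {W W' : List X} (h : IsLead wt f W)
    (h' : IsLead wt f W') : W = W' :=
  kle_antisymm (h'.2 W h.1) (h.2 W' h'.1)

theorem IsLead.coeff_mul {wt : X → ℕ} {f g : U X} {F G : List X} (hF : IsLead wt f F)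
    (hG : IsLead wt g G) : cf (f * g) (F ++ G) = cf f F * cf g G := by
  rw [cf_mul, Finset.sum_eq_single F.length]
  · rw [List.take_left', List.drop_left']
    · rfl
    · rfl
  · intro i hi hne
    by_contra h
    have h1 : cf f ((F ++ G).take i) ≠ 0 := left_ne_zero_of_mul h
    have h2 : cf g ((F ++ G).drop i) ≠ 0 := right_ne_zero_of_mul h
    have h3 := kle_append_eq (hF.2 _ h1) (hG.2 _ h2) (List.take_append_drop i (F ++ G))
    have h4 := congrArg List.length h3.1
    rw [List.length_take, List.length_append] at h4
    rw [Finset.mem_range, List.length_append] at hi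
    omega
  · intro h
    exfalso
    apply h
    rw [Finset.mem_range, List.length_append]
    omega

theorem IsLead.mul {wt : X → ℕ} {f g : U X} {F G : List X} (hF : IsLead wt f F)
    (hG : IsLead wt g G) : IsLead wt (f * g) (F ++ G) := by
  refine ⟨?_, ?_⟩
  · rw [hF.coeff_mul hG]
    exact mul_ne_zero hF.1 hG.1
  · intro w hw
    obtain ⟨u, v, rfl, hu, hv⟩ := cf_mul_ne hw
    exact kle_append (hF.2 u hu) (hG.2 v hv)

theorem IsLead.dg_eq {wt : X → ℕ} {f : U X} {W : List X} (h : IsLead wt f W) :
    dg wt f = wsum wt W := by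
  apply le_antisymm
  · refine dg_le wt ?_
    intro w hw
    rcases h.2 w hw with h1 | ⟨h1, _⟩
    · exact h1.le
    · exact h1.le
  · exact le_dg wt h.1

theorem IsLead.smul {wt : X → ℕ} {f : U X} {W : List X} (h : IsLead wt f W) {c : ℚ}
    (hc : c ≠ 0) : IsLead wt (c • f) W := by
  refine ⟨?_, ?_⟩
  · rw [cf_smul]
    exact mul_ne_zero hc h.1
  · intro w hw
    rw [cf_smul] at hw
    exact h.2 w (right_ne_zero_of_mul hw)

omit [LinearOrder X] in
theorem mul_ne_zero' {f g : U X} (hf : f ≠ 0) (hg : g ≠ 0) : f * g ≠ 0 := by
  classical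
  let _ : LinearOrder X := linearOrderOfSTO (WellOrderingRel (α := X))
  obtain ⟨F, hF⟩ := exists_lead (fun _ => 0) hf
  obtain ⟨G, hG⟩ := exists_lead (fun _ => 0) hg
  exact (hF.mul hG).ne_zero

end Pool.Agent.LA78
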