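import Pool.Agent.LA78.Basic

/-!
# Lie elements are orthogonal to proper shuffles

`sh u v w` is the number of ways in which `w` is a shuffle of `u` and `v` (defined in `Defs`).

PROOF of `shuffle_zero`. Let `V = MonoidAlgebra ℚ (FreeMonoid X × FreeMonoid X)`,
`Δ : U X →ₐ[ℚ] V` = `ulift` of `x ↦ single (x, 1) 1 + single (1, x) 1`, `i₁ f = ` image of `f` under
`w ↦ (w, 1)`, `i₂ f` under `w ↦ (1, w)` (`MonoidAlgebra.mapDomainAlgHom`, or `ulift`).
(1) the coefficient of `Δ (wd w)` at `(u, v)` is `sh u v w`: induction on `w`,
`Δ (wd (a :: w)) = (single (a,1) 1 + single (1,a) 1) * Δ (wd w)`, and the coefficient of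
`single (a,1) 1 * g` at `(u, v)` is that of `g` at `(u', v)` if `u = a :: u'` and `0` otherwise.
(2) `Δ (io f) = i₁ (io f) + i₂ (io f)` for `f : L X`, by `L_ind`: `i₁ p` and `i₂ q` commute.
(3) So for nonempty `u`, `v` the coefficient of `Δ (io f)` at `(u, v)` is zero; by `eq_sum_wd`
and (1) it is the sum in the statement.
-/

set_option autoImplicit false

namespace Pool.Agent.LA78

variable {X : Type} [DecidableEq X]

namespace Shuf

/-- The algebra in which the coproduct takes values. -/
abbrev V2 (X : Type) := MonoidAlgebra ℚ (FreeMonoid X × FreeMonoid X)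

/-- The letter `x` on the left. -/
noncomputable def lt1 (x : X) : V2 X := MonoidAlgebra.single (FreeMonoid.of x, 1) 1

/-- The letter `x` on the right. -/
noncomputable def lt2 (x : X) : V2 X := MonoidAlgebra.single (1, FreeMonoid.of x) 1

/-- The embedding on the left. -/
noncomputable def i1 : U X →ₐ[ℚ] V2 X := ulift lt1

/-- The embedding on the right. -/
noncomputable def i2 : U X →ₐ[ℚ] V2 X := ulift lt2

/-- The coproduct. -/
noncomputable def dl : U X →ₐ[ℚ] V2 X := ulift (fun x => lt1 x + lt2 x)

omit [DecidableEq X] in
theorem i1_wd (w : List X) : i1 (wd w) = MonoidAlgebra.single (FreeMonoid.ofList w, 1) (1 : ℚ) := by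
  induction w with
  | nil => rw [wd_nil, map_one]; rfl
  | cons x w ih =>
    rw [wd_cons, map_mul, ih, i1, ulift_uof, lt1, MonoidAlgebra.single_mul_single]
    simp [FreeMonoid.ofList_cons]

omit [DecidableEq X] in
theorem i2_wd (w : List X) : i2 (wd w) = MonoidAlgebra.single (1, FreeMonoid.ofList w) (1 : ℚ) := by
  induction w with
  | nil => rw [wd_nil, map_one]; rfl
  | cons x w ih =>
    rw [wd_cons, map_mul, ih, i2, ulift_uof, lt2, MonoidAlgebra.single_mul_single]
    simp [FreeMonoid.ofList_cons]

omit [DecidableEq X] in
theorem i1_coeff (f : U X) (u v : List X) (hv : v ≠ []) :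
    (i1 f).coeff (FreeMonoid.ofList u, FreeMonoid.ofList v) = 0 := by
  classical
  refine U_ind (P := fun f => (i1 f).coeff (FreeMonoid.ofList u, FreeMonoid.ofList v) = 0)
    ?_ ?_ ?_ f
  · simp
  · intro f g hf hg
    rw [map_add, MonoidAlgebra.coeff_add, Finsupp.add_apply, hf, hg, add_zero]
  · intro c w
    rw [map_smul, i1_wd, MonoidAlgebra.coeff_smul_apply, MonoidAlgebra.coeff_single,
      Finsupp.single_apply, if_neg, smul_zero]
    intro h
    apply hv
    have h2 := congrArg Prod.snd h
    have h3 : FreeMonoid.ofList ([] : List X) = FreeMonoid.ofList v := h2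
    exact (FreeMonoid.ofList.injective h3).symm

omit [DecidableEq X] in
theorem i2_coeff (f : U X) (u v : List X) (hu : u ≠ []) :
    (i2 f).coeff (FreeMonoid.ofList u, FreeMonoid.ofList v) = 0 := by
  classical
  refine U_ind (P := fun f => (i2 f).coeff (FreeMonoid.ofList u, FreeMonoid.ofList v) = 0)
    ?_ ?_ ?_ f
  · simp
  · intro f g hf hg
    rw [map_add, MonoidAlgebra.coeff_add, Finsupp.add_apply, hf, hg, add_zero]
  · intro c w
    rw [map_smul, i2_wd, MonoidAlgebra.coeff_smul_apply, MonoidAlgebra.coeff_single,
      Finsupp.single_apply, if_neg, smul_zero]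
    intro h
    apply hu
    have h2 := congrArg Prod.fst h
    have h3 : FreeMonoid.ofList ([] : List X) = FreeMonoid.ofList u := h2
    exact (FreeMonoid.ofList.injective h3).symm

omit [DecidableEq X] in
theorem i12_comm (f g : U X) : i1 f * i2 g = i2 g * i1 f := by
  refine U_ind (P := fun f => i1 f * i2 g = i2 g * i1 f) ?_ ?_ ?_ f
  · simp
  · intro f f' hf hf'
    rw [map_add, add_mul, mul_add, hf, hf']
  · intro c w
    refine U_ind (P := fun g => i1 (c • wd w) * i2 g = i2 g * i1 (c • wd w)) ?_ ?_ ?_ g
    · simp
    · intro g g' hg hg'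
      rw [map_add, add_mul, mul_add, hg, hg']
    · intro d v
      rw [map_smul, map_smul, i1_wd, i2_wd, smul_mul_assoc, mul_smul_comm, smul_mul_assoc,
        mul_smul_comm, MonoidAlgebra.single_mul_single, MonoidAlgebra.single_mul_single,
        smul_comm]
      simp

omit [DecidableEq X] in
theorem dl_io (f : L X) : dl (io f) = i1 (io f) + i2 (io f) := by
  refine L_ind (P := fun f => dl (io f) = i1 (io f) + i2 (io f)) ?_ ?_ ?_ ?_ ?_ f
  · simp
  · intro x
    rw [io_of, dl, i1, i2, ulift_uof, ulift_uof, ulift_uof]
  · intro f g hf hg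
    rw [map_add, map_add, map_add, map_add, hf, hg]
    abel
  · intro c f hf
    rw [map_smul, map_smul, map_smul, map_smul, hf, smul_add]
  · intro f g hf hg
    rw [io_lie, map_sub, map_sub, map_sub, map_mul, map_mul, map_mul, map_mul, map_mul, map_mul,
      hf, hg]
    simp only [add_mul, mul_add]
    rw [i12_comm (io f) (io g), i12_comm (io g) (io f)]
    abel

theorem sh_cons (u v : List X) (a : X) (w : List X) : sh u v (a :: w) =
    (match u with | [] => 0 | b :: u' => if b = a then sh u' v w else 0) +
      (match v with | [] => 0 | b :: v' => if b = a then sh u v' w else 0) := by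
  cases u <;> cases v <;> rfl

/-- The coefficient of `Δ (wd w)` at `(u, v)`. -/
theorem dl_wd_coeff (w u v : List X) :
    (dl (wd w)).coeff (FreeMonoid.ofList u, FreeMonoid.ofList v) = (sh u v w : ℚ) := by
  classical
  induction w generalizing u v with
  | nil =>
    rw [wd_nil, map_one, MonoidAlgebra.one_def, MonoidAlgebra.coeff_single, Finsupp.single_apply,
      sh]
    by_cases h : u = [] ∧ v = []
    · obtain ⟨rfl, rfl⟩ := h
      rw [if_pos, if_pos ⟨rfl, rfl⟩]
      · simp
      · rfl
    · rw [if_neg h, if_neg]
      · simp
      · intro h2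
        apply h
        have h3 : FreeMonoid.ofList ([] : List X) = FreeMonoid.ofList u := congrArg Prod.fst h2
        have h4 : FreeMonoid.ofList ([] : List X) = FreeMonoid.ofList v := congrArg Prod.snd h2
        exact ⟨(FreeMonoid.ofList.injective h3).symm, (FreeMonoid.ofList.injective h4).symm⟩
  | cons a w ih =>
    have e1 : (lt1 a * dl (wd w)).coeff (FreeMonoid.ofList u, FreeMonoid.ofList v) =
        (((match u with | [] => 0 | b :: u' => if b = a then sh u' v w else 0) : ℕ) : ℚ) := by
      cases u with
      | nil =>
        rw [lt1, MonoidAlgebra.coeff_single_mul_of_forall_mul_ne]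
        · simp
        · rintro ⟨d1, d2⟩ h
          have h2 := congrArg (fun p => (FreeMonoid.toList (Prod.fst p)).length) h
          simp at h2
      | cons b u =>
        by_cases hb : b = a
        · subst hb
          rw [lt1, MonoidAlgebra.coeff_single_mul_eq_mul_coeff (FreeMonoid.ofList u,
            FreeMonoid.ofList v), one_mul, ih]
          · simp
          · rintro ⟨d1, d2⟩ _
            rw [Prod.mk_mul_mk, one_mul, Prod.mk.injEq, Prod.mk.injEq, FreeMonoid.ofList_cons]
            constructor
            · rintro ⟨h1, h2⟩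
              exact ⟨mul_left_cancel h1, h2⟩
            · rintro ⟨h1, h2⟩
              exact ⟨by rw [h1], h2⟩
        · rw [lt1, MonoidAlgebra.coeff_single_mul_of_forall_mul_ne]
          · simp [hb]
          · rintro ⟨d1, d2⟩ h
            have h2 := congrArg (fun p => (FreeMonoid.toList (Prod.fst p)).head?) h
            simp only [Prod.mk_mul_mk, FreeMonoid.toList_mul, FreeMonoid.toList_of,
              FreeMonoid.toList_ofList] at h2
            simp only [List.cons_append, List.nil_append, List.head?_cons, Option.some.injEq] at h2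
            exact hb h2.symm
    have e2 : (lt2 a * dl (wd w)).coeff (FreeMonoid.ofList u, FreeMonoid.ofList v) =
        (((match v with | [] => 0 | b :: v' => if b = a then sh u v' w else 0) : ℕ) : ℚ) := by
      cases v with
      | nil =>
        rw [lt2, MonoidAlgebra.coeff_single_mul_of_forall_mul_ne]
        · simp
        · rintro ⟨d1, d2⟩ h
          have h2 := congrArg (fun p => (FreeMonoid.toList (Prod.snd p)).length) h
          simp at h2
      | cons b v =>
        by_cases hb : b = a
        · subst hb
          rw [lt2, MonoidAlgebra.coeff_single_mul_eq_mul_coeff (FreeMonoid.ofList u,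
            FreeMonoid.ofList v), one_mul, ih]
          · simp
          · rintro ⟨d1, d2⟩ _
            rw [Prod.mk_mul_mk, one_mul, Prod.mk.injEq, Prod.mk.injEq, FreeMonoid.ofList_cons]
            constructor
            · rintro ⟨h1, h2⟩
              exact ⟨h1, mul_left_cancel h2⟩
            · rintro ⟨h1, h2⟩
              exact ⟨h1, by rw [h2]⟩
        · rw [lt2, MonoidAlgebra.coeff_single_mul_of_forall_mul_ne]
          · simp [hb]
          · rintro ⟨d1, d2⟩ h
            have h2 := congrArg (fun p => (FreeMonoid.toList (Prod.snd p)).head?) h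
            simp only [Prod.mk_mul_mk, FreeMonoid.toList_mul, FreeMonoid.toList_of,
              FreeMonoid.toList_ofList] at h2
            simp only [List.cons_append, List.nil_append, List.head?_cons, Option.some.injEq] at h2
            exact hb h2.symm
    have e3 : dl (wd (a :: w)) = lt1 a * dl (wd w) + lt2 a * dl (wd w) := by
      rw [wd_cons, map_mul, dl, ulift_uof, add_mul]
    rw [e3, MonoidAlgebra.coeff_add, Finsupp.add_apply, e1, e2, sh_cons]
    push_cast
    cases v <;> rfl

theorem dl_coeff (f : U X) (u v : List X) :
    (dl f).coeff (FreeMonoid.ofList u, FreeMonoid.ofList v) =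
      ∑ w ∈ f.coeff.support, cf f (FreeMonoid.toList w) * (sh u v (FreeMonoid.toList w) : ℚ) := by
  conv_lhs => rw [eq_sum_wd f]
  rw [map_sum, MonoidAlgebra.coeff_sum, Finsupp.finsetSum_apply]
  apply Finset.sum_congr rfl
  intro w _
  rw [map_smul, MonoidAlgebra.coeff_smul_apply, dl_wd_coeff, smul_eq_mul]

end Shuf

open Shuf in
theorem shuffle_zero (f : L X) (u v : List X) (hu : u ≠ []) (hv : v ≠ []) :
    ∑ w ∈ (io f).coeff.support, cf (io f) (FreeMonoid.toList w) *
      (sh u v (FreeMonoid.toList w) : ℚ) = 0 := by
  rw [← dl_coeff, dl_io, MonoidAlgebra.coeff_add, Finsupp.add_apply, i1_coeff _ _ _ hv,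
    i2_coeff _ _ _ hu, add_zero]

theorem mg_of_sh {u v w : List X} (h : sh u v w ≠ 0) : Mg u v w := by
  induction w generalizing u v with
  | nil =>
    rw [sh] at h
    have h2 : u = [] ∧ v = [] := by
      by_contra hc
      exact h (if_neg hc)
    obtain ⟨rfl, rfl⟩ := h2
    exact Mg.nil
  | cons a w ih =>
    rw [Shuf.sh_cons] at h
    by_cases h1 : (match u with | [] => 0 | b :: u' => if b = a then sh u' v w else 0) = 0
    · rw [h1, zero_add] at h
      cases v with
      | nil => exact absurd rfl h
      | cons b v =>
        by_cases hb : b = a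
        · subst hb
          simp only [if_true] at h
          exact Mg.right (ih h)
        · simp only [if_neg hb] at h
          exact absurd rfl h
    · cases u with
      | nil => simp at h1
      | cons b u =>
        by_cases hb : b = a
        · subst hb
          simp only [if_true] at h1
          exact Mg.left (ih h1)
        · simp [hb] at h1

theorem sh_append_pos (u v : List X) : 0 < sh u v (u ++ v) := by
  induction u with
  | nil =>
    induction v with
    | nil => simp [sh]
    | cons b v ih =>
      rw [List.nil_append] at *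
      rw [Shuf.sh_cons]
      simp only [if_true, zero_add]
      exact ih
  | cons a u ih =>
    rw [List.cons_append, Shuf.sh_cons]
    simp only [if_true]
    exact lt_of_lt_of_le ih (Nat.le_add_right _ _)

end Pool.Agent.LA78
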