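import Pool.Agent.LA78.Merge
import Pool.Agent.LA78.Shuf
import Pool.Agent.LA78.Lead

/-!
# The leading word of a Lie element is at most each of its nonempty suffixes

PROOF of `lead_suffix`. `W ≠ []` by `cf_io_nil`. Let `v` be the `lle`-smallest nonempty suffix of
`W` (finitely many suffixes). If `v = W` we are done. Otherwise `W = u ++ v` with `u`, `v` nonempty.
By `suffix_ge` and `merge_le` each merge `w` of `u` and `v` satisfies `lle w W`. So if `w ≠ W` is a
merge then `cf (io f) w = 0`: otherwise `kle wt w W`; `w` and `W` have the same weight and length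
(`Mg.wsum`, `Mg.length`), so `lle W w`, hence `w = W`. So in `shuffle_zero f u v` only the term
`w = W` is nonzero (`mg_of_sh`), and it is `cf (io f) W * sh u v (u ++ v) ≠ 0`. Contradiction.
-/

set_option autoImplicit false

namespace Pool.Agent.LA78

variable {X : Type} [LinearOrder X]

theorem lead_ne_nil {wt : X → ℕ} {f : L X} {W : List X} (h : IsLead wt (io f) W) : W ≠ [] := by
  rintro rfl
  exact h.1 (cf_io_nil f)

/-- The smallest nonempty suffix. -/
theorem exists_min_suffix (W : List X) (hW : W ≠ []) :
    ∃ v, v ≠ [] ∧ v <:+ W ∧ ∀ s, s ≠ [] → s <:+ W → lle v s := by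
  induction W with
  | nil => exact absurd rfl hW
  | cons a W ih =>
    by_cases hn : W = []
    · subst hn
      refine ⟨[a], by simp, List.suffix_refl _, ?_⟩
      intro s hs h
      rcases List.suffix_cons_iff.1 h with h | h
      · rw [h]; exact lle_refl _
      · exact absurd (List.suffix_nil.1 h) hs
    · obtain ⟨v, hv, hvW, hmin⟩ := ih hn
      rcases lle_total v (a :: W) with h | h
      · refine ⟨v, hv, hvW.trans (List.suffix_cons a W), ?_⟩
        intro s hs hsW
        rcases List.suffix_cons_iff.1 hsW with h2 | h2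
        · rw [h2]; exact h
        · exact hmin s hs h2
      · refine ⟨a :: W, by simp, List.suffix_refl _, ?_⟩
        intro s hs hsW
        rcases List.suffix_cons_iff.1 hsW with h2 | h2
        · rw [h2]; exact lle_refl _
        · exact lle_trans h (hmin s hs h2)

theorem lead_suffix {wt : X → ℕ} {f : L X} {W : List X} (h : IsLead wt (io f) W) :
    ∀ s, s ≠ [] → s <:+ W → lle W s := by
  obtain ⟨v, hv, hvW, hmin⟩ := exists_min_suffix W (lead_ne_nil h)
  by_cases hvW2 : v = W
  · rw [← hvW2] at hmin ⊢
    exact hmin
  exfalso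
  obtain ⟨u, rfl⟩ := hvW
  have hu : u ≠ [] := by
    rintro rfl
    exact hvW2 rfl
  have hge := suffix_ge u v hv hmin
  have key : ∀ w, Mg u v w → w ≠ u ++ v → cf (io f) w = 0 := by
    intro w hw hne
    by_contra hc
    have h1 := h.2 w hc
    have h2 := merge_le u v w hge hw
    have h3 := hw.wsum wt
    have h4 := hw.length
    apply hne
    rcases h1 with h1 | ⟨_, h1 | ⟨_, h1⟩⟩
    · rw [wsum_append, h3] at h1
      exact absurd h1 (lt_irrefl _)
    · rw [List.length_append, h4] at h1
      exact absurd h1 (lt_irrefl _)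
    · exact lle_antisymm h2 h1
  have h5 := shuffle_zero f u v hu hv
  rw [Finset.sum_eq_single (FreeMonoid.ofList (u ++ v))] at h5
  · have h6 : (0 : ℚ) < (sh u v (u ++ v) : ℚ) := by exact_mod_cast sh_append_pos u v
    rcases mul_eq_zero.1 h5 with h7 | h7
    · exact h.1 h7
    · exact absurd h7 (ne_of_gt h6)
  · intro w _ hw
    by_cases hsh : sh u v (FreeMonoid.toList w) = 0
    · rw [hsh]; simp
    · rw [key _ (mg_of_sh hsh), zero_mul]
      intro h8
      apply hw
      rw [← h8]
      simp
  · intro hns
    have : cf (io f) (u ++ v) = 0 := by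
      simpa [cf] using hns
    exact absurd this h.1

end Pool.Agent.LA78
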