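import Pool.Agent.LA78.Embed
import Pool.Agent.LA78.Lyn

/-!
# Commuting elements of a free Lie algebra are proportional; leading word of a bracket

PROOFS. `eq_of_comm` (words): by symmetry `|F| ≤ |G|`; from `FG = GF`, `F` is a prefix of `G` and a
suffix of `G`; so `lle F G` and `lle G F` by the suffix property of `G`; so `F = G`.
`comm_prop`: choose a linear order on `X` (`linearOrderOfSTO WellOrderingRel` or the like). If
`f = 0` take `c = 0`. Let `F`, `G` be the leads of `io f`, `io g` (`wt = 0`). Since
`io f * io g = io g * io f`, `FG = GF` (`IsLead.mul`, `IsLead.unique`), so `F = G`. Let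
`c = cf (io f) F / cf (io g) G`, `f' = f - c • g`. It commutes with `g`. If `f' ≠ 0` then in the
same way its lead is `G`, but `cf (io f') G = 0`. So `f' = 0`.
`lead_bracket`: `FG ≠ GF` by `eq_of_comm`; the words of `io f * io g - io g * io f` are `kle` one of
`FG`, `GF` which have the same weight and length; take for `H` the `lle`-smaller one of the two;
its coefficient is `± cf f F * cf g G ≠ 0` because the other product has no word above its lead.
`dg_lie_ge`: if the leads differ, `lead_bracket`; if they agree write `f = c • g + f'`,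
`⁅f, g⁆ = ⁅f', g⁆`, and `f'` has another lead (its coefficient at `G` is zero), so
`dg ⁅f, g⁆ = dg f' + dg g ≥ dg g`, `dg f = dg g`.
-/

set_option autoImplicit false

namespace Pool.Agent.LA78

theorem eq_of_comm_aux {X : Type} [LinearOrder X] {F G : List X} (hF : F ≠ [])
    (h2 : ∀ s, s ≠ [] → s <:+ G → lle G s)
    (h : F ++ G = G ++ F) (hle : F.length ≤ G.length) : F = G := by
  have hp : F <+: G := by
    have h3 : F <+: F ++ G := List.prefix_append F G
    have h4 : G <+: F ++ G := h ▸ List.prefix_append G F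
    exact List.prefix_of_prefix_length_le h3 h4 hle
  have hs : F <:+ G := by
    have h3 : F <:+ F ++ G := by
      rw [h]; exact List.suffix_append G F
    have h4 : G <:+ F ++ G := List.suffix_append F G
    exact List.suffix_of_suffix_length_le h3 h4 hle
  exact lle_antisymm (lle_prefix hp) (h2 F hF hs)

theorem eq_of_comm {X : Type} [LinearOrder X] {F G : List X} (hF : F ≠ []) (hG : G ≠ [])
    (h1 : ∀ s, s ≠ [] → s <:+ F → lle F s) (h2 : ∀ s, s ≠ [] → s <:+ G → lle G s)
    (h : F ++ G = G ++ F) : F = G := by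
  rcases le_total F.length G.length with hle | hle
  · exact eq_of_comm_aux hF h2 h hle
  · exact (eq_of_comm_aux hG h1 h.symm hle).symm

theorem io_ne_zero {X : Type} {f : L X} (hf : f ≠ 0) : io f ≠ 0 := by
  intro h
  apply hf
  apply io_injective
  rw [h, map_zero]

theorem lead_eq_of_comm {X : Type} [LinearOrder X] {wt : X → ℕ} {f g : L X} (h : ⁅f, g⁆ = 0)
    {F G : List X} (hF : IsLead wt (io f) F) (hG : IsLead wt (io g) G) : F = G := by
  have hc : io f * io g = io g * io f := by
    have := io_lie f g
    rw [h, map_zero] at this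
    exact (sub_eq_zero.mp this.symm)
  have h1 := hF.mul hG
  rw [hc] at h1
  have h2 := h1.unique (hG.mul hF)
  exact eq_of_comm (lead_ne_nil hF) (lead_ne_nil hG) (lead_suffix hF) (lead_suffix hG) h2

theorem cf_reduce {X : Type} [LinearOrder X] {wt : X → ℕ} {f g : L X} {G : List X}
    (hG : IsLead wt (io g) G) :
    cf (io (f - (cf (io f) G / cf (io g) G) • g)) G = 0 := by
  rw [map_sub, map_smul, cf_sub, cf_smul, div_mul_cancel₀ _ hG.1, sub_self]

theorem lie_reduce {X : Type} (f g : L X) (c : ℚ) : ⁅f - c • g, g⁆ = ⁅f, g⁆ := by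
  rw [sub_lie, smul_lie, lie_self, smul_zero, sub_zero]

theorem comm_prop {X : Type} {f g : L X} (hg : g ≠ 0) (h : ⁅f, g⁆ = 0) :
    ∃ c : ℚ, f = c • g := by
  classical
  let _ : LinearOrder X := linearOrderOfSTO (WellOrderingRel : X → X → Prop)
  obtain ⟨G, hG⟩ := exists_lead (fun _ : X => 0) (io_ne_zero hg)
  refine ⟨cf (io f) G / cf (io g) G, ?_⟩
  by_contra hne
  have hne' : f - (cf (io f) G / cf (io g) G) • g ≠ 0 := fun h0 => hne (sub_eq_zero.mp h0)
  obtain ⟨F, hF⟩ := exists_lead (fun _ : X => 0) (io_ne_zero hne')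
  have h0 : ⁅f - (cf (io f) G / cf (io g) G) • g, g⁆ = 0 := by rw [lie_reduce, h]
  have hFG := lead_eq_of_comm h0 hF hG
  subst hFG
  exact hF.1 (cf_reduce hG)

theorem lead_bracket {X : Type} [LinearOrder X] {wt : X → ℕ} {f g : L X} {F G : List X}
    (hF : IsLead wt (io f) F) (hG : IsLead wt (io g) G) (hne : F ≠ G) :
    ∃ H, IsLead wt (io ⁅f, g⁆) H ∧ wsum wt H = wsum wt F + wsum wt G ∧
      H.length = F.length + G.length := by
  have hFG : F ++ G ≠ G ++ F := fun h =>
    hne (eq_of_comm (lead_ne_nil hF) (lead_ne_nil hG) (lead_suffix hF) (lead_suffix hG) h)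
  have h1 := hF.mul hG
  have h2 := hG.mul hF
  have hw : wsum wt (F ++ G) = wsum wt (G ++ F) := by
    rw [wsum_append, wsum_append, add_comm]
  have hl : (F ++ G).length = (G ++ F).length := by
    rw [List.length_append, List.length_append, add_comm]
  have key : ∀ {A B : U X} {P Q : List X}, IsLead wt A P → IsLead wt B Q → P ≠ Q →
      wsum wt P = wsum wt Q → P.length = Q.length → lle P Q → IsLead wt (A - B) P := by
    intro A B P Q hA hB hPQ hw hl hle
    refine ⟨?_, ?_⟩
    · have h0 : cf B P = 0 := by
        by_contra hc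
        rcases hB.2 P hc with h | ⟨_, h | ⟨_, h⟩⟩
        · omega
        · omega
        · exact hPQ (lle_antisymm hle h)
      rw [cf_sub, h0, sub_zero]
      exact hA.1
    · intro w hw'
      by_cases hA0 : cf A w = 0
      · have hB0 : cf B w ≠ 0 := by
          intro h
          rw [cf_sub, hA0, h, sub_zero] at hw'
          exact hw' rfl
        exact kle_trans (hB.2 w hB0) (Or.inr ⟨hw.symm, Or.inr ⟨hl.symm, hle⟩⟩)
      · exact hA.2 w hA0
  rcases lle_total (F ++ G) (G ++ F) with hle | hle
  · refine ⟨F ++ G, ?_, wsum_append wt F G, List.length_append⟩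
    rw [io_lie]
    exact key h1 h2 hFG hw hl hle
  · refine ⟨G ++ F, ?_, by rw [wsum_append, add_comm], by rw [List.length_append, add_comm]⟩
    have h3 := key h2 h1 hFG.symm hw.symm hl.symm hle
    have h4 := h3.smul (c := -1) (by norm_num)
    rw [io_lie]
    have : io f * io g - io g * io f = (-1 : ℚ) • (io g * io f - io f * io g) := by
      rw [neg_smul, one_smul, neg_sub]
    rw [this]
    exact h4

/-- The first bracket: the degree does not drop below `dg f`, and the lead becomes longer than
that of `g`. -/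
theorem first_bracket {X : Type} [LinearOrder X] {wt : X → ℕ} {f g : L X} (h : ⁅f, g⁆ ≠ 0)
    {G : List X} (hG : IsLead wt (io g) G) :
    ∃ H, IsLead wt (io ⁅f, g⁆) H ∧ dg wt (io f) ≤ wsum wt H ∧ G.length < H.length := by
  have hf : f ≠ 0 := by
    rintro rfl
    exact h (zero_lie g)
  obtain ⟨F, hF⟩ := exists_lead wt (io_ne_zero hf)
  rw [hF.dg_eq]
  by_cases hFG : F = G
  · subst hFG
    have hr : ⁅f - (cf (io f) F / cf (io g) F) • g, g⁆ ≠ 0 := by rwa [lie_reduce]
    have hf' : f - (cf (io f) F / cf (io g) F) • g ≠ 0 := by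
      intro h0
      rw [h0, zero_lie] at hr
      exact hr rfl
    obtain ⟨F', hF'⟩ := exists_lead wt (io_ne_zero hf')
    have hne : F' ≠ F := by
      rintro rfl
      exact hF'.1 (cf_reduce hG)
    obtain ⟨H, hH, hw, hl⟩ := lead_bracket hF' hG hne
    rw [lie_reduce] at hH
    refine ⟨H, hH, by omega, ?_⟩
    have := List.length_pos_of_ne_nil (lead_ne_nil hF')
    omega
  · obtain ⟨H, hH, hw, hl⟩ := lead_bracket hF hG hFG
    refine ⟨H, hH, by omega, ?_⟩
    have := List.length_pos_of_ne_nil (lead_ne_nil hF)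
    omega

end Pool.Agent.LA78
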