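import Pool.Agent.LA78.Quo

/-!
# The part of an element which starts with `κ`

PROOF. Let `M : U (Option Y) →ₐ[ℚ] Matrix (Fin 2) (Fin 2) (U Y)` be `ulift` of
`some y ↦ !![0, 0; 0, uof y]`, `none ↦ !![0, 1; 0, 0]`.
(1) For `f : L (Option Y)`: `M (io f) = !![0, D f; 0, io (prj f)]` for some `D f : U Y`, by `L_ind`;
and then `D ⁅f, g⁆ = D f * io (prj g) - D g * io (prj f)`.
(2) `cf (D f) [] = cf (io f) [none]`, by `L_ind` (for brackets both sides are zero: `cf_mul_nil`,
`cf_io_nil`, `lo_lie`).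
(3) If `qm (rr w') f = 0` then `prj f = 0` and `D f = io w' * g` for some `g`: `ideal_ind`; for the
generator: `D (inc w') = 0` (the image of `inc` has `D = 0` by `L_ind`), `D κ = 1`, so
`D ⁅inc w', κ⁆ = - io w'`; for `⁅f, g⁆` with `g` in the ideal, `prj g = 0`, so
`D ⁅f, g⁆ = - D g * io (prj f)`.
(4) Apply (3) to `Φ (rr w) = ⁅Φ (inc w), Φ κ⁆`: `D` of it is `- D (Φ κ) * io (prj (Φ (inc w)))`
because `prj (Φ κ) = 0`. Take `u = D (Φ κ)`.
-/

set_option autoImplicit false

namespace Pool.Agent.LA78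

/-- The matrices attached to the letters. -/
noncomputable def mletter {Y : Type} (o : Option Y) : Matrix (Fin 2) (Fin 2) (U Y) :=
  match o with
  | some y => !![0, 0; 0, uof y]
  | none => !![0, 1; 0, 0]

/-- The matrix representation. -/
noncomputable def Mrep {Y : Type} : U (Option Y) →ₐ[ℚ] Matrix (Fin 2) (Fin 2) (U Y) :=
  ulift mletter

theorem Mrep_lie {Y : Type} (f g : L (Option Y)) :
    Mrep (io ⁅f, g⁆) = Mrep (io f) * Mrep (io g) - Mrep (io g) * Mrep (io f) := by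
  rw [io_lie, map_sub, map_mul, map_mul]

theorem Mrep_shape {Y : Type} (f : L (Option Y)) :
    Mrep (io f) 0 0 = 0 ∧ Mrep (io f) 1 0 = 0 ∧ Mrep (io f) 1 1 = io (prj f) := by
  refine L_ind (P := fun f => Mrep (io f) 0 0 = 0 ∧ Mrep (io f) 1 0 = 0 ∧
    Mrep (io f) 1 1 = io (prj f)) ?_ ?_ ?_ ?_ ?_ f
  · simp
  · intro x
    rw [io_of, Mrep, ulift_uof]
    cases x with
    | none =>
      have h : prj (of (none : Option Y)) = 0 := prj_kap
      rw [h]
      simp [mletter]
    | some y => simp [mletter]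
  · intro f g hf hg
    obtain ⟨a1, a2, a3⟩ := hf
    obtain ⟨b1, b2, b3⟩ := hg
    simp only [map_add, Matrix.add_apply, a1, a2, a3, b1, b2, b3, add_zero, true_and]
  · intro c f hf
    obtain ⟨a1, a2, a3⟩ := hf
    simp only [map_smul, Matrix.smul_apply, a1, a2, a3, smul_zero, true_and]
  · intro f g hf hg
    obtain ⟨a1, a2, a3⟩ := hf
    obtain ⟨b1, b2, b3⟩ := hg
    rw [Mrep_lie, LieHom.map_lie, io_lie]
    simp only [Matrix.sub_apply, Matrix.mul_apply, Fin.sum_univ_two, a1, a2, a3, b1, b2, b3]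
    simp

/-- The part of `f` which starts with `κ`. -/
noncomputable def Dm {Y : Type} (f : L (Option Y)) : U Y := Mrep (io f) 0 1

theorem Dm_zero {Y : Type} : Dm (0 : L (Option Y)) = 0 := by simp [Dm]

theorem Dm_add {Y : Type} (f g : L (Option Y)) : Dm (f + g) = Dm f + Dm g := by simp [Dm]

theorem Dm_smul {Y : Type} (c : ℚ) (f : L (Option Y)) : Dm (c • f) = c • Dm f := by simp [Dm]

theorem Dm_lie {Y : Type} (f g : L (Option Y)) :
    Dm ⁅f, g⁆ = Dm f * io (prj g) - Dm g * io (prj f) := by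
  obtain ⟨a1, a2, a3⟩ := Mrep_shape f
  obtain ⟨b1, b2, b3⟩ := Mrep_shape g
  unfold Dm
  rw [Mrep_lie]
  simp only [Matrix.sub_apply, Matrix.mul_apply, Fin.sum_univ_two, a1, a3, b1, b3, zero_mul,
    zero_add]

theorem Dm_some {Y : Type} (y : Y) : Dm (of (some y)) = 0 := by
  unfold Dm
  rw [io_of, Mrep, ulift_uof]
  simp [mletter]

theorem Dm_kap {Y : Type} : Dm (kap : L (Option Y)) = 1 := by
  unfold Dm kap
  rw [io_of, Mrep, ulift_uof]
  simp [mletter]

theorem Dm_inc {Y : Type} (f : L Y) : Dm (inc f) = 0 := by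
  refine L_ind (P := fun f => Dm (inc f) = 0) ?_ ?_ ?_ ?_ ?_ f
  · rw [map_zero, Dm_zero]
  · intro x; rw [inc_of, Dm_some]
  · intro f g hf hg; rw [map_add, Dm_add, hf, hg, add_zero]
  · intro c f hf; rw [map_smul, Dm_smul, hf, smul_zero]
  · intro f g hf hg; rw [LieHom.map_lie, Dm_lie, hf, hg, zero_mul, zero_mul, sub_zero]

theorem cf_Dm_nil {Y : Type} (f : L (Option Y)) : cf (Dm f) [] = cf (io f) [none] := by
  classical
  refine L_ind (P := fun f => cf (Dm f) [] = cf (io f) [none]) ?_ ?_ ?_ ?_ ?_ f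
  · rw [Dm_zero, map_zero]; simp
  · intro x
    cases x with
    | none =>
      have h : Dm (of (none : Option Y)) = 1 := Dm_kap
      rw [h, cf_one_nil, io_of, cf_uof]
      simp
    | some y =>
      rw [Dm_some, io_of, cf_uof]
      simp
  · intro f g hf hg
    rw [Dm_add, map_add, cf_add, cf_add, hf, hg]
  · intro c f hf
    rw [Dm_smul, map_smul, cf_smul, cf_smul, hf]
  · intro f g _ _
    rw [Dm_lie, cf_sub, cf_mul_nil, cf_mul_nil, cf_io_nil, cf_io_nil, mul_zero, mul_zero, sub_zero]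
    symm
    exact lo_lie (lo_io _) (lo_io _) [none] (by simp)

theorem Dm_ideal {Y : Type} (w' : L Y) {f : L (Option Y)} (hf : qm (rr w') f = 0) :
    prj f = 0 ∧ ∃ g, Dm f = io w' * g := by
  refine ideal_ind (P := fun f => prj f = 0 ∧ ∃ g, Dm f = io w' * g) ?_ ?_ ?_ ?_ ?_ hf
  · refine ⟨prj_rr w', -1, ?_⟩
    rw [rr, Dm_lie, Dm_inc, Dm_kap, zero_mul, prj_inc, zero_sub, one_mul, mul_neg, mul_one]
  · exact ⟨map_zero _, 0, by rw [Dm_zero, mul_zero]⟩
  · rintro f g ⟨a1, g1, a2⟩ ⟨b1, g2, b2⟩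
    exact ⟨by rw [map_add, a1, b1, add_zero], g1 + g2, by rw [Dm_add, a2, b2, mul_add]⟩
  · rintro c f ⟨a1, g1, a2⟩
    exact ⟨by rw [map_smul, a1, smul_zero], c • g1, by rw [Dm_smul, a2, mul_smul_comm]⟩
  · rintro f g ⟨b1, g2, b2⟩
    refine ⟨by rw [LieHom.map_lie, b1, lie_zero], -(g2 * io (prj f)), ?_⟩
    rw [Dm_lie, b1, map_zero, mul_zero, zero_sub, b2, mul_neg, mul_assoc]

theorem dmap {Y : Type} (w w' : L Y) (Φ : L (Option Y) →ₗ⁅ℚ⁆ L (Option Y))
    (h : qm (rr w') (Φ (rr w)) = 0) (hk : prj (Φ kap) = 0) :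
    ∃ u g : U Y, u * io (prj (Φ (inc w))) = io w' * g ∧
      cf u [] = cf (io (Φ kap)) [none] := by
  obtain ⟨_, g, hg⟩ := Dm_ideal w' h
  refine ⟨Dm (Φ kap), -g, ?_, cf_Dm_nil _⟩
  rw [rr, LieHom.map_lie, Dm_lie, hk, map_zero, mul_zero, zero_sub] at hg
  rw [mul_neg, ← hg, neg_neg]

/-- The linear coefficient of the image of `κ` is nonzero if there is an inverse modulo the
relators, the relators have no linear part and `prj (Φ κ) = 0`.

PROOF. `Φ' (Φ κ) - κ` is in the kernel of `qm (rr w)`, so its linear part vanishes (`lo_of_qm`,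
`lo 2`; `rr w` has `lo 2` by `lo_lie`, `lo_io`): `cf (io (Φ' (Φ κ))) [none] = 1`. By
`cf_hom_single` this is `Σ_x cf (io (Φ κ)) [x] * cf (io (Φ' (of x))) [none]`, and
`cf (io (Φ κ)) [some y] = cf (io (prj (Φ κ))) [y] = 0` (`cf_hom_single` for `prj`). So
`cf (io (Φ κ)) [none] ≠ 0`. -/
theorem kap_coeff_ne {Y : Type} [Fintype Y] (w w' : L Y)
    (Φ Φ' : L (Option Y) →ₗ⁅ℚ⁆ L (Option Y)) (hk : prj (Φ kap) = 0)
    (h : qm (rr w) (Φ' (Φ kap)) = qm (rr w) kap) : cf (io (Φ kap)) [none] ≠ 0 := by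
  classical
  intro h0
  have h1 : qm (rr w) (Φ' (Φ kap) - kap) = 0 := by rw [map_sub, h, sub_self]
  have hrr : lo 2 (io (rr w)) := lo_lie (lo_io _) (lo_io _)
  have h2 := lo_of_qm hrr h1 [none] (by simp)
  rw [map_sub, cf_sub] at h2
  have h3 : cf (io (kap : L (Option Y))) [none] = 1 := by
    unfold kap
    rw [io_of, cf_uof]
    simp
  have h4 := cf_hom_single Φ' (Φ kap) none
  have h5 : ∀ x : Option Y, cf (io (Φ kap)) [x] = 0 := by
    intro x
    cases x with
    | none => exact h0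
    | some y =>
      have h6 := cf_hom_single prj (Φ kap) y
      rw [hk, map_zero, cf_zero, Finset.sum_eq_single (some y)] at h6
      · rw [prj_of_some, io_of, cf_uof] at h6
        simpa using h6.symm
      · intro b _ hb
        cases b with
        | none =>
          have : prj (of (none : Option Y)) = 0 := prj_kap
          rw [this, map_zero, cf_zero, mul_zero]
        | some z =>
          have hzy : z ≠ y := fun e => hb (by rw [e])
          rw [prj_of_some, io_of, cf_uof, if_neg (by simpa using Ne.symm hzy), mul_zero]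
      · intro hn
        exact absurd (Finset.mem_univ _) hn
  rw [Finset.sum_eq_zero (fun x _ => by rw [h5 x, zero_mul])] at h4
  rw [h4, h3] at h2
  norm_num at h2

end Pool.Agent.LA78
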