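import Mathlib

/-!
# Isomorphism problem for one-relator Lie algebras: definitions

`L X` is the free Lie algebra over `ℚ`, `U X` the free associative algebra (finitely supported
functions on words), `io : L X → U X` the canonical map, `cf f w` the coefficient of `f` at the
word `w`.
-/

set_option autoImplicit false

namespace Pool.Agent.LA78

/-- The free associative algebra over `ℚ` on `X`. -/
abbrev U (X : Type) := MonoidAlgebra ℚ (FreeMonoid X)

/-- The free Lie algebra over `ℚ` on `X`. -/
abbrev L (X : Type) := FreeLieAlgebra ℚ X

noncomputable instance instLieRingU (X : Type) : LieRing (U X) := LieRing.ofAssociativeRing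

noncomputable instance instLieAlgebraU (X : Type) : LieAlgebra ℚ (U X) :=
  LieAlgebra.ofAssociativeAlgebra

/-- The letter `x` in the free associative algebra. -/
noncomputable def uof {X : Type} (x : X) : U X := MonoidAlgebra.single (FreeMonoid.of x) 1

/-- The letter `x` in the free Lie algebra. -/
noncomputable def of {X : Type} (x : X) : L X := FreeLieAlgebra.of ℚ x

/-- The canonical map from the free Lie algebra to the free associative algebra. -/
noncomputable def io {X : Type} : L X →ₗ⁅ℚ⁆ U X := FreeLieAlgebra.lift ℚ uof

/-- The Lie homomorphism with given values on the letters. -/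
noncomputable def llift {X : Type} {g : Type*} [LieRing g] [LieAlgebra ℚ g] (ζ : X → g) :
    L X →ₗ⁅ℚ⁆ g := FreeLieAlgebra.lift ℚ ζ

/-- The algebra homomorphism with given values on the letters. -/
noncomputable def ulift {X : Type} {A : Type*} [Ring A] [Algebra ℚ A] (ζ : X → A) : U X →ₐ[ℚ] A :=
  MonoidAlgebra.lift ℚ A (FreeMonoid X) (FreeMonoid.lift ζ)

/-- The coefficient of `f` at the word `w`. -/
noncomputable def cf {X : Type} (f : U X) (w : List X) : ℚ := f.coeff (FreeMonoid.ofList w)

/-- The word `w` as an element of the free associative algebra. -/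
noncomputable def wd {X : Type} (w : List X) : U X :=
  MonoidAlgebra.single (FreeMonoid.ofList w) 1

/-- All words of `f` have length at least `n`. -/
def lo {X : Type} (n : ℕ) (f : U X) : Prop := ∀ w : List X, w.length < n → cf f w = 0

/-- The iterated right bracket `[[..[f, ζ y₁], ..], ζ y_k]` for `w = y₁ … y_k`. -/
def act {X : Type} {g : Type*} [LieRing g] (ζ : X → g) (w : List X) (f : g) : g :=
  w.foldl (fun x y => ⁅x, ζ y⁆) f

/-- A code of a Lie polynomial: a list of `(c, x, w)`, meaning `c [..[x, w₁], ..], w_k]`. -/
abbrev Code (X : Type) := List (ℤ × X × List X)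

/-- The value of a code in a Lie algebra. -/
def val {X : Type} {g : Type*} [LieRing g] (ζ : X → g) (c : Code X) : g :=
  (c.map fun t => t.1 • act ζ t.2.2 (ζ t.2.1)).sum

/-- The weight of a word. -/
def wsum {X : Type} (wt : X → ℕ) (w : List X) : ℕ := (w.map wt).sum

/-- The lexicographic order on words (a prefix is smaller). -/
def lle {X : Type} [LinearOrder X] : List X → List X → Prop
  | [], _ => True
  | _ :: _, [] => False
  | a :: u, b :: v => a < b ∨ (a = b ∧ lle u v)

/-- `kle wt v w`: the word `v` is not larger than the word `w`, where words are compared first by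
weight, then by length, and the lexicographically *smaller* word counts as the larger one. -/
def kle {X : Type} [LinearOrder X] (wt : X → ℕ) (v w : List X) : Prop :=
  wsum wt v < wsum wt w ∨ (wsum wt v = wsum wt w ∧
    (v.length < w.length ∨ (v.length = w.length ∧ lle w v)))

/-- `W` is the leading word of `f`. -/
def IsLead {X : Type} [LinearOrder X] (wt : X → ℕ) (f : U X) (W : List X) : Prop :=
  cf f W ≠ 0 ∧ ∀ w, cf f w ≠ 0 → kle wt w W

/-- `w` is a merge (shuffle) of `u` and `v`. -/
inductive Mg {X : Type} : List X → List X → List X → Prop
  | nil : Mg [] [] []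
  | left {a : X} {u v w : List X} : Mg u v w → Mg (a :: u) v (a :: w)
  | right {a : X} {u v w : List X} : Mg u v w → Mg u (a :: v) (a :: w)

/-- The number of ways in which `w` is a shuffle of `u` and `v`. -/
def sh {X : Type} [DecidableEq X] : List X → List X → List X → ℕ
  | u, v, [] => if u = [] ∧ v = [] then 1 else 0
  | u, v, a :: w => (match u with | [] => 0 | b :: u' => if b = a then sh u' v w else 0) +
      (match v with | [] => 0 | b :: v' => if b = a then sh u v' w else 0)

/-- The weight which counts the letter `t`. -/
def ind {X : Type} [DecidableEq X] (t : X) : X → ℕ := fun x => if x = t then 1 else 0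

/-- The degree of `f` for the weight `wt`. -/
noncomputable def dg {X : Type} (wt : X → ℕ) (f : U X) : ℕ :=
  f.coeff.support.sup fun w => wsum wt (FreeMonoid.toList w)

/-- The word `p₁ ^ N(p₁) p₂ ^ N(p₂) …` for a list of letters `p₁, p₂, …`. -/
def rword {P : Type} (N : P → ℕ) (ps : List P) : List P :=
  ps.flatMap fun p => List.replicate (N p) p

/-- The Lie algebra with generators `X` and one relator `r`. -/
abbrev OneRel {X : Type} (r : L X) := L X ⧸ LieSubmodule.lieSpan ℚ (L X) ({r} : Set (L X))

end Pool.Agent.LA78
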