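import Pool.Agent.LA78.Basic

/-!
# The free Lie algebra over `ℚ` embeds in the free associative algebra

PROOF (Dynkin, Specht, Wever). `R : U X →ₐ[ℚ] End (L X)` extends the adjoint representation, `D` is
the linear map sending the word `x₁ … x_n` to `[x₁, [x₂, … , x_n]]`, `E = D ∘ io` is a derivation
fixing the letters, hence `L X` is the sum of its eigenspaces for `1, 2, 3, …`.
-/

set_option autoImplicit false

namespace Pool.Agent.LA78

variable {X : Type}

/-- the extension of the adjoint representation -/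
noncomputable def adU : U X →ₐ[ℚ] Module.End ℚ (L X) :=
  ulift fun x => LieAlgebra.ad ℚ (L X) (of x)

theorem adU_uof (x : X) : adU (uof x) = LieAlgebra.ad ℚ (L X) (of x) := by
  unfold adU
  rw [ulift_uof]

theorem adU_io (g : L X) : adU (io g) = LieAlgebra.ad ℚ (L X) g := by
  refine L_ind (P := fun g => adU (io g) = LieAlgebra.ad ℚ (L X) g) ?_ ?_ ?_ ?_ ?_ g
  · simp
  · intro x
    rw [io_of, adU_uof]
  · intro f g hf hg
    rw [map_add, map_add, map_add, hf, hg]
  · intro c f hf
    rw [map_smul, map_smul, map_smul, hf]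
  · intro f g hf hg
    rw [io_lie, map_sub, map_mul, map_mul, hf, hg]
    refine LinearMap.ext fun h => ?_
    change ⁅f, ⁅g, h⁆⁆ - ⁅g, ⁅f, h⁆⁆ = ⁅⁅f, g⁆, h⁆
    rw [leibniz_lie f g h]
    abel

/-- the right-normed bracket of a word -/
noncomputable def rn : List X → L X
  | [] => 0
  | [x] => of x
  | x :: y :: w => ⁅of x, rn (y :: w)⁆

theorem rn_cons (x : X) {w : List X} (hw : w ≠ []) : rn (x :: w) = ⁅of x, rn w⁆ := by
  cases w with
  | nil => exact absurd rfl hw
  | cons y w => rfl

theorem rn_append (v : List X) {w : List X} (hw : w ≠ []) : rn (v ++ w) = adU (wd v) (rn w) := by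
  induction v with
  | nil =>
    rw [wd_nil, map_one]
    rfl
  | cons x v ih =>
    rw [List.cons_append, rn_cons x (by simp [hw]), ih, wd_cons, map_mul, adU_uof]
    rfl

/-- the Dynkin map -/
noncomputable def dyn : U X →ₗ[ℚ] L X where
  toFun f := f.coeff.sum fun m c => c • rn (FreeMonoid.toList m)
  map_add' f g := by
    change (f.coeff + g.coeff).sum _ = _
    rw [Finsupp.sum_add_index']
    · intro m; rw [zero_smul]
    · intro m a b; rw [add_smul]
  map_smul' c f := by
    change (c • f.coeff).sum _ = _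
    rw [Finsupp.sum_smul_index']
    · rw [RingHom.id_apply, Finsupp.smul_sum]
      apply Finset.sum_congr rfl
      intro m _
      simp only
      rw [smul_eq_mul, mul_smul]
    · intro m; rw [zero_smul]

theorem dyn_wd (w : List X) : dyn (wd w) = rn w := by
  change (Finsupp.single (FreeMonoid.ofList w) (1 : ℚ)).sum
    (fun m c => c • rn (FreeMonoid.toList m)) = _
  rw [Finsupp.sum_single_index]
  · simp
  · rw [zero_smul]

theorem dyn_mul (p q : U X) (hq : cf q [] = 0) : dyn (p * q) = adU p (dyn q) := by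
  have hw : ∀ v : List X, dyn (wd v * q) = adU (wd v) (dyn q) := by
    intro v
    rw [eq_sum_wd q, Finset.mul_sum, map_sum, map_sum, map_sum]
    apply Finset.sum_congr rfl
    intro w _
    rw [mul_smul_comm, map_smul, map_smul, map_smul, ← wd_append, dyn_wd, dyn_wd]
    by_cases h : FreeMonoid.toList w = []
    · rw [h, hq, zero_smul, zero_smul]
    · rw [rn_append v h]
  refine U_ind (P := fun p => dyn (p * q) = adU p (dyn q)) ?_ ?_ ?_ p
  · simp
  · intro f g hf hg
    rw [add_mul, map_add, hf, hg, map_add]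
    rfl
  · intro c w
    rw [smul_mul_assoc, map_smul, hw, map_smul]
    rfl

/-- the Euler operator -/
noncomputable def eul : Module.End ℚ (L X) := dyn ∘ₗ (io : L X →ₗ⁅ℚ⁆ U X).toLinearMap

theorem eul_apply (f : L X) : eul f = dyn (io f) := rfl

theorem eul_of (x : X) : eul (of x) = of x := by
  rw [eul_apply, io_of, ← wd_single, dyn_wd]
  rfl

theorem eul_lie (f g : L X) : eul ⁅f, g⁆ = ⁅eul f, g⁆ + ⁅f, eul g⁆ := by
  rw [eul_apply, io_lie, map_sub, dyn_mul _ _ (cf_io_nil g), dyn_mul _ _ (cf_io_nil f), adU_io,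
    adU_io, LieAlgebra.ad_apply, LieAlgebra.ad_apply, ← eul_apply, ← eul_apply, sub_eq_add_neg,
    lie_skew, add_comm]

theorem mem_eigen (f : L X) :
    f ∈ ⨆ n : ℕ, Module.End.eigenspace (eul : Module.End ℚ (L X)) (n + 1) := by
  refine L_ind_right (P := fun f => f ∈ ⨆ n : ℕ,
    Module.End.eigenspace (eul : Module.End ℚ (L X)) (n + 1)) ?_ ?_ ?_ ?_ ?_ f
  · exact Submodule.zero_mem _
  · intro x
    refine Submodule.mem_iSup_of_mem 0 ?_
    rw [Module.End.mem_eigenspace_iff, eul_of]
    simp
  · intro f g hf hg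
    exact Submodule.add_mem _ hf hg
  · intro c f hf
    exact Submodule.smul_mem _ c hf
  · intro f x hf
    refine Submodule.iSup_induction (motive := fun f => ⁅f, of x⁆ ∈ ⨆ n : ℕ,
      Module.End.eigenspace (eul : Module.End ℚ (L X)) (n + 1)) _ hf ?_ ?_ ?_
    · intro n f hf
      refine Submodule.mem_iSup_of_mem (n + 1) ?_
      rw [Module.End.mem_eigenspace_iff] at hf ⊢
      rw [eul_lie, hf, eul_of, smul_lie]
      push_cast
      rw [add_smul ((n : ℚ) + 1), one_smul]
    · rw [zero_lie]; exact Submodule.zero_mem _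
    · intro f g hf hg
      rw [add_lie]; exact Submodule.add_mem _ hf hg

theorem io_injective {X : Type} : Function.Injective (io : L X → U X) := by
  rw [injective_iff_map_eq_zero]
  intro f hf
  have h0 : f ∈ Module.End.eigenspace (eul : Module.End ℚ (L X)) 0 := by
    rw [Module.End.mem_eigenspace_iff, eul_apply, hf, map_zero, zero_smul]
  have hind := Module.End.eigenspaces_iSupIndep (eul : Module.End ℚ (L X))
  have hd := hind 0
  rw [Submodule.disjoint_def] at hd
  apply hd f h0
  have hle : (⨆ n : ℕ, Module.End.eigenspace (eul : Module.End ℚ (L X)) (n + 1)) ≤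
      ⨆ (j : ℚ) (_ : j ≠ 0), Module.End.eigenspace (eul : Module.End ℚ (L X)) j := by
    refine iSup_le fun n => ?_
    refine le_iSup₂_of_le ((n : ℚ) + 1) ?_ le_rfl
    positivity
  exact hle (mem_eigen f)

end Pool.Agent.LA78
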