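import Pool.Agent.LA78.Eqn

/-!
# A solution of the equation gives a solution of the system

PROOF. For `f : L (Γ ⊕ Bool)` and `u : U Γ` let `ac f u = Σ_w cf u w • act of (up w) f`, linear in
`u` and in `f` (for example `ac f : U Γ →ₗ[ℚ] L _`); `act of (up v) (ac f u) = ac f (u * wd v)`. Let
`S : U Γ →ₗ[ℚ] U Γ`, `S (wd w) = (-1)^|w| • wd w.reverse`; `S (u * v) = S v * S u`, `S (S u) = u`.
`a = of (inr false)`, `b = of (inr true)`.
Let `M` be the set of all `Σ_{y : Γ} ⁅e y, of (inl y)⁆`, `e : Γ → L _` (a subspace). 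
CLAIM: `⁅ac a u, ac b v⁆ - ⁅ac a (u * S v), b⁆ ∈ M` for all `u v`. By linearity for words
`u`, `v`, by induction on `v` from the right: `⁅a ∘ u, (b ∘ v) ∘ y⁆ = ⁅a ∘ u, b ∘ v⁆ ∘ y - ⁅(a ∘ u) ∘ y, b ∘ v⁆`
by the Jacobi identity, the first term is in `M`, and `S (v y) = - y S v`.
Also `⁅ac f u, b⁆ = act of [inr true] (ac f u)`.
Given `P r` put `h_r = ac b (S (P r))`, `k_r = ac a (wd (ga r) * P r)`. The equation `some r`:
`act (up ga.reverse ++ [a]) h_r = ⁅ac b (S (P r) * wd ga.reverse), a⁆ =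
- ⁅a, ac b (S (P r) * wd ga.reverse)⁆ ≡ - ⁅ac a (S (S (P r) * wd ga.reverse)), b⁆ =
- (-1)^|ga| ⁅ac a (wd ga * P r), b⁆` modulo `M`, so the sum of the first two terms of the equation is
in `M`, and the slack unknowns `e_{r,y}` can be chosen (with the opposite sign). The equation
`none`: in the same way
`Σ_r (k_r ∘ (de_r b) + (-1)^|al| h_r ∘ (al reversed a)) ≡
⁅ac a (Σ_r (wd ga * P r * wd de - wd al * P r)), b⁆ = ⁅ac a (wd F - wd I), b⁆ = G_none`
modulo `M`.
-/

set_option autoImplicit false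

namespace Pool.Agent.LA78

namespace EqToSysAux

open MulOpposite

variable {Γ : Type}

/-- The right action of `U Γ` on the Lie algebra. -/
noncomputable def acA : U Γ →ₐ[ℚ] (Module.End ℚ (L (Γ ⊕ Bool)))ᵐᵒᵖ :=
  ulift fun y => op (-(LieAlgebra.ad ℚ (L (Γ ⊕ Bool)) (of (Sum.inl y)) : Module.End ℚ (L (Γ ⊕ Bool))))

/-- The right action of `U Γ` on the Lie algebra, `f ∘ u`. -/
noncomputable def ac (f : L (Γ ⊕ Bool)) (u : U Γ) : L (Γ ⊕ Bool) := (unop (acA u)) f

theorem ac_mul (f : L (Γ ⊕ Bool)) (u v : U Γ) : ac f (u * v) = ac (ac f u) v := by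
  simp [ac, map_mul]

theorem ac_one (f : L (Γ ⊕ Bool)) : ac f 1 = f := by
  simp [ac]

theorem ac_add (f : L (Γ ⊕ Bool)) (u v : U Γ) : ac f (u + v) = ac f u + ac f v := by
  simp [ac]

theorem ac_sub (f : L (Γ ⊕ Bool)) (u v : U Γ) : ac f (u - v) = ac f u - ac f v := by
  simp [ac]

theorem ac_neg (f : L (Γ ⊕ Bool)) (u : U Γ) : ac f (-u) = - ac f u := by
  simp [ac]

theorem ac_zero (f : L (Γ ⊕ Bool)) : ac f (0 : U Γ) = 0 := by
  simp [ac]

theorem ac_smul (f : L (Γ ⊕ Bool)) (c : ℚ) (u : U Γ) : ac f (c • u) = c • ac f u := by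
  simp [ac]

theorem ac_sum {ι : Type*} (f : L (Γ ⊕ Bool)) (s : Finset ι) (u : ι → U Γ) :
    ac f (∑ i ∈ s, u i) = ∑ i ∈ s, ac f (u i) := by
  classical
  induction s using Finset.induction_on with
  | empty => simp [ac_zero]
  | insert a s ha ih => rw [Finset.sum_insert ha, ac_add, ih, Finset.sum_insert ha]

theorem ac_uof (f : L (Γ ⊕ Bool)) (y : Γ) : ac f (uof y) = ⁅f, (of (Sum.inl y) : L (Γ ⊕ Bool))⁆ := by
  rw [ac, acA, ulift_uof]
  simp

theorem ac_wd (f : L (Γ ⊕ Bool)) (w : List Γ) : ac f (wd w) = act of (up w) f := by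
  induction w generalizing f with
  | nil => rw [wd_nil, ac_one]; rfl
  | cons x w ih =>
    rw [wd_cons, ac_mul, ac_uof, ih]
    rfl

/-- The antipode. -/
noncomputable def SA : U Γ →ₐ[ℚ] (U Γ)ᵐᵒᵖ := ulift fun y => op (-(uof y))

/-- The antipode. -/
noncomputable def S (u : U Γ) : U Γ := unop (SA u)

theorem S_mul (u v : U Γ) : S (u * v) = S v * S u := by
  simp [S]

theorem S_one : S (1 : U Γ) = 1 := by
  simp [S]

theorem S_add (u v : U Γ) : S (u + v) = S u + S v := by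
  simp [S]

theorem S_zero : S (0 : U Γ) = 0 := by
  simp [S]

theorem S_smul (c : ℚ) (u : U Γ) : S (c • u) = c • S u := by
  simp [S]

theorem S_neg (u : U Γ) : S (-u) = - S u := by
  simp [S]

theorem S_uof (y : Γ) : S (uof y) = - uof y := by
  rw [S, SA, ulift_uof]
  simp

theorem S_wd (w : List Γ) : S (wd w) = ((-1 : ℤ) ^ w.length) • wd w.reverse := by
  induction w with
  | nil => rw [wd_nil, S_one]; simp [wd_nil]
  | cons x w ih =>
    rw [wd_cons, S_mul, S_uof, ih, List.reverse_cons, wd_append, wd_single, List.length_cons,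
      pow_succ, mul_neg, mul_neg_one, neg_smul, smul_mul_assoc]

theorem S_S (u : U Γ) : S (S u) = u := by
  refine U_ind (P := fun u => S (S u) = u) ?_ ?_ ?_ u
  · rw [S_zero, S_zero]
  · intro f g hf hg
    rw [S_add, S_add, hf, hg]
  · intro c w
    rw [S_smul, S_smul]
    congr 1
    induction w with
    | nil => rw [wd_nil, S_one, S_one]
    | cons x w ih =>
      rw [wd_cons, S_mul, S_mul, ih, S_uof, S_neg, S_uof, neg_neg]

variable [Fintype Γ]

/-- The slack space. -/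
noncomputable def slk : (Γ → L (Γ ⊕ Bool)) →ₗ[ℚ] L (Γ ⊕ Bool) where
  toFun e := ∑ y : Γ, ⁅e y, (of (Sum.inl y) : L (Γ ⊕ Bool))⁆
  map_add' e e' := by
    simp only [Pi.add_apply, add_lie, Finset.sum_add_distrib]
  map_smul' c e := by
    simp only [Pi.smul_apply, smul_lie, Finset.smul_sum, RingHom.id_apply]

/-- The slack space. -/
noncomputable def M (Γ : Type) [Fintype Γ] : Submodule ℚ (L (Γ ⊕ Bool)) := LinearMap.range slk

theorem mem_M (f : L (Γ ⊕ Bool)) (y : Γ) : ⁅f, (of (Sum.inl y) : L (Γ ⊕ Bool))⁆ ∈ M Γ := by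
  classical
  refine ⟨Pi.single y f, ?_⟩
  change ∑ y' : Γ, ⁅(Pi.single y f : Γ → L (Γ ⊕ Bool)) y', (of (Sum.inl y') : L (Γ ⊕ Bool))⁆ = _
  rw [Finset.sum_eq_single y]
  · rw [Pi.single_eq_same]
  · intro y' _ hne
    rw [Pi.single_eq_of_ne hne, zero_lie]
  · intro h
    exact absurd (Finset.mem_univ y) h

theorem claim_wd (f g : L (Γ ⊕ Bool)) (w : List Γ) : ∀ u : U Γ,
    ⁅ac f u, ac g (wd w)⁆ - ⁅ac f (u * S (wd w)), g⁆ ∈ M Γ := by
  induction w using List.reverseRecOn with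
  | nil =>
    intro u
    rw [wd_nil, S_one, mul_one, ac_one, sub_self]
    exact Submodule.zero_mem _
  | append_singleton w y ih =>
    intro u
    have h1 := ih (u * uof y)
    rw [wd_append, wd_single, ac_mul, S_mul, ac_uof]
    have e1 : ac f (u * (S (uof y) * S (wd w))) = - ac f (u * uof y * S (wd w)) := by
      rw [S_uof, neg_mul, mul_neg, ac_neg, mul_assoc]
    have e2 : ⁅ac f u, ⁅ac g (wd w), (of (Sum.inl y) : L (Γ ⊕ Bool))⁆⁆ =
        ⁅⁅ac f u, ac g (wd w)⁆, (of (Sum.inl y) : L (Γ ⊕ Bool))⁆ -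
          ⁅ac f (u * uof y), ac g (wd w)⁆ := by
      rw [ac_mul, ac_uof, leibniz_lie, ← lie_skew (⁅ac f u, (of (Sum.inl y) : L (Γ ⊕ Bool))⁆)]
      abel
    rw [e1, e2, neg_lie]
    have e3 : ⁅⁅ac f u, ac g (wd w)⁆, (of (Sum.inl y) : L (Γ ⊕ Bool))⁆ -
          ⁅ac f (u * uof y), ac g (wd w)⁆ - -⁅ac f (u * uof y * S (wd w)), g⁆ =
        ⁅⁅ac f u, ac g (wd w)⁆, (of (Sum.inl y) : L (Γ ⊕ Bool))⁆ -
        (⁅ac f (u * uof y), ac g (wd w)⁆ - ⁅ac f (u * uof y * S (wd w)), g⁆) := by abel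
    rw [e3]
    exact Submodule.sub_mem _ (mem_M _ _) h1

theorem claim (f g : L (Γ ⊕ Bool)) (u v : U Γ) :
    ⁅ac f u, ac g v⁆ - ⁅ac f (u * S v), g⁆ ∈ M Γ := by
  refine U_ind (P := fun v => ⁅ac f u, ac g v⁆ - ⁅ac f (u * S v), g⁆ ∈ M Γ) ?_ ?_ ?_ v
  · rw [S_zero, mul_zero, ac_zero, ac_zero, lie_zero, zero_lie, sub_zero]
    exact Submodule.zero_mem _
  · intro v w hv hw
    have e : ⁅ac f u, ac g (v + w)⁆ - ⁅ac f (u * S (v + w)), g⁆ =
      (⁅ac f u, ac g v⁆ - ⁅ac f (u * S v), g⁆) + (⁅ac f u, ac g w⁆ - ⁅ac f (u * S w), g⁆) := by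
      rw [S_add, mul_add, ac_add, ac_add, lie_add, add_lie]
      abel
    rw [e]
    exact Submodule.add_mem _ hv hw
  · intro c w
    have e : ⁅ac f u, ac g (c • wd w)⁆ - ⁅ac f (u * S (c • wd w)), g⁆ =
      c • (⁅ac f u, ac g (wd w)⁆ - ⁅ac f (u * S (wd w)), g⁆) := by
      rw [S_smul, mul_smul_comm, ac_smul, ac_smul, lie_smul, smul_lie, smul_sub]
    rw [e]
    exact Submodule.smul_mem _ _ (claim_wd f g w u)

/-- The terms of the unknowns `h`. -/
theorem h_term (f g : L (Γ ⊕ Bool)) (Q : U Γ) (w : List Γ) :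
    ((-1 : ℤ) ^ w.length) • ⁅ac g (S Q * wd w.reverse), f⁆ + ⁅ac f (wd w * Q), g⁆ ∈ M Γ := by
  have h1 := claim f g 1 (S (wd w * Q))
  rw [S_S, one_mul, ac_one] at h1
  have e1 : ((-1 : ℤ) ^ w.length) • ⁅ac g (S Q * wd w.reverse), f⁆ = - ⁅f, ac g (S (wd w * Q))⁆ := by
    rw [S_mul, S_wd, lie_skew, mul_smul_comm]
    rw [show ac g (((-1 : ℤ) ^ w.length) • (S Q * wd w.reverse)) =
      ((-1 : ℤ) ^ w.length) • ac g (S Q * wd w.reverse) by
        rcases neg_one_pow_eq_or ℤ w.length with h | h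
        · rw [h, one_smul, one_smul]
        · rw [h, neg_smul, neg_smul, one_smul, one_smul, ac_neg]]
    rw [zsmul_lie]
  have e2 : ((-1 : ℤ) ^ w.length) • ⁅ac g (S Q * wd w.reverse), f⁆ + ⁅ac f (wd w * Q), g⁆ =
      - (⁅f, ac g (S (wd w * Q))⁆ - ⁅ac f (wd w * Q), g⁆) := by
    rw [e1]
    abel
  rw [e2]
  exact Submodule.neg_mem _ h1

end EqToSysAux

open EqToSysAux

theorem solv_of_eqS {Γ ρ : Type} [Fintype Γ] [Fintype ρ] (R : Rules Γ ρ) (F I : List Γ)
    (h : EqS R F I) : Solv (Aof R) (Gf F I) := by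
  classical
  obtain ⟨P, hP⟩ := h
  set a : L (Γ ⊕ Bool) := of (Sum.inr false) with ha
  set b : L (Γ ⊕ Bool) := of (Sum.inr true) with hb
  let hh : ρ → L (Γ ⊕ Bool) := fun r => ac b (S (P r))
  let kk : ρ → L (Γ ⊕ Bool) := fun r => ac a (wd (R.ga r) * P r)
  let T : Option ρ → L (Γ ⊕ Bool) := fun c =>
    ∑ r, actL of (Aof R (Sum.inl (Sum.inl r)) c) (hh r) +
    ∑ r, actL of (Aof R (Sum.inl (Sum.inr r)) c) (kk r) - val of (Gf F I c)
  have hsome : ∀ r, T (some r) ∈ M Γ := by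
    intro r
    have e1 : ∑ r', actL of (Aof R (Sum.inl (Sum.inl r')) (some r)) (hh r') =
        ((-1 : ℤ) ^ (R.ga r).length) • ⁅ac b (S (P r) * wd (R.ga r).reverse), a⁆ := by
      rw [Finset.sum_eq_single r]
      · simp only [Aof, if_true, actL_cons, actL_nil, add_zero]
        rw [act_append, ← ac_wd, ac_mul]
        rfl
      · intro r' _ hne
        simp only [Aof, if_neg hne, actL_nil]
      · intro h
        exact absurd (Finset.mem_univ r) h
    have e2 : ∑ r', actL of (Aof R (Sum.inl (Sum.inr r')) (some r)) (kk r') =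
        ⁅ac a (wd (R.ga r) * P r), b⁆ := by
      rw [Finset.sum_eq_single r]
      · simp only [Aof, if_true, actL_cons, actL_nil, add_zero, one_smul]
        rfl
      · intro r' _ hne
        simp only [Aof, if_neg hne, actL_nil]
      · intro h
        exact absurd (Finset.mem_univ r) h
    change _ + _ - _ ∈ M Γ
    rw [e1, e2]
    simp only [Gf, val_nil, sub_zero]
    exact h_term a b (P r) (R.ga r)
  have hnone : T none ∈ M Γ := by
    have e1 : ∀ r, actL of (Aof R (Sum.inl (Sum.inl r)) none) (hh r) =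
        ((-1 : ℤ) ^ (R.al r).length) • ⁅ac b (S (P r) * wd (R.al r).reverse), a⁆ := by
      intro r
      simp only [Aof, actL_cons, actL_nil, add_zero]
      rw [act_append, ← ac_wd, ac_mul]
      rfl
    have e2 : ∀ r, actL of (Aof R (Sum.inl (Sum.inr r)) none) (kk r) =
        ⁅ac a (wd (R.ga r) * P r * wd (R.de r)), b⁆ := by
      intro r
      simp only [Aof, actL_cons, actL_nil, add_zero, one_smul]
      rw [act_append, ← ac_wd, ac_mul a _ (wd (R.de r))]
      rfl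
    have e3 : val of (Gf (Γ := Γ) (ρ := ρ) F I none) = ⁅ac a (wd F - wd I), b⁆ := by
      simp only [Gf, val_cons, val_nil, add_zero, one_smul, neg_smul]
      rw [act_append, act_append, ← ac_wd, ← ac_wd, ac_sub, sub_lie, sub_eq_add_neg]
      rfl
    have e4 : T none = ∑ r, (((-1 : ℤ) ^ (R.al r).length) •
        ⁅ac b (S (P r) * wd (R.al r).reverse), a⁆ + ⁅ac a (wd (R.al r) * P r), b⁆) := by
      change _ + _ - _ = _
      rw [Finset.sum_congr rfl fun r _ => e1 r, Finset.sum_congr rfl fun r _ => e2 r, e3, ← hP,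
        ac_sum, Finset.sum_add_distrib, sum_lie]
      simp only [ac_sub, sub_lie, Finset.sum_sub_distrib]
      abel
    rw [e4]
    exact Submodule.sum_mem _ fun r _ => h_term a b (P r) (R.al r)
  have hT : ∀ c, - T c ∈ M Γ := by
    intro c
    cases c with
    | none => exact Submodule.neg_mem _ hnone
    | some r => exact Submodule.neg_mem _ (hsome r)
  choose e he using hT
  refine ⟨fun j => match j with
    | Sum.inl (Sum.inl r) => hh r
    | Sum.inl (Sum.inr r) => kk r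
    | Sum.inr (c, y) => e c y, ?_⟩
  intro c
  rw [Fintype.sum_sum_type, Fintype.sum_sum_type, Fintype.sum_prod_type]
  have e5 : ∑ x : Option ρ, ∑ y : Γ, actL of (Aof R (Sum.inr (x, y)) c) (e x y) = - T c := by
    rw [Finset.sum_eq_single c]
    · rw [← he c]
      change _ = ∑ y : Γ, ⁅e c y, (of (Sum.inl y) : L (Γ ⊕ Bool))⁆
      refine Finset.sum_congr rfl fun y _ => ?_
      simp only [Aof, if_true, actL_cons, actL_nil, add_zero, one_smul]
      rfl
    · intro x _ hne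
      refine Finset.sum_eq_zero fun y _ => ?_
      simp only [Aof, if_neg hne, actL_nil]
    · intro h
      exact absurd (Finset.mem_univ c) h
  change ∑ r, actL of (Aof R (Sum.inl (Sum.inl r)) c) (hh r) +
    ∑ r, actL of (Aof R (Sum.inl (Sum.inr r)) c) (kk r) +
    ∑ x : Option ρ, ∑ y : Γ, actL of (Aof R (Sum.inr (x, y)) c) (e x y) = _
  rw [e5]
  change _ + _ + - (_ + _ - _) = _
  abel

end Pool.Agent.LA78
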