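import Pool.Agent.LA78.Rel

/-!
# Two-ended rewriting rules and the system which encodes them: definitions

A rule `r` rewrites a word `al r ++ x` to `ga r ++ x ++ de r`.
The letters of the system are `Γ ⊕ Bool` with `a = inr false`, `b = inr true`. Unknowns:
`h_r = inl (inl r)`, `k_r = inl (inr r)`, slack `e_{c,y} = inr (c, y)`. Equations: `some r`:
`k_r ∘ b + (-1)^|ga| h_r ∘ (ga reversed) a + Σ_y e_{r,y} ∘ y = 0`; `none`:
`Σ_r (k_r ∘ (de_r b) + (-1)^|al| h_r ∘ (al reversed) a) + Σ_y e_{0,y} ∘ y = a ∘ (F b) - a ∘ (I b)`.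
-/

set_option autoImplicit false

namespace Pool.Agent.LA78

/-- Rules `al ++ x → ga ++ x ++ de`. -/
structure Rules (Γ ρ : Type) where
  al : ρ → List Γ
  ga : ρ → List Γ
  de : ρ → List Γ

/-- One rewriting step. -/
def Stp {Γ ρ : Type} (R : Rules Γ ρ) (v w : List Γ) : Prop :=
  ∃ (r : ρ) (x : List Γ), v = R.al r ++ x ∧ w = R.ga r ++ x ++ R.de r

/-- The equation `Σ_r (ga_r P_r de_r - al_r P_r) = F - I` in the free associative algebra. -/
def EqS {Γ ρ : Type} [Fintype ρ] (R : Rules Γ ρ) (F I : List Γ) : Prop :=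
  ∃ P : ρ → U Γ, ∑ r, (wd (R.ga r) * P r * wd (R.de r) - wd (R.al r) * P r) = wd F - wd I

/-- A word of letters of `Γ` in the alphabet `Γ ⊕ Bool`. -/
def up {Γ : Type} (w : List Γ) : List (Γ ⊕ Bool) := w.map Sum.inl

open Classical in
/-- The coefficients of the system. -/
noncomputable def Aof {Γ ρ : Type} (R : Rules Γ ρ) :
    (ρ ⊕ ρ) ⊕ (Option ρ × Γ) → Option ρ → List (ℤ × List (Γ ⊕ Bool))
  | Sum.inl (Sum.inl r), some r' =>
      if r = r' then [((-1) ^ (R.ga r).length, up (R.ga r).reverse ++ [Sum.inr false])] else []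
  | Sum.inl (Sum.inl r), none =>
      [((-1) ^ (R.al r).length, up (R.al r).reverse ++ [Sum.inr false])]
  | Sum.inl (Sum.inr r), some r' => if r = r' then [(1, [Sum.inr true])] else []
  | Sum.inl (Sum.inr r), none => [(1, up (R.de r) ++ [Sum.inr true])]
  | Sum.inr (c, y), c' => if c = c' then [(1, [Sum.inl y])] else []

/-- The right-hand sides of the system. -/
def Gf {Γ ρ : Type} (F I : List Γ) : Option ρ → Code (Γ ⊕ Bool)
  | none => [(1, Sum.inr false, up F ++ [Sum.inr true]),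
      (-1, Sum.inr false, up I ++ [Sum.inr true])]
  | some _ => []

end Pool.Agent.LA78
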