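import Pool.Agent.LA78.Rel
import Pool.Agent.LA78.Comm

/-!
# From the pinned automorphism to a solution of the system

PROOF of `extract`. Fix `c : C`. Let `κ_c : L ((Z ⊕ C) ⊕ J) → L (Option Z)` be the homomorphism
(`llift`) with `z ↦ (l z)⁻¹ • of (some z)`, `d_c ↦ of none`, `d_{c'} ↦ 0` for `c' ≠ c`, `e_j ↦ 0`.
Apply it to `h`. Right side: `κ_c (Wof A) = 0` (`hom_Wof`, `actL_zero`). Left side (`hom_Wof`,
`hom_Gof` for `κ_c.comp Θ`): `κ_c (Θ (zl z)) = of (some z)`, `κ_c (Θ d_{c'}) = 0` for `c' ≠ c`,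
`κ_c (Θ d_c) = l d_c • of none`; so it is `l d_c • ⁅S, of none⁆` with
`S = ∑_j actL (of ∘ some) (A j c) (κ_c (Θ e_j)) + val (of ∘ some) (G c)`. So `⁅S, of none⁆ = 0` and
`S = a • of none` by `comm_prop`. Apply `prj : L (Option Z) → L Z` which kills `none`:
`∑_j actL of (A j c) (prj (κ_c (Θ e_j))) + val of (G c) = 0`. And `prj ∘ κ_c` is the homomorphism
`ε` with `z ↦ (l z)⁻¹ • of z`, `d ↦ 0`, `e_j ↦ 0`, which does not depend on `c`. So
`h_j = - ε (Θ e_j)` solves the system.
-/

set_option autoImplicit false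

namespace Pool.Agent.LA78

/-- The homomorphism to the free algebra on `Z` and one extra letter, which scales the letters `z`,
maps `d_c` to the extra letter and kills all other letters. -/
noncomputable def exK {Z C J : Type} [DecidableEq C] (l : Z ⊕ C → ℚ) (c : C) :
    L ((Z ⊕ C) ⊕ J) →ₗ⁅ℚ⁆ L (Option Z) :=
  llift (Sum.elim (Sum.elim (fun z => (l (Sum.inl z))⁻¹ • of (some z))
    (fun c' => if c' = c then kap else 0)) (fun _ => 0))

/-- The homomorphism to the free algebra on `Z` which scales the letters `z` and kills the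
others. -/
noncomputable def exE {Z C J : Type} (l : Z ⊕ C → ℚ) : L ((Z ⊕ C) ⊕ J) →ₗ⁅ℚ⁆ L Z :=
  llift (Sum.elim (Sum.elim (fun z => (l (Sum.inl z))⁻¹ • of z) (fun _ => 0)) (fun _ => 0))

theorem exK_zl {Z C J : Type} [DecidableEq C] (l : Z ⊕ C → ℚ) (c : C) (z : Z) :
    exK (J := J) l c (zl z) = (l (Sum.inl z))⁻¹ • of (some z) := llift_of _ _

theorem exK_dl {Z C J : Type} [DecidableEq C] (l : Z ⊕ C → ℚ) (c c' : C) :
    exK (J := J) l c (dl c') = if c' = c then kap else 0 := llift_of _ _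

theorem exK_el {Z C J : Type} [DecidableEq C] (l : Z ⊕ C → ℚ) (c : C) (j : J) :
    exK l c (el j) = 0 := llift_of _ _

theorem prj_exK {Z C J : Type} [DecidableEq C] (l : Z ⊕ C → ℚ) (c : C)
    (f : L ((Z ⊕ C) ⊕ J)) : prj (exK l c f) = exE l f := by
  have h : (prj (Y := Z)).comp (exK l c) = exE (J := J) l := by
    apply hom_ext
    rintro ((z | c') | j)
    · simp [exK, exE, LieHom.comp_apply]
    · rw [LieHom.comp_apply, exK, exE, llift_of, llift_of]
      simp only [Sum.elim_inl, Sum.elim_inr]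
      split_ifs
      · exact prj_kap
      · exact map_zero _
    · simp [exK, exE, LieHom.comp_apply]
  exact LieHom.congr_fun h f

theorem extract {Z C J : Type} [Fintype C] [Fintype J] (A : J → C → List (ℤ × List Z))
    (G : C → Code Z) {Θ : L ((Z ⊕ C) ⊕ J) →ₗ⁅ℚ⁆ L ((Z ⊕ C) ⊕ J)} {l : Z ⊕ C → ℚ}
    (hl : ∀ p, l p ≠ 0) {δ : ℚ} (hΘ : ∀ p, Θ (pl p) = l p • pl p)
    (h : Θ (Wof A + Gof G) = δ • Wof A) : Solv A G := by
  classical
  refine ⟨fun j => - exE l (Θ (el j)), fun c => ?_⟩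
  have h1 := congrArg (exK l c) h
  -- the right side vanishes
  have hR : exK l c (δ • (Wof A : L ((Z ⊕ C) ⊕ J))) = 0 := by
    rw [map_smul, hom_Wof]
    have : ∀ c' : C, ⁅∑ j : J, actL (fun z => exK (J := J) l c (zl z)) (A j c')
        (exK l c (el j)), exK (J := J) l c (dl c')⁆ = 0 := by
      intro c'
      simp [exK_el]
    simp [this]
  rw [hR] at h1
  let Φ : L ((Z ⊕ C) ⊕ J) →ₗ⁅ℚ⁆ L (Option Z) := (exK l c).comp Θ
  have h2 : Φ (Wof A + Gof G) = 0 := h1
  have hz : ∀ z : Z, Φ (zl z) = of (some z) := by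
    intro z
    have e : Θ (zl z) = l (Sum.inl z) • zl z := hΘ (Sum.inl z)
    rw [LieHom.comp_apply, e, map_smul, exK_zl, smul_smul, mul_inv_cancel₀ (hl _), one_smul]
  have hd : ∀ c' : C, Φ (dl c') = if c' = c then l (Sum.inr c) • kap else 0 := by
    intro c'
    have e : Θ (dl c') = l (Sum.inr c') • dl c' := hΘ (Sum.inr c')
    rw [LieHom.comp_apply, e, map_smul, exK_dl]
    by_cases hc : c' = c
    · rw [if_pos hc, if_pos hc, hc]
    · rw [if_neg hc, if_neg hc, smul_zero]
  rw [map_add, hom_Wof, hom_Gof, ← Finset.sum_add_distrib, Finset.sum_eq_single c] at h2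
  · rw [← add_lie, hd, if_pos rfl, lie_smul] at h2
    have h3 := (smul_eq_zero.1 h2).resolve_left (hl _)
    have hk : (kap : L (Option Z)) ≠ 0 := by
      intro hk
      have := congrArg (fun f => cf (io f) [none]) hk
      simp only [kap, io_of, map_zero, cf_zero] at this
      rw [cf_uof] at this
      simp at this
    obtain ⟨a, ha⟩ := comm_prop hk h3
    have h4 := congrArg prj ha
    rw [map_smul, prj_kap, smul_zero, map_add, map_sum] at h4
    have h5 : ∀ j : J, prj (actL (fun z => Φ (zl z)) (A j c) (Φ (el j))) =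
        actL of (A j c) (exE l (Θ (el j))) := by
      intro j
      rw [actL_hom]
      congr 1
      · funext z
        rw [hz, prj_of_some]
      · exact prj_exK l c _
    have h6 : prj (val (fun z => Φ (zl z)) (G c)) = val of (G c) := by
      rw [val_hom]
      congr 1
      funext z
      rw [hz, prj_of_some]
    rw [h6, Finset.sum_congr rfl fun j _ => h5 j] at h4
    simp only [actL_neg, Finset.sum_neg_distrib]
    exact (eq_neg_of_add_eq_zero_right h4).symm
  · intro c' _ hc
    rw [hd, if_neg hc, lie_zero, lie_zero, add_zero]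
  · intro hc
    exact absurd (Finset.mem_univ c) hc

/-- PROOF. Apply the homomorphism which kills all `e_j` and fixes the other letters: it maps
`Wof A` to `0` and `Gof G` to itself. -/
theorem V_ne_zero {Z C J : Type} [Fintype C] [Fintype J] (A : J → C → List (ℤ × List Z))
    (G : C → Code Z) (hW : Wof A ≠ 0) : Wof A + Gof G ≠ 0 := by
  intro h
  let K : L ((Z ⊕ C) ⊕ J) →ₗ⁅ℚ⁆ L ((Z ⊕ C) ⊕ J) :=
    llift (Sum.elim (fun p => pl p) (fun _ => 0))
  have hz : ∀ z : Z, K (zl z) = zl z := fun z => llift_of _ _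
  have hd : ∀ c : C, K (dl c) = dl c := fun c => llift_of _ _
  have he : ∀ j : J, K (el j) = 0 := fun j => llift_of _ _
  have h1 : K (Wof A) = 0 := by
    rw [hom_Wof]
    simp [he]
  have h2 : K (Gof G) = Gof G := by
    rw [hom_Gof, Gof]
    simp only [hz, hd]
  have h3 := congrArg K h
  rw [map_add, h1, h2, zero_add, map_zero] at h3
  rw [h3, add_zero] at h
  exact hW h

/-- PROOF. `Wof A` is linear in the letters `e_j`: `dg_lie_le`, `dg_uof`; all letters `z`, `d_c`
have weight zero for `ind (inr j)`, and `of (inr j')` has weight at most one. -/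
theorem dg_Wof_inr {Z C J : Type} [Fintype C] [Fintype J] [DecidableEq Z] [DecidableEq C]
    [DecidableEq J] (A : J → C → List (ℤ × List Z)) (j : J) :
    dg (ind (Sum.inr j)) (io (Wof A)) ≤ 1 := by
  have hsum : ∀ {ι : Type} (s : Finset ι) (f : ι → U ((Z ⊕ C) ⊕ J)),
      (∀ i ∈ s, dg (ind (Sum.inr j)) (f i) ≤ 1) →
      dg (ind (Sum.inr j)) (∑ i ∈ s, f i) ≤ 1 := by
    intro ι s f hf
    refine dg_le _ fun w hw => ?_
    rw [cf_sum] at hw
    obtain ⟨i, hi, hne⟩ := Finset.exists_ne_zero_of_sum_ne_zero hw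
    exact (le_dg _ hne).trans (hf i hi)
  have hact : ∀ (w : List Z) (f : L ((Z ⊕ C) ⊕ J)), dg (ind (Sum.inr j)) (io f) ≤ 1 →
      dg (ind (Sum.inr j)) (io (act zl w f)) ≤ 1 := by
    intro w
    induction w with
    | nil => intro f hf; exact hf
    | cons z w ih =>
      intro f hf
      rw [act_cons]
      apply ih
      refine (dg_lie_le _ _ _).trans ?_
      rw [zl, io_of, dg_uof]
      simpa [ind] using hf
  rw [Wof, map_sum]
  refine hsum _ _ fun c _ => ?_
  refine (dg_lie_le _ _ _).trans ?_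
  rw [dl, io_of, dg_uof]
  have h0 : ind (Sum.inr j : (Z ⊕ C) ⊕ J) (Sum.inl (Sum.inr c)) = 0 := by simp [ind]
  rw [h0, add_zero, map_sum]
  refine hsum _ _ fun j' _ => ?_
  have hel : dg (ind (Sum.inr j)) (io (el j' : L ((Z ⊕ C) ⊕ J))) ≤ 1 := by
    rw [el, io_of, dg_uof, ind]
    split_ifs <;> simp
  induction A j' c with
  | nil =>
    rw [actL_nil, map_zero, dg_zero]
    exact Nat.zero_le _
  | cons t a ih =>
    rw [actL_cons, map_add]
    refine (dg_add_le _ _ _).trans (max_le ?_ ih)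
    rw [← Int.cast_smul_eq_zsmul ℚ, map_smul]
    exact (dg_smul_le _ _ _).trans (hact _ _ hel)

end Pool.Agent.LA78
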