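import Pool.Agent.LA78.Rel

/-!
# A solution of the system gives an isomorphism

PROOF. Let `h` be a solution, `ηh : L Z → L ((Z ⊕ C) ⊕ J)` the map of letters (`llift zl`). Let `F`,
`G` be the endomorphisms of `L (Option ((Z ⊕ C) ⊕ J))` which fix all letters but
`some (inr j) ↦ of (some (inr j)) ± inc (η (h j))`. They are inverse to each other (`F`, `G` fix
the letters `some (inl _)`, hence all `inc (η (h j))`). `F (rr (wel z R (Wof A))) =
rr (wel z R (Wof A + Gof G))`: on the letters coming from `P = Z ⊕ C` and on `κ` it is the identity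
and `F (inc (Wof A)) = inc (Wof A + Gof G)` by linearity in `e_j` and the equations of the system
(`hom_Wof`, `actL_add`, `actL_hom`, `val_hom`). Use `iso_of_maps` (and its inverse).
-/

set_option autoImplicit false

namespace Pool.Agent.LA78

section

variable {Z C J : Type}

theorem actL_smul {g : Type*} [LieRing g] [LieAlgebra ℚ g] (ζ : Z → g)
    (a : List (ℤ × List Z)) (s : ℚ) (f : g) :
    actL ζ a (s • f) = s • actL ζ a f := by
  induction a with
  | nil => simp
  | cons t a ih =>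
    rw [actL_cons, actL_cons, ih, act_smul, smul_add, smul_comm]

/-- The map of letters. -/
noncomputable def fwE : L Z →ₗ⁅ℚ⁆ L ((Z ⊕ C) ⊕ J) := llift zl

@[simp] theorem fwE_of (z : Z) : fwE (C := C) (J := J) (of z) = zl z := llift_of _ _

/-- The values on letters of the change of variables. -/
noncomputable def fwL (h : J → L Z) (s : ℚ) : Option ((Z ⊕ C) ⊕ J) → L (Option ((Z ⊕ C) ⊕ J))
  | none => kap
  | some (Sum.inl p) => inc (pl p)
  | some (Sum.inr j) => inc (el j + s • fwE (h j))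

/-- The change of variables. -/
noncomputable def fwF (h : J → L Z) (s : ℚ) :
    L (Option ((Z ⊕ C) ⊕ J)) →ₗ⁅ℚ⁆ L (Option ((Z ⊕ C) ⊕ J)) := llift (fwL h s)

theorem fwF_kap (h : J → L Z) (s : ℚ) : fwF (C := C) h s kap = kap := llift_of _ _

theorem fwF_pl (h : J → L Z) (s : ℚ) (p : Z ⊕ C) : fwF (C := C) h s (inc (pl p)) = inc (pl p) := by
  rw [pl, inc_of, fwF, llift_of]
  simp [fwL, pl]

theorem fwF_zl (h : J → L Z) (s : ℚ) (z : Z) : fwF (C := C) h s (inc (zl z)) = inc (zl z) :=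
  fwF_pl h s (Sum.inl z)

theorem fwF_dl (h : J → L Z) (s : ℚ) (c : C) : fwF (C := C) h s (inc (dl c)) = inc (dl c) :=
  fwF_pl h s (Sum.inr c)

theorem fwF_el (h : J → L Z) (s : ℚ) (j : J) :
    fwF (C := C) h s (inc (el j)) = inc (el j + s • fwE (h j)) := by
  rw [el, inc_of, fwF, llift_of]
  simp [fwL, el]

theorem fwF_fwE (h : J → L Z) (s : ℚ) (f : L Z) :
    fwF (C := C) h s (inc (fwE f)) = inc (fwE f) := by
  have h1 : ((fwF (C := C) h s).comp inc).comp fwE = (inc).comp fwE := by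
    apply hom_ext
    intro z
    simp only [LieHom.comp_apply, fwE_of, fwF_zl]
  exact LieHom.congr_fun h1 f

theorem fwF_inv (h : J → L Z) (s t : ℚ) (hst : s + t = 0) (x : Option ((Z ⊕ C) ⊕ J)) :
    fwF h s (fwF h t (of x)) = of x := by
  have h0 : fwF h t (of x) = fwL h t x := llift_of _ _
  rw [h0]
  match x with
  | none => exact fwF_kap h s
  | some (Sum.inl p) =>
    change fwF h s (inc (pl p)) = _
    rw [fwF_pl, pl, inc_of]
  | some (Sum.inr j) =>
    change fwF h s (inc (el j + t • fwE (h j))) = _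
    rw [map_add, map_add, map_smul, map_smul, fwF_el, fwF_fwE, map_add, map_smul, add_assoc,
      ← add_smul, hst, zero_smul, add_zero, el, inc_of]

theorem fwF_Wof [Fintype C] [Fintype J] (A : J → C → List (ℤ × List Z))
    (G : C → Code Z) (h : J → L Z) (hh : ∀ c, ∑ j, actL of (A j c) (h j) = val of (G c)) (s : ℚ) :
    fwF h s (inc (Wof A)) = inc (Wof A + s • Gof G) := by
  have h1 : fwF h s (inc (Wof A)) = ((fwF (C := C) h s).comp inc) (Wof A) := rfl
  rw [h1, hom_Wof, map_add, map_smul, Wof, Gof, map_sum, map_sum, Finset.smul_sum,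
    ← Finset.sum_add_distrib]
  refine Finset.sum_congr rfl fun c _ => ?_
  simp only [LieHom.comp_apply, fwF_zl, fwF_el, fwF_dl]
  rw [LieHom.map_lie, LieHom.map_lie, ← smul_lie, ← add_lie]
  congr 1
  have h2 : ∀ j : J, actL (fun z : Z => (inc (zl z : L ((Z ⊕ C) ⊕ J)))) (A j c)
      (inc (el j + s • fwE (h j))) =
      inc (actL (zl : Z → L ((Z ⊕ C) ⊕ J)) (A j c) (el j)) +
        s • (inc.comp fwE) (actL of (A j c) (h j)) := by
    intro j
    rw [map_add, actL_add, map_smul, actL_smul, actL_hom, actL_hom]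
    simp only [LieHom.comp_apply, fwE_of]
  have h3 : ∑ j, (inc.comp (fwE (C := C) (J := J))) (actL of (A j c) (h j)) =
      inc (val (zl : Z → L ((Z ⊕ C) ⊕ J)) (G c)) := by
    rw [← map_sum, hh c, val_hom, val_hom]
    simp only [LieHom.comp_apply, fwE_of]
  rw [Finset.sum_congr rfl fun j _ => h2 j, Finset.sum_add_distrib, map_sum, ← Finset.smul_sum,
    h3]

theorem fwF_Gof [Fintype C] (G : C → Code Z) (h : J → L Z) (s : ℚ) :
    fwF h s (inc (Gof G : L ((Z ⊕ C) ⊕ J))) = inc (Gof G) := by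
  have h1 : fwF h s (inc (Gof G : L ((Z ⊕ C) ⊕ J))) = ((fwF (C := C) h s).comp inc) (Gof G) := rfl
  rw [h1, hom_Gof, Gof, map_sum]
  refine Finset.sum_congr rfl fun c _ => ?_
  simp only [LieHom.comp_apply, fwF_zl, fwF_dl]
  rw [LieHom.map_lie, val_hom]

theorem fwF_rr (h : J → L Z) (s : ℚ) (z : Fin 4 → Z ⊕ C) (R : List (Z ⊕ C))
    (V V' : L ((Z ⊕ C) ⊕ J)) (hV : fwF h s (inc V) = inc V') :
    fwF h s (rr (wel z R V)) = rr (wel z R V') := by
  rw [rr, rr, LieHom.map_lie, fwF_kap]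
  congr 1
  rw [wel, wel, map_add, map_add, map_add]
  congr 1
  · rw [tt]
    simp only [map_add, LieHom.map_lie, fwF_pl]
  · rw [act_hom, act_hom, act_hom, hV]
    simp only [fwF_pl]

end

theorem forward {Z C J : Type} [Fintype C] [Fintype J] (A : J → C → List (ℤ × List Z))
    (G : C → Code Z) (hS : Solv A G) (z : Fin 4 → Z ⊕ C) (R : List (Z ⊕ C)) :
    Nonempty (OneRel (rr (wel z R (Wof A + Gof G : L ((Z ⊕ C) ⊕ J)))) ≃ₗ⁅ℚ⁆
      OneRel (rr (wel z R (Wof A : L ((Z ⊕ C) ⊕ J))))) := by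
  obtain ⟨h, hh⟩ := hS
  have h1 : fwF h 1 (inc (Wof A)) = inc (Wof A + Gof G) := by
    rw [fwF_Wof A G h hh, one_smul]
  have h2 : fwF h (-1) (inc (Wof A + Gof G)) = inc (Wof A) := by
    rw [map_add, map_add, fwF_Wof A G h hh, fwF_Gof, map_add, map_smul]
    simp
  obtain ⟨φ, _⟩ := iso_of_maps (r := rr (wel z R (Wof A + Gof G : L ((Z ⊕ C) ⊕ J))))
    (s := rr (wel z R (Wof A : L ((Z ⊕ C) ⊕ J)))) (fwF h (-1)) (fwF h 1)
    (fwF_inv h (-1) 1 (by norm_num)) (fwF_inv h 1 (-1) (by norm_num))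
    (by rw [fwF_rr h (-1) z R _ _ h2]; exact qm_self _)
    (by rw [fwF_rr h 1 z R _ _ h1]; exact qm_self _)
  exact ⟨φ⟩

end Pool.Agent.LA78
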