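import Pool.Agent.LA78.Quo

/-!
# A surjection onto a free algebra of rank one less does not kill `[z₁,z₂] + [z₃,z₄] + …`

PROOF of `rank_lemma`. Let `m : Option Y → Y → ℚ` be the matrix, `ℓ x = m x` its rows; hypothesis
`hsurj` says that the linear map `c ↦ Σ_x c x • m x` from `Option Y → ℚ` to `Y → ℚ` is onto, so its
kernel has dimension `card (Option Y) - card Y = 1`. By `h`, for each `y₁` the vector with
coordinates `-m b y₁` at `a`, `m a y₁` at `b`, `-m d y₁` at `c`, `m c y₁` at `d` (and `0` elsewhere)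
is in the kernel (it gives `m a y₁ m b y₂ - m b y₁ m a y₂ + m c y₁ m d y₂ - m d y₁ m c y₂ = 0` for
all `y₂`). As the kernel is one-dimensional all these vectors are multiples of one vector, so there
are `t : Fin 4 → ℚ` and `s : Y → ℚ` with `m a y = s y * t 0`, …, `m d y = s y * t 3`. Then among
`t 1 e_a - t 0 e_b`, `t 2 e_a - t 0 e_c`, `t 3 e_a - t 0 e_d`, `t 2 e_b - t 1 e_c`, … (all in the
kernel), or, if `t = 0`, among `e_a`, `e_b`, there are two linearly independent ones. Contradiction.

PROOF of `no_kill`. Suppose `θ (inc w) = 0`, `w = ⁅z 0, z 1⁆ + ⁅z 2, z 3⁆ + w₃`. Let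
`m x y = cf (io (θ (of x))) [y]`. Surjectivity of `θ` and `cf_hom_single` give `hsurj`. The
coefficient of `io (θ (inc w)) = 0` at the word `[y₁, y₂]`: `w₃` contributes `0` (`lo_hom`, `lo 3`),
and `io ⁅θ z₀, θ z₁⁆ = io (θ z₀) * io (θ z₁) - …` contributes
`m z₀ y₁ * m z₁ y₂ - m z₁ y₁ * m z₀ y₂` (`cf_mul`, constant terms are zero). Apply `rank_lemma`.
-/

set_option autoImplicit false

namespace Pool.Agent.LA78

theorem rank_lemma {Y : Type} [Fintype Y] (m : Option Y → Y → ℚ)
    (hsurj : ∀ t : Y → ℚ, ∃ c : Option Y → ℚ, ∀ y, ∑ x, c x * m x y = t y)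
    (z : Fin 4 → Option Y) (hz : Function.Injective z)
    (h : ∀ y₁ y₂, m (z 0) y₁ * m (z 1) y₂ - m (z 1) y₁ * m (z 0) y₂ +
      (m (z 2) y₁ * m (z 3) y₂ - m (z 3) y₁ * m (z 2) y₂) = 0) : False := by
  classical
  let T : (Option Y → ℚ) →ₗ[ℚ] (Y → ℚ) :=
    { toFun := fun c y => ∑ x, c x * m x y
      map_add' := by
        intro c d
        funext y
        simp only [Pi.add_apply, add_mul, Finset.sum_add_distrib]
      map_smul' := by
        intro c d
        funext y
        simp only [Pi.smul_apply, smul_eq_mul, RingHom.id_apply, Finset.mul_sum, mul_assoc] }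
  have hT : Function.Surjective T := fun t => by
    obtain ⟨c, hc⟩ := hsurj t
    exact ⟨c, funext hc⟩
  have hrk := LinearMap.finrank_range_add_finrank_ker T
  rw [LinearMap.range_eq_top.2 hT, finrank_top, Module.finrank_fintype_fun_eq_card,
    Module.finrank_fintype_fun_eq_card, Fintype.card_option] at hrk
  have h1 : Module.finrank ℚ (LinearMap.ker T) = 1 := by omega
  obtain ⟨⟨k, hk⟩, hk0, hall⟩ := finrank_eq_one_iff'.1 h1
  have hmul : ∀ v : Option Y → ℚ, (∀ y, ∑ x, v x * m x y = 0) → ∃ c : ℚ, ∀ x, v x = c * k x := by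
    intro v hv
    obtain ⟨c, hc⟩ := hall ⟨v, LinearMap.mem_ker.2 (funext hv)⟩
    refine ⟨c, fun x => ?_⟩
    have h2 : c • k = v := congrArg Subtype.val hc
    rw [← h2, Pi.smul_apply, smul_eq_mul]
  have n01 : z 0 ≠ z 1 := fun e => absurd (hz e) (by decide)
  have n02 : z 0 ≠ z 2 := fun e => absurd (hz e) (by decide)
  have n03 : z 0 ≠ z 3 := fun e => absurd (hz e) (by decide)
  have n12 : z 1 ≠ z 2 := fun e => absurd (hz e) (by decide)
  have n13 : z 1 ≠ z 3 := fun e => absurd (hz e) (by decide)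
  have n23 : z 2 ≠ z 3 := fun e => absurd (hz e) (by decide)
  generalize z 0 = a at *
  generalize z 1 = b at *
  generalize z 2 = c at *
  generalize z 3 = d at *
  -- the vectors in the kernel
  have hv : ∀ y₁, ∃ t : ℚ, m a y₁ = t * k b ∧ -m b y₁ = t * k a ∧ m c y₁ = t * k d ∧
      -m d y₁ = t * k c := by
    intro y₁
    obtain ⟨t, ht⟩ := hmul (fun x => (if x = a then -m b y₁ else 0) + (if x = b then m a y₁ else 0)
      + (if x = c then -m d y₁ else 0) + (if x = d then m c y₁ else 0)) (by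
        intro y₂
        simp only [add_mul, ite_mul, zero_mul, Finset.sum_add_distrib, Finset.sum_ite_eq',
          Finset.mem_univ, if_true]
        linarith [h y₁ y₂])
    refine ⟨t, ?_, ?_, ?_, ?_⟩
    · have := ht b
      simpa [n01.symm, n12, n13] using this
    · have := ht a
      simpa [n01, n02, n03] using this
    · have := ht d
      simpa [n03.symm, n13.symm, n23.symm] using this
    · have := ht c
      simpa [n02.symm, n12.symm, n23] using this
  choose s sa sb sc sd using hv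
  have two : ∀ (x y : Option Y) (p q : ℚ), x ≠ y → (∀ w, p * m x w + q * m y w = 0) →
      ∃ t : ℚ, p = t * k x ∧ q = t * k y ∧ ∀ w, w ≠ x → w ≠ y → t * k w = 0 := by
    intro x y p q hxy hw
    obtain ⟨t, ht⟩ := hmul (fun w => (if w = x then p else 0) + (if w = y then q else 0)) (by
      intro w
      simp only [add_mul, ite_mul, zero_mul, Finset.sum_add_distrib, Finset.sum_ite_eq',
          Finset.mem_univ, if_true]
      exact hw w)
    refine ⟨t, ?_, ?_, ?_⟩
    · have := ht x
      simpa [hxy] using this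
    · have := ht y
      simpa [hxy.symm] using this
    · intro w h1 h2
      have := ht w
      simpa [h1, h2] using this.symm
  have ka : k a = 0 := by
    obtain ⟨t, h1, h2, h3⟩ := two b c (k d) (k a) n12 (by
      intro w; linear_combination (-k d) * sb w + k a * sc w)
    rcases mul_eq_zero.1 (h3 a n01 n02) with h4 | h4
    · rw [h2, h4, zero_mul]
    · exact h4
  have kb : k b = 0 := by
    obtain ⟨t, h1, h2, h3⟩ := two a c (k d) (-k b) n02 (by
      intro w; linear_combination (k d) * sa w - k b * sc w)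
    rcases mul_eq_zero.1 (h3 b n01.symm n12) with h4 | h4
    · rw [h4, zero_mul] at h2; linarith
    · exact h4
  have kd : k d = 0 := by
    obtain ⟨t, h1, h2, h3⟩ := two a c (k d) (-k b) n02 (by
      intro w; linear_combination (k d) * sa w - k b * sc w)
    rcases mul_eq_zero.1 (h3 d n03.symm n23.symm) with h4 | h4
    · rw [h1, h4, zero_mul]
    · exact h4
  have ma : ∀ w, m a w = 0 := fun w => by rw [sa w, kb, mul_zero]
  obtain ⟨t, h1, -, -⟩ := two a b 1 0 n01 (by intro w; rw [ma w]; ring)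
  rw [ka, mul_zero] at h1
  exact one_ne_zero h1

/-- The coefficient of a bracket at a word of length two. -/
theorem cf_lie_pair {Y : Type} (f g : L Y) (y₁ y₂ : Y) :
    cf (io ⁅f, g⁆) [y₁, y₂] = cf (io f) [y₁] * cf (io g) [y₂] - cf (io g) [y₁] * cf (io f) [y₂] := by
  rw [io_lie, cf_sub, cf_mul, cf_mul]
  simp [Finset.sum_range_succ, cf_io_nil]

theorem no_kill {Y : Type} [Fintype Y] (θ : L (Option Y) →ₗ⁅ℚ⁆ L Y)
    (hθ : Function.Surjective θ) (z : Fin 4 → Y) (hz : Function.Injective z) (w₃ : L Y)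
    (h3 : lo 3 (io w₃)) :
    θ (inc (⁅of (z 0), of (z 1)⁆ + ⁅of (z 2), of (z 3)⁆ + w₃)) ≠ 0 := by
  intro h
  refine rank_lemma (fun x y => cf (io (θ (of x))) [y]) ?_ (fun i => some (z i))
    (fun i j hij => hz (Option.some_injective _ hij)) ?_
  · intro t
    classical
    obtain ⟨f, hf⟩ := hθ (∑ y, t y • of y)
    refine ⟨fun x => cf (io f) [x], fun y => ?_⟩
    rw [← cf_hom_single, hf, map_sum, cf_sum]
    simp [cf_uof]
  · intro y₁ y₂
    have h0 : θ (inc (⁅of (z 0), of (z 1)⁆ + ⁅of (z 2), of (z 3)⁆ + w₃)) =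
        ⁅θ (of (some (z 0))), θ (of (some (z 1)))⁆ + ⁅θ (of (some (z 2))), θ (of (some (z 3)))⁆ +
          θ (inc w₃) := by
      simp only [map_add, LieHom.map_lie, inc_of]
    have h1 : cf (io (θ (inc (⁅of (z 0), of (z 1)⁆ + ⁅of (z 2), of (z 3)⁆ + w₃)))) [y₁, y₂] = 0 := by
      rw [h, map_zero, cf_zero]
    rw [h0, map_add, map_add, cf_add, cf_add, cf_lie_pair, cf_lie_pair] at h1
    have h4 : cf (io (θ (inc w₃))) [y₁, y₂] = 0 :=
      lo_hom (θ.comp inc) h3 [y₁, y₂] (by simp)
    rw [h4, add_zero] at h1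
    exact h1

end Pool.Agent.LA78
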