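import Pool.Agent.LA78.Comm

/-!
# Degrees of iterated brackets

PROOF. `rtrick_one`: induction on `n ≥ 1`, invariant: `⁅..⁅f, g⁆..⁆` has a lead `H` with
`dg wt (io f) + (n - 1) * dg wt (io g) ≤ wsum wt H` and `G.length < H.length`, where `G` is the lead
of `g`: start with `first_bracket`, and continue with `lead_bracket` (the leads differ because of
the lengths). Choose a linear order on `X` classically.
`rtrick`: induction on the list `ps`, `act_append`; all intermediate elements are nonzero because
`act` of zero is zero; if `g = 0` then the bracket is zero.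
`act_rword_ne_zero`: an element without linear part is not proportional to a letter; so by
`comm_prop` each bracket with a letter is nonzero; the result again has no linear part.
-/

set_option autoImplicit false

namespace Pool.Agent.LA78

theorem act_replicate_succ {X P : Type} (ζ : P → L X) (p : P) (f : L X) (n : ℕ) :
    act ζ (List.replicate (n + 1) p) f = ⁅act ζ (List.replicate n p) f, ζ p⁆ := by
  rw [List.replicate_succ', act_append]
  rfl

theorem rtrick_lead {X P : Type} [LinearOrder X] (wt : X → ℕ) (ζ : P → L X) (p : P) (f : L X)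
    {G : List X} (hG : IsLead wt (io (ζ p)) G) (n : ℕ)
    (hne : act ζ (List.replicate (n + 1) p) f ≠ 0) :
    ∃ H, IsLead wt (io (act ζ (List.replicate (n + 1) p) f)) H ∧
      dg wt (io f) + n * dg wt (io (ζ p)) ≤ wsum wt H ∧ G.length < H.length := by
  induction n with
  | zero =>
    rw [act_replicate_succ] at hne ⊢
    obtain ⟨H, h1, h2, h3⟩ := first_bracket hne hG
    exact ⟨H, h1, by simpa using h2, h3⟩
  | succ n ih =>
    rw [act_replicate_succ] at hne ⊢
    have h0 : act ζ (List.replicate (n + 1) p) f ≠ 0 := by
      intro h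
      rw [h, zero_lie] at hne
      exact hne rfl
    obtain ⟨H', h1, h2, h3⟩ := ih h0
    have hd : H' ≠ G := by
      rintro rfl
      exact lt_irrefl _ h3
    obtain ⟨H, h4, h5, h6⟩ := lead_bracket h1 hG hd
    refine ⟨H, h4, ?_, ?_⟩
    · rw [h5, ← hG.dg_eq]
      have : (n + 1) * dg wt (io (ζ p)) = n * dg wt (io (ζ p)) + dg wt (io (ζ p)) := by ring
      omega
    · omega

theorem rtrick_one {X P : Type} (wt : X → ℕ) (ζ : P → L X) (p : P) (f : L X) (n : ℕ)
    (hn : 1 ≤ n) (hne : act ζ (List.replicate n p) f ≠ 0) :
    dg wt (io f) + (n - 1) * dg wt (io (ζ p)) ≤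
      dg wt (io (act ζ (List.replicate n p) f)) := by
  classical
  let _ : LinearOrder X := linearOrderOfSTO (WellOrderingRel (α := X))
  obtain ⟨m, rfl⟩ : ∃ m, n = m + 1 := ⟨n - 1, by omega⟩
  have hg : ζ p ≠ 0 := by
    intro h
    rw [act_replicate_succ, h, lie_zero] at hne
    exact hne rfl
  have hg2 : io (ζ p) ≠ 0 := by
    intro h
    exact hg (io_injective (by rw [h, map_zero]))
  obtain ⟨G, hG⟩ := exists_lead wt hg2
  obtain ⟨H, h1, h2, -⟩ := rtrick_lead wt ζ p f hG m hne
  rw [h1.dg_eq, Nat.add_sub_cancel]
  exact h2

theorem rtrick {X P : Type} (wt : X → ℕ) (ζ : P → L X) (N : P → ℕ) (hN : ∀ p, 1 ≤ N p)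
    (ps : List P) (f : L X) (hne : act ζ (rword N ps) f ≠ 0) :
    dg wt (io f) + (ps.map fun p => (N p - 1) * dg wt (io (ζ p))).sum ≤
      dg wt (io (act ζ (rword N ps) f)) := by
  induction ps generalizing f with
  | nil => simp [rword]
  | cons p ps ih =>
    have e : rword N (p :: ps) = List.replicate (N p) p ++ rword N ps := by
      simp [rword]
    rw [e, act_append] at hne ⊢
    have h0 : act ζ (List.replicate (N p) p) f ≠ 0 := by
      intro h
      rw [h, act_zero] at hne
      exact hne rfl
    have h1 := rtrick_one wt ζ p f (N p) (hN p) h0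
    have h2 := ih _ hne
    rw [List.map_cons, List.sum_cons]
    omega

theorem of_ne_zero {X : Type} (x : X) : (of x : L X) ≠ 0 := by
  classical
  intro h
  have h1 : cf (io (of x)) [x] = 1 := by rw [io_of, cf_uof]; simp
  rw [h, map_zero, cf_zero] at h1
  exact zero_ne_one h1

theorem act_letters_ne_zero {X : Type} (w : List X) (f : L X) (hf : f ≠ 0)
    (h2 : lo 2 (io f)) : act of w f ≠ 0 := by
  classical
  induction w generalizing f with
  | nil => exact hf
  | cons x w ih =>
    rw [act_cons]
    apply ih
    · intro h
      obtain ⟨c, hc⟩ := comm_prop (of_ne_zero x) h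
      have h3 := h2 [x] (by simp)
      rw [hc, map_smul, cf_smul, io_of, cf_uof] at h3
      have h4 : c = 0 := by simpa using h3
      rw [h4, zero_smul] at hc
      exact hf hc
    · exact lo_mono (by omega) (lo_lie h2 (lo_io (of x)))

theorem lo_act {X : Type} (w : List X) (f : L X) {n : ℕ} (h : lo n (io f)) :
    lo (n + w.length) (io (act of w f)) := by
  induction w generalizing f n with
  | nil => exact h
  | cons x w ih =>
    rw [act_cons, List.length_cons]
    have := ih _ (lo_lie h (lo_io (of x)))
    exact lo_mono (by omega) this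

end Pool.Agent.LA78
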