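import Pool.Agent.LA78.Rel
import Pool.Agent.LA78.RTrick

/-!
# Degrees of the images of the pinned letters

PROOF of `pin_deg`. Let `ζ p = Θ (pl p)`, `m p = dg wt (io (ζ p))`, `R` the word. By `act_hom`
`act ζ R (Θ V) = Θ (act pl R V) = δ • wel z R W - ⁅ζ z₀, ζ z₁⁆ - ⁅ζ z₂, ζ z₃⁆`, and it is nonzero
by injectivity and `act_letters_ne_zero` (`act pl R V = act of (R.map Sum.inl) V`, `act_map`). By
`rtrick` (`ps = Finset.univ.toList`, the sum over the list is the sum over `univ`),
`∑ (N p - 1) m p ≤ max (dg wt (io (wel z R W))) (max (m z₀ + m z₁) (m z₂ + m z₃))` (`dg_sub_le`,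
`dg_smul_le`, `dg_lie_le`). If the sum is at most `m z₀ + m z₁`: as `N p - 1 ≥ 2` and `z₀ ≠ z₁`,
the sum is at least `2 (m z₀ + m z₁)`, so it is `0` and all `m p` are `0`. The same for `z₂`, `z₃`.

`dg_act_pl`: `dg_lie_le`, `dg_uof`, induction on the word. `wsum_rword`: the letter `p` occurs
`N p` times in `rword N univ.toList`. `dg_wel_pl`, `dg_wel_inr`: for `tt z` the degree is at most
`2 ≤ N p` (for a letter `inr j` it is `0`).
-/

set_option autoImplicit false

namespace Pool.Agent.LA78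

variable {P J : Type} [Fintype P]

omit [Fintype P] in
theorem wsum_rword (N u : P → ℕ) (ps : List P) :
    wsum u (rword N ps) = (ps.map fun q => N q * u q).sum := by
  induction ps with
  | nil => simp [rword]
  | cons q ps ih =>
    have h : rword N (q :: ps) = List.replicate (N q) q ++ rword N ps := by
      simp [rword]
    rw [h, wsum_append, ih, List.map_cons, List.sum_cons]
    congr 1
    simp [wsum]

omit [Fintype P] in
theorem dg_act_pl (wt : P ⊕ J → ℕ) (R : List P) (W : L (P ⊕ J)) :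
    dg wt (io (act pl R W)) ≤ dg wt (io W) + wsum (fun q => wt (Sum.inl q)) R := by
  classical
  induction R generalizing W with
  | nil => simp
  | cons q R ih =>
    rw [act_cons, wsum_cons]
    refine (ih _).trans ?_
    have h1 := dg_lie_le wt W (pl q : L (P ⊕ J))
    have h2 : dg wt (io (pl q : L (P ⊕ J))) = wt (Sum.inl q) := by
      rw [pl, io_of, dg_uof]
    rw [h2] at h1
    omega

omit [Fintype P] in
theorem dg_tt (wt : P ⊕ J → ℕ) (z : Fin 4 → P) :
    dg wt (io (tt z : L (P ⊕ J))) ≤ max (wt (Sum.inl (z 0)) + wt (Sum.inl (z 1)))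
      (wt (Sum.inl (z 2)) + wt (Sum.inl (z 3))) := by
  classical
  rw [tt, map_add]
  refine (dg_add_le wt _ _).trans (max_le_max ?_ ?_)
  · refine (dg_lie_le wt _ _).trans ?_
    rw [pl, pl, io_of, io_of, dg_uof, dg_uof]
  · refine (dg_lie_le wt _ _).trans ?_
    rw [pl, pl, io_of, io_of, dg_uof, dg_uof]

theorem pin_arith (N m : P → ℕ) (hN : ∀ p, 3 ≤ N p) {a b : P} (hab : a ≠ b)
    (h : ∑ p, (N p - 1) * m p ≤ m a + m b) : ∀ p, m p = 0 := by
  classical
  have h1 : (N a - 1) * m a + (N b - 1) * m b ≤ ∑ p, (N p - 1) * m p := by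
    have h2 : ∑ p ∈ ({a, b} : Finset P), (N p - 1) * m p ≤ ∑ p, (N p - 1) * m p :=
      Finset.sum_le_sum_of_subset (Finset.subset_univ _)
    rwa [Finset.sum_pair hab] at h2
  have h2 : 2 * m a ≤ (N a - 1) * m a := Nat.mul_le_mul_right _ (by have := hN a; omega)
  have h3 : 2 * m b ≤ (N b - 1) * m b := Nat.mul_le_mul_right _ (by have := hN b; omega)
  have h4 : ∑ p, (N p - 1) * m p = 0 := by omega
  intro p
  have h5 := (Finset.sum_eq_zero_iff.1 h4) p (Finset.mem_univ p)
  rcases Nat.mul_eq_zero.1 h5 with h6 | h6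
  · have := hN p; omega
  · exact h6

theorem pin_deg {N : P → ℕ} (hN : ∀ p, 3 ≤ N p) {z : Fin 4 → P} (hz : Function.Injective z)
    {V W : L (P ⊕ J)} (hV : V ≠ 0) (hV2 : lo 2 (io V)) {Θ : L (P ⊕ J) →ₗ⁅ℚ⁆ L (P ⊕ J)}
    (hΘ : Function.Injective Θ) {δ : ℚ}
    (h : Θ (wel z (rword N Finset.univ.toList) V) = δ • wel z (rword N Finset.univ.toList) W)
    (wt : P ⊕ J → ℕ) :
    (∀ p, dg wt (io (Θ (pl p))) = 0) ∨
      ∑ p, (N p - 1) * dg wt (io (Θ (pl p))) ≤
        dg wt (io (wel z (rword N Finset.univ.toList) W)) := by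
  classical
  set R : List P := rword N Finset.univ.toList with hR
  have hz01 : z 0 ≠ z 1 := fun e => by have := hz e; simp at this
  have hz23 : z 2 ≠ z 3 := fun e => by have := hz e; simp at this
  have hact : act (fun p => Θ (pl p)) R (Θ V) = Θ (act pl R V) := (act_hom Θ pl R V).symm
  have hne0 : act (pl : P → L (P ⊕ J)) R V ≠ 0 := by
    have h1 := act_letters_ne_zero (R.map Sum.inl) V hV hV2
    have h2 : act (pl : P → L (P ⊕ J)) R V = act of (R.map Sum.inl) V :=
      (act_map of Sum.inl R V).symm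
    rw [h2]
    exact h1
  have hne : act (fun p => Θ (pl p)) R (Θ V) ≠ 0 := by
    rw [hact]
    intro h0
    exact hne0 (hΘ (by rw [h0, map_zero]))
  have h1 := rtrick wt (fun p => Θ (pl p)) N (fun p => by have := hN p; omega)
    Finset.univ.toList (Θ V) hne
  rw [Finset.sum_map_toList] at h1
  have h2 : act (fun p => Θ (pl p)) R (Θ V) = δ • wel z R W -
      (⁅Θ (pl (z 0)), Θ (pl (z 1))⁆ + ⁅Θ (pl (z 2)), Θ (pl (z 3))⁆) := by
    rw [hact, ← h, wel, map_add, tt, map_add, LieHom.map_lie, LieHom.map_lie]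
    abel
  have h3 : dg wt (io (act (fun p => Θ (pl p)) R (Θ V))) ≤ max (dg wt (io (wel z R W)))
      (max (dg wt (io (Θ (pl (z 0)))) + dg wt (io (Θ (pl (z 1)))))
        (dg wt (io (Θ (pl (z 2)))) + dg wt (io (Θ (pl (z 3)))))) := by
    rw [h2, map_sub, map_smul, map_add]
    refine (dg_sub_le wt _ _).trans (max_le_max (dg_smul_le wt _ _) ?_)
    exact (dg_add_le wt _ _).trans (max_le_max (dg_lie_le wt _ _) (dg_lie_le wt _ _))
  have h4 : ∑ p, (N p - 1) * dg wt (io (Θ (pl p))) ≤ max (dg wt (io (wel z R W)))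
      (max (dg wt (io (Θ (pl (z 0)))) + dg wt (io (Θ (pl (z 1)))))
        (dg wt (io (Θ (pl (z 2)))) + dg wt (io (Θ (pl (z 3)))))) := by
    refine le_trans ?_ h3
    exact le_trans (Nat.le_add_left _ _) h1
  rcases le_max_iff.1 h4 with h5 | h5
  · exact Or.inr h5
  · left
    rcases le_max_iff.1 h5 with h6 | h6
    · exact pin_arith N (fun p => dg wt (io (Θ (pl p)))) hN hz01 h6
    · exact pin_arith N (fun p => dg wt (io (Θ (pl p)))) hN hz23 h6

theorem dg_wel_pl [DecidableEq P] [DecidableEq J] {N : P → ℕ} (hN : ∀ p, 3 ≤ N p)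
    (z : Fin 4 → P) {W : L (P ⊕ J)} {D : ℕ} (p : P)
    (hW : dg (ind (Sum.inl p)) (io W) ≤ D) :
    dg (ind (Sum.inl p)) (io (wel z (rword N Finset.univ.toList) W)) ≤ N p + D := by
  have hi : ∀ x : P ⊕ J, ind (Sum.inl p) x ≤ 1 := by
    intro x; unfold ind; split_ifs <;> simp
  rw [wel, map_add]
  refine (dg_add_le _ _ _).trans (max_le ?_ ?_)
  · refine (dg_tt _ z).trans ?_
    have h0 := hi (Sum.inl (z 0))
    have h1 := hi (Sum.inl (z 1))
    have h2 := hi (Sum.inl (z 2))
    have h3 := hi (Sum.inl (z 3))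
    have h4 := hN p
    refine max_le ?_ ?_ <;> omega
  · refine (dg_act_pl _ _ _).trans ?_
    rw [wsum_rword, Finset.sum_map_toList]
    have h1 : ∑ q, N q * (ind (Sum.inl p : P ⊕ J) (Sum.inl q)) = N p := by
      rw [Finset.sum_eq_single p]
      · simp [ind]
      · intro q _ hq
        have : ¬ (Sum.inl q : P ⊕ J) = Sum.inl p := fun e => hq (Sum.inl_injective e)
        rw [ind, if_neg this, mul_zero]
      · intro hp
        exact absurd (Finset.mem_univ p) hp
    rw [h1]
    omega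

theorem dg_wel_inr [DecidableEq P] [DecidableEq J] (z : Fin 4 → P) (R : List P)
    {W : L (P ⊕ J)} (j : J) (hW : dg (ind (Sum.inr j)) (io W) ≤ 1) :
    dg (ind (Sum.inr j)) (io (wel z R W)) ≤ 1 := by
  have h0 : ∀ q : P, ind (Sum.inr j : P ⊕ J) (Sum.inl q) = 0 := by
    intro q; simp [ind]
  rw [wel, map_add]
  refine (dg_add_le _ _ _).trans (max_le ?_ ?_)
  · refine (dg_tt _ z).trans ?_
    simp [h0]
  · refine (dg_act_pl _ _ _).trans ?_
    have h1 : wsum (fun q => ind (Sum.inr j : P ⊕ J) (Sum.inl q)) R = 0 := by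
      simp [wsum, h0]
    rw [h1, add_zero]
    exact hW

end Pool.Agent.LA78
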