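import Pool.Agent.LA78.Rel
import Pool.Agent.LA78.RTrick

/-!
# The last step of pinning

PROOF of `eq_letter`: a word `w` with `cf (io f) w ≠ 0` is nonempty (`cf_io_nil`), has no letter
`t ≠ x` and at most one letter `x` (`le_dg`); so `w = [x]`. So `io f = c • uof x` (`cf_ext`), and
`io` is injective.

PROOF of `pin_last`. `Θ (act pl R V) = act (fun p => l p • pl p) R (Θ V) = ρ • act pl R (Θ V)`
with `ρ` the product of the `l p` over the word `R` (induction), `ρ ≠ 0`. Compare the
coefficients at the words `[z₀, z₁]` and `[z₂, z₃]` in `h`: `act pl R _` has no words of length 2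
(`lo_act`, `R ≠ []`, `lo_hom`). So `l z₀ * l z₁ = δ = l z₂ * l z₃`, hence `Θ (tt z) = δ • tt z` and
`ρ • act pl R (Θ V) = δ • act pl R W`, `act pl R (ρ • Θ V - δ • W) = 0`. By
`act_letters_ne_zero` (`lo 2`) `ρ • Θ V = δ • W`. Take `δ' = δ / ρ`.
-/

set_option autoImplicit false

namespace Pool.Agent.LA78

theorem eq_letter {X : Type} [DecidableEq X] (f : L X) (x : X)
    (h : ∀ t, dg (ind t) (io f) ≤ if t = x then 1 else 0) : ∃ c : ℚ, f = c • of x := by
  refine ⟨cf (io f) [x], io_injective ?_⟩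
  rw [map_smul, io_of]
  refine cf_ext fun w => ?_
  rw [cf_smul, cf_uof]
  have hc : ∀ (t : X) (w : List X), wsum (ind t) w = w.count t := by
    intro t w
    induction w with
    | nil => simp
    | cons a w ih =>
      rw [wsum_cons, ih, List.count_cons, ind]
      by_cases hat : a = t
      · simp [hat]; omega
      · simp [hat]
  by_cases hw : w = [x]
  · rw [if_pos hw, mul_one, hw]
  · rw [if_neg hw, mul_zero]
    by_contra hne
    apply hw
    have h1 : w ≠ [] := by
      rintro rfl
      exact hne (cf_io_nil f)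
    have h2 : ∀ t, w.count t ≤ if t = x then 1 else 0 := by
      intro t
      rw [← hc t w]
      exact (le_dg (ind t) hne).trans (h t)
    have h3 : ∀ a ∈ w, a = x := by
      intro a ha
      by_contra hax
      have h4 := h2 a
      rw [if_neg hax] at h4
      have h5 := List.count_pos_iff.2 ha
      omega
    have h6 : w = List.replicate w.length x := List.eq_replicate_iff.2 ⟨rfl, h3⟩
    have h7 := h2 x
    rw [if_pos rfl, h6, List.count_replicate_self] at h7
    have h8 : 0 < w.length := List.length_pos_iff.2 h1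
    have h9 : w.length = 1 := by omega
    rw [h6, h9]
    rfl

theorem act_scale {P : Type} {g : Type*} [LieRing g] [LieAlgebra ℚ g] (l : P → ℚ) (ζ : P → g)
    (w : List P) (f : g) :
    act (fun p => l p • ζ p) w f = (w.map l).prod • act ζ w f := by
  induction w generalizing f with
  | nil => simp
  | cons a w ih =>
    rw [act_cons, ih, lie_smul, act_smul, smul_smul, List.map_cons, List.prod_cons, act_cons,
      mul_comm]

theorem pin_last {P J : Type} {z : Fin 4 → P} (hz : Function.Injective z) {R : List P}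
    (hR : R ≠ []) {V W : L (P ⊕ J)} (hV2 : lo 2 (io V)) (hW2 : lo 2 (io W))
    {Θ : L (P ⊕ J) →ₗ⁅ℚ⁆ L (P ⊕ J)} {δ : ℚ} (hδ : δ ≠ 0) {l : P → ℚ} (hl : ∀ p, l p ≠ 0)
    (hΘ : ∀ p, Θ (pl p) = l p • pl p) (h : Θ (wel z R V) = δ • wel z R W) :
    ∃ δ' : ℚ, δ' ≠ 0 ∧ Θ V = δ' • W := by
  classical
  set ρ : ℚ := (R.map l).prod with hρ
  have hρ0 : ρ ≠ 0 := by
    rw [hρ]
    refine List.prod_ne_zero ?_
    simp only [List.mem_map, not_exists, not_and]
    exact fun p _ => hl p
  have hpl : ∀ (R : List P) (f : L (P ⊕ J)), act pl R f = act of (R.map Sum.inl) f := by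
    intro R f
    rw [act_map]
    rfl
  have hlo : ∀ f : L (P ⊕ J), lo 2 (io f) → lo 3 (io (act pl R f)) := by
    intro f hf
    rw [hpl]
    refine lo_mono ?_ (lo_act (R.map Sum.inl) f hf)
    rw [List.length_map]
    have := List.length_pos_iff.2 hR
    omega
  have hΘV2 : lo 2 (io (Θ V)) := lo_hom Θ hV2
  have e1 : Θ (act pl R V) = ρ • act pl R (Θ V) := by
    rw [act_hom, hρ, ← act_scale]
    congr 1
    funext p
    exact hΘ p
  have e2 : Θ (wel z R V) = (l (z 0) * l (z 1)) •
      ⁅(pl (z 0) : L (P ⊕ J)), (pl (z 1) : L (P ⊕ J))⁆ +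
      (l (z 2) * l (z 3)) • ⁅(pl (z 2) : L (P ⊕ J)), (pl (z 3) : L (P ⊕ J))⁆ +
      ρ • act pl R (Θ V) := by
    rw [wel, tt, map_add, map_add, LieHom.map_lie, LieHom.map_lie, e1, hΘ, hΘ, hΘ, hΘ]
    simp only [smul_lie, lie_smul, smul_smul]
    rw [mul_comm (l (z 1)), mul_comm (l (z 3))]
  rw [e2, wel, tt, smul_add, smul_add] at h
  -- coefficients at words of length two
  have hcf : ∀ (a b : P) (x y : P ⊕ J), cf (io ⁅(pl a : L (P ⊕ J)), (pl b : L (P ⊕ J))⁆) [x, y] =
      (if x = Sum.inl a ∧ y = Sum.inl b then 1 else 0) -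
      (if x = Sum.inl b ∧ y = Sum.inl a then 1 else 0) := by
    intro a b x y
    have hu : ∀ (s t : P ⊕ J), cf (uof s * uof t) [x, y] = if x = s ∧ y = t then 1 else 0 := by
      intro s t
      rw [cf_uof_mul_cons, cf_uof]
      by_cases h1 : x = s
      · by_cases h2 : y = t
        · simp [h1, h2]
        · simp [h1, h2]
      · simp [h1]
    rw [io_lie, pl, pl, io_of, io_of, cf_sub, hu, hu]
  have hz3 : ∀ f : L (P ⊕ J), lo 2 (io f) → ∀ x y, cf (io (act pl R f)) [x, y] = 0 := by
    intro f hf x y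
    exact hlo f hf _ (by simp)
  have hne : ∀ i j : Fin 4, i ≠ j → (Sum.inl (z i) : P ⊕ J) ≠ Sum.inl (z j) := by
    intro i j hij hc
    exact hij (hz (Sum.inl_injective hc))
  have h01 := congrArg (fun f => cf (io f) [Sum.inl (z 0), Sum.inl (z 1)]) h
  have h23 := congrArg (fun f => cf (io f) [Sum.inl (z 2), Sum.inl (z 3)]) h
  simp only [map_add, map_smul, cf_add, cf_smul, hcf, hz3 _ hΘV2, hz3 _ hW2] at h01 h23
  have n01 := hne 0 1 (by decide)
  have n02 := hne 0 2 (by decide)
  have n03 := hne 0 3 (by decide)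
  have n20 := hne 2 0 (by decide)
  have n21 := hne 2 1 (by decide)
  have n23 := hne 2 3 (by decide)
  simp only [true_and, and_true, if_true, if_neg n01, if_neg n02, if_neg n03, n01, n02, n03,
    false_and, if_false] at h01
  simp only [n20, n21, n23, false_and, if_false, and_self, if_true] at h23
  have k1 : l (z 0) * l (z 1) = δ := by simpa using h01
  have k2 : l (z 2) * l (z 3) = δ := by simpa using h23
  rw [k1, k2] at h
  have h5 : act pl R (ρ • Θ V - δ • W) = 0 := by
    rw [act_sub, act_smul, act_smul, sub_eq_zero]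
    exact add_left_cancel h
  have h6 : ρ • Θ V - δ • W = 0 := by
    by_contra hcon
    rw [hpl] at h5
    refine act_letters_ne_zero _ _ hcon ?_ h5
    rw [map_sub, map_smul, map_smul]
    exact lo_sub (lo_smul _ hΘV2) (lo_smul _ hW2)
  refine ⟨δ / ρ, div_ne_zero hδ hρ0, ?_⟩
  have h7 : ρ • Θ V = δ • W := sub_eq_zero.1 h6
  rw [div_eq_inv_mul, mul_smul, ← h7, smul_smul, inv_mul_cancel₀ hρ0, one_smul]

end Pool.Agent.LA78
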