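import Pool.Agent.LA78.PinComb
import Pool.Agent.LA78.PinDeg
import Pool.Agent.LA78.PinLast

/-!
# The pinned letters are mapped to multiples of themselves

PROOF. For a letter `t : P ⊕ J` let `m t p = dg (ind t) (io (Θ (pl p)))`. `pin_deg`, `dg_wel_pl`,
`dg_wel_inr`: for `t = inr j`: if not all `m t p = 0` then `∑ (N p - 1) m t p ≤ 1`, but a nonzero
term is at least `2`; so `m (inr j) p = 0`. For `t = inl q` we get the hypothesis `h1` of `pin_comb`.
`h2`: `Θ (pl p) ≠ 0` by injectivity (`of x ≠ 0` since `io (of x) = uof x ≠ 0`), so there is a word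
with nonzero coefficient, it is nonempty, its first letter `t` has `m t p ≥ 1`, and `t` is some
`inl q`. `pin_comb` gives `m (inl q) p = if q = p then 1 else 0`; `eq_letter` gives
`Θ (pl p) = l p • pl p`, `l p ≠ 0`. Then `pin_last` (`rword ≠ []` because `N ≥ 3` and `z 0 : P`).
-/

set_option autoImplicit false

namespace Pool.Agent.LA78

private theorem of_ne_zero_pin {X : Type} (x : X) : (of x : L X) ≠ 0 := by
  classical
  intro h
  have h1 : cf (io (of x : L X)) [x] = 0 := by rw [h]; simp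
  rw [io_of, cf_uof] at h1
  simp at h1

theorem pin {P J : Type} [Fintype P] [DecidableEq P] [DecidableEq J] {N : P → ℕ} {D : ℕ}
    (hG : Good N D) {z : Fin 4 → P} (hz : Function.Injective z) {V W : L (P ⊕ J)} (hV : V ≠ 0)
    (hV2 : lo 2 (io V)) (hW2 : lo 2 (io W)) (hWp : ∀ p, dg (ind (Sum.inl p)) (io W) ≤ D)
    (hWj : ∀ j, dg (ind (Sum.inr j)) (io W) ≤ 1) {Θ : L (P ⊕ J) →ₗ⁅ℚ⁆ L (P ⊕ J)}
    (hΘ : Function.Injective Θ) {δ : ℚ} (hδ : δ ≠ 0)
    (h : Θ (wel z (rword N Finset.univ.toList) V) = δ • wel z (rword N Finset.univ.toList) W) :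
    ∃ (l : P → ℚ) (δ' : ℚ), (∀ p, l p ≠ 0) ∧ δ' ≠ 0 ∧ (∀ p, Θ (pl p) = l p • pl p) ∧
      Θ V = δ' • W := by
  have hN := hG.three
  have hR : rword N (Finset.univ : Finset P).toList ≠ [] := by
    intro h
    have h1 : ∀ x ∈ (Finset.univ : Finset P).toList, List.replicate (N x) x = [] := by
      simpa [rword, List.flatMap_eq_nil_iff] using h
    have h2 := h1 (z 0) (Finset.mem_toList.2 (Finset.mem_univ _))
    have h3 := hG.three (z 0)
    have h4 := congrArg List.length h2
    simp only [List.length_replicate, List.length_nil] at h4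
    omega
  -- the letters `inr j` do not occur
  have hj : ∀ j p, dg (ind (Sum.inr j)) (io (Θ (pl p))) = 0 := by
    intro j p
    rcases pin_deg hN hz hV hV2 hΘ h (ind (Sum.inr j)) with h1 | h1
    · exact h1 p
    · have h2 := h1.trans (dg_wel_inr z _ j (hWj j))
      have h3 : (N p - 1) * dg (ind (Sum.inr j)) (io (Θ (pl p))) ≤ 1 :=
        (Finset.single_le_sum (f := fun p => (N p - 1) * dg (ind (Sum.inr j)) (io (Θ (pl p))))
          (fun _ _ => Nat.zero_le _) (Finset.mem_univ p)).trans h2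
      by_contra h4
      have h5 : 1 ≤ dg (ind (Sum.inr j)) (io (Θ (pl p))) := Nat.one_le_iff_ne_zero.2 h4
      have h6 := hN p
      have h7 : 2 ≤ N p - 1 := by omega
      have h8 := Nat.mul_le_mul h7 h5
      omega
  have hm := pin_comb hG (fun t p => dg (ind (Sum.inl t)) (io (Θ (pl p : L (P ⊕ J))))) (by
    intro t
    rcases pin_deg hN hz hV hV2 hΘ h (ind (Sum.inl t)) with h1 | h1
    · exact Or.inl h1
    · exact Or.inr (h1.trans (dg_wel_pl hN z t (hWp t)))) (by
    intro p
    have h1 : Θ (pl p) ≠ 0 := by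
      intro h1
      exact of_ne_zero_pin (Sum.inl p : P ⊕ J) (hΘ (by rw [map_zero]; exact h1))
    have h2 : io (Θ (pl p)) ≠ 0 := fun h2 => h1 (io_injective (by rw [h2, map_zero]))
    obtain ⟨w, hw⟩ := exists_cf_ne h2
    cases w with
    | nil => exact absurd (cf_io_nil _) hw
    | cons t w =>
      have h3 : 1 ≤ dg (ind t) (io (Θ (pl p))) := by
        refine le_trans ?_ (le_dg (ind t) hw)
        rw [wsum_cons]
        simp [ind]
      cases t with
      | inl q => exact ⟨q, Nat.one_le_iff_ne_zero.1 h3⟩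
      | inr j =>
        rw [hj j p] at h3
        omega)
  have hl : ∀ p, ∃ c : ℚ, Θ (pl p) = c • pl p := by
    intro p
    refine eq_letter (Θ (pl p)) (Sum.inl p) ?_
    intro t
    cases t with
    | inl q =>
      rw [hm q p]
      by_cases hq : q = p
      · simp [hq]
      · simp [hq]
    | inr j =>
      rw [hj j p]
      exact Nat.zero_le _
  choose l hl using hl
  have hl0 : ∀ p, l p ≠ 0 := by
    intro p h0
    have h1 := hl p
    rw [h0, zero_smul] at h1
    exact of_ne_zero_pin (Sum.inl p : P ⊕ J) (hΘ (by rw [map_zero]; exact h1))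
  obtain ⟨δ', h1, h2⟩ := pin_last hz hR hV2 hW2 hδ hl0 hl h
  exact ⟨l, δ', hl0, h1, hl, h2⟩

end Pool.Agent.LA78
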