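import Pool.Agent.LA78.IsoCore
import Pool.Agent.LA78.NoKill
import Pool.Agent.LA78.Pin
import Pool.Agent.LA78.Extract
import Pool.Agent.LA78.Forward

/-!
# The isomorphism of the one-relator algebras is equivalent to the solvability of the system
-/

set_option autoImplicit false

namespace Pool.Agent.LA78

theorem wel_nokill {P J : Type} [Fintype P] [Fintype J] {z : Fin 4 → P}
    (hz : Function.Injective z) {R : List P} (hR : R ≠ []) {V : L (P ⊕ J)}
    (hV2 : lo 2 (io V)) (θ : L (Option (P ⊕ J)) →ₗ⁅ℚ⁆ L (P ⊕ J))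
    (hθ : Function.Surjective θ) : θ (inc (wel z R V)) ≠ 0 := by
  have h3 : lo 3 (io (act (pl : P → L (P ⊕ J)) R V)) := by
    have e : act (pl : P → L (P ⊕ J)) R V = act of (R.map Sum.inl) V := (act_map of Sum.inl R V).symm
    rw [e]
    refine lo_mono ?_ (lo_act _ _ hV2)
    have : 0 < R.length := List.length_pos_of_ne_nil hR
    rw [List.length_map]
    omega
  have hz' : Function.Injective fun i => (Sum.inl (z i) : P ⊕ J) :=
    fun i j h => hz (Sum.inl_injective h)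
  exact no_kill θ hθ _ hz' _ h3

theorem wel_ne_zero {P J : Type} [Fintype P] [Fintype J] {z : Fin 4 → P}
    (hz : Function.Injective z) {R : List P} (hR : R ≠ []) {V : L (P ⊕ J)}
    (hV2 : lo 2 (io V)) : wel z R V ≠ 0 := by
  intro h
  have h1 : Function.Surjective (prj : L (Option (P ⊕ J)) →ₗ⁅ℚ⁆ L (P ⊕ J)) :=
    fun f => ⟨inc f, prj_inc f⟩
  apply wel_nokill hz hR hV2 prj h1
  rw [h, map_zero, map_zero]

theorem iso_iff {Z C J : Type} [Fintype Z] [Fintype C] [Fintype J]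
    (A : J → C → List (ℤ × List Z)) (hW : Wof A ≠ 0) (z : Fin 4 → Z ⊕ C)
    (hz : Function.Injective z) : ∃ R : List (Z ⊕ C), ∀ G : C → Code Z,
      (Nonempty (OneRel (rr (wel z R (Wof A + Gof G : L ((Z ⊕ C) ⊕ J)))) ≃ₗ⁅ℚ⁆
        OneRel (rr (wel z R (Wof A : L ((Z ⊕ C) ⊕ J))))) ↔ Solv A G) := by
  classical
  let D : ℕ := Finset.univ.sup fun p : Z ⊕ C => dg (ind (Sum.inl p)) (io (Wof A))
  have hWp : ∀ p : Z ⊕ C, dg (ind (Sum.inl p)) (io (Wof A)) ≤ D :=
    fun p => Finset.le_sup (f := fun p : Z ⊕ C => dg (ind (Sum.inl p)) (io (Wof A)))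
      (Finset.mem_univ p)
  obtain ⟨N, hG⟩ := exists_good (Z ⊕ C) D
  have hR : rword N (Finset.univ : Finset (Z ⊕ C)).toList ≠ [] := by
    intro h
    have h1 : ∀ x ∈ (Finset.univ : Finset (Z ⊕ C)).toList, List.replicate (N x) x = [] := by
      simpa [rword, List.flatMap_eq_nil_iff] using h
    have h2 := h1 (z 0) (Finset.mem_toList.2 (Finset.mem_univ _))
    have h3 := hG.three (z 0)
    have h4 := congrArg List.length h2
    simp only [List.length_replicate, List.length_nil] at h4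
    omega
  refine ⟨rword N Finset.univ.toList, fun G => ⟨?_, fun hS => forward A G hS z _⟩⟩
  rintro ⟨φ⟩
  have hV2 : lo 2 (io (Wof A + Gof G : L ((Z ⊕ C) ⊕ J))) := by
    rw [map_add]
    exact lo_add (lo_Wof A) (lo_Gof G)
  obtain ⟨Θ, δ, hΘ, hδ, hw⟩ := iso_core _ _ (wel_ne_zero hz hR (lo_Wof A))
    (fun θ hθ => wel_nokill hz hR hV2 θ hθ) φ
  obtain ⟨l, δ', hl, -, hpl, hVW⟩ := pin hG hz (V_ne_zero A G hW) hV2 (lo_Wof A) hWp
    (dg_Wof_inr A) hΘ hδ hw
  exact extract A G hl hpl hVW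

end Pool.Agent.LA78
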