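import Pool.Agent.LA78.QRot
import Pool.Agent.NB.Small

/-!
# The queue machine simulates the stack machine

PROOF of `q_respects`. Let `trq C D`, `D = ((C.1, C.2.1), false, l)`, `l ~r lay S main`.
`C.1 = none`: `l = lay S main` starts with `inl main`, so `qstep D = none`.
`push k f q`: by `rotate_to` (`lay_rot`, `lay_eq`, `not_mem_lrest`) reach `lay S k`; one more step
gives `(S k).map inr ++ lrest S k ++ [inl k, inr (f v)]`, a rotation of
`lay (update S k (f v :: S k)) k` (`lay_eq`, `lrest_update`).
`peek k f q`, `pop k f q`: reach `lay S k`, one step to the mode `true` with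
`(S k).map inr ++ lrest S k ++ [inl k]`, and one step which reads the top symbol `inr a`, or the next
separator (`lrest_cons`) if the stack is empty. The result is a rotation of `lay S k`, or of
`lay (update S k (S k).tail) k`.
(For `rotate_to` one needs `qnx s false y = some (s, false, [y])` for `y ≠ inl k`: by definition.)
`load`, `branch`, `goto`: one step, the queue is rotated by one symbol (it is not empty).
`halt`: one step, then `rotate_to` with the state `none` to reach exactly `lay S main`.
Reaches₁: `TransGen` from `ReflTransGen` followed by a step (`Relation.TransGen.tail'`) etc.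

PROOF of `qreach_iff`. `trq (sinit c [n]) (qinit c n)` and `trq (shalt []) D ↔ D = qfin`.
If `(c.eval [n]).Dom` then its value is `[]` by `hc`, so
`shalt [] ∈ eval sstep (sinit c [n])` (`NB.small_eval`), and `StateTransition.tr_eval` gives `b₂`
with `trq (shalt []) b₂` in `eval qstep (qinit c n)`, `b₂ = qfin`, `StateTransition.mem_eval`.
Conversely if `qinit` reaches `qfin`: `qstep qfin = none`, so `qfin ∈ eval qstep (qinit c n)`, and by
`StateTransition.tr_eval_rev` `eval sstep (sinit c [n])` is defined, so by `NB.small_eval`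
`(c.eval [n]).Dom`.
-/

set_option autoImplicit false

namespace Pool.Agent.LA78

open Turing Turing.PartrecToTM2 Pool.Agent.NB

private theorem reach_lay {s : SS} {k : K'} {l : List QL} {S : K' → List Γ'}
    (hl : l ~r lay S K'.main)
    (hs : ∀ y, y ≠ Sum.inl k → qnx s false y = some (s, false, [y])) :
    StateTransition.Reaches qstep (s, false, l)
      (s, false, Sum.inl k :: ((S k).map Sum.inr ++ lrest S k)) := by
  refine rotate_to (not_mem_lrest S k) ?_ hs
  rw [← lay_eq]
  exact hl.trans (lay_rot S k).symm

private theorem lay_ne_nil {l : List QL} {S : K' → List Γ'} (hl : l ~r lay S K'.main) :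
    ∃ x m, l = x :: m := by
  cases l with
  | nil =>
    have := hl.perm.length_eq
    rw [lay_eq] at this
    simp at this
  | cons x m => exact ⟨x, m, rfl⟩

private theorem rot_one (x : QL) (m : List QL) : m ++ [x] ~r x :: m := by
  simpa using (List.isRotated_append (l := m) (l' := [x]))

private theorem step_eq {s : SS} {m : Bool} {x : QL} {l : List QL} {t : SS × Bool × List QL}
    (h : qnx s m x = some t) : qstep (s, m, x :: l) = some (t.1, t.2.1, l ++ t.2.2) := by
  simp [qstep, h]

private theorem rot_update {S : K' → List Γ'} {k : K'} {t : List Γ'} {l : List QL}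
    (h : l ~r Sum.inl k :: (t.map Sum.inr ++ lrest S k)) :
    l ~r lay (Function.update S k t) K'.main := by
  refine h.trans ?_
  have := lay_eq (Function.update S k t) k
  rw [lrest_update, Function.update_self] at this
  rw [← this]
  exact lay_rot _ _

private theorem rot_same {S : K' → List Γ'} {k : K'} {l : List QL}
    (h : l ~r Sum.inl k :: ((S k).map Sum.inr ++ lrest S k)) :
    l ~r lay S K'.main := by
  refine h.trans ?_
  rw [← lay_eq]
  exact lay_rot _ _

private theorem one_step {s s' : SS} {l : List QL} {S : K' → List Γ'}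
    (hl : l ~r lay S K'.main) (h : ∀ x, qnx s false x = some (s', false, [x])) :
    ∃ l', l' ~r lay S K'.main ∧
      StateTransition.Reaches₁ qstep (s, false, l) (s', false, l') := by
  obtain ⟨x, m, rfl⟩ := lay_ne_nil hl
  exact ⟨m ++ [x], (rot_one x m).trans hl, Relation.TransGen.single (step_eq (h x))⟩

theorem q_respects : StateTransition.Respects sstep qstep trq := by
  rintro ⟨c, v, S⟩ ⟨s, b, l⟩ ⟨h1, h2, h3, h4⟩
  dsimp only at h1 h2 h3 h4
  subst h1 h2
  match c, h4 with
  | none, h4 =>
    rw [h4 rfl, lay_eq]
    simp [sstep, qstep, qnx]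
  | some (TM2.Stmt.push k f q), _ =>
    refine ⟨((some q, v), false, ((S k).map Sum.inr ++ lrest S k) ++ [Sum.inl k, Sum.inr (f v)]),
      ⟨rfl, rfl, rot_update ?_, fun h => by simp at h⟩, ?_⟩
    · have := List.isRotated_append (l := (S k).map Sum.inr ++ lrest S k)
        (l' := [Sum.inl k, Sum.inr (f v)])
      simpa using this
    · refine Relation.TransGen.tail' (reach_lay (k := k) h3 ?_) ?_
      · intro y hy
        simp [qnx, hy]
      · exact step_eq (t := ((some q, v), false, [Sum.inl k, Sum.inr (f v)])) (by simp [qnx])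
  | some (TM2.Stmt.peek k f q), _ =>
    have hr : StateTransition.Reaches qstep ((some (TM2.Stmt.peek k f q), v), false, l)
        ((some (TM2.Stmt.peek k f q), v), true, ((S k).map Sum.inr ++ lrest S k) ++ [Sum.inl k]) := by
      refine Relation.ReflTransGen.tail (reach_lay (k := k) h3 ?_) ?_
      · intro y hy
        simp [qnx, hy]
      · exact step_eq (t := ((some (TM2.Stmt.peek k f q), v), true, [Sum.inl k])) (by simp [qnx])
    cases hS : S k with
    | nil =>
      obtain ⟨j, m, hm⟩ := lrest_cons S k
      refine ⟨((some q, f v none), false, (m ++ [Sum.inl k]) ++ [Sum.inl j]),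
        ⟨by simp [hS], rfl, rot_same (S := S) (k := k) ?_, fun h => by simp at h⟩, ?_⟩
      · rw [hS, hm]
        refine (rot_one (Sum.inl j) (m ++ [Sum.inl k])).trans ?_
        have := rot_one (Sum.inl k) (Sum.inl j :: m)
        simpa using this
      · refine Relation.TransGen.tail' hr ?_
        rw [hS, hm]
        exact step_eq (s := (some (TM2.Stmt.peek k f q), v)) (m := true) (x := Sum.inl j)
          (t := ((some q, f v none), false, [Sum.inl j])) (by simp [qnx])
    | cons a t =>
      refine ⟨((some q, f v (some a)), false, (t.map Sum.inr ++ lrest S k ++ [Sum.inl k]) ++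
        [Sum.inr a]), ⟨by simp [hS], rfl, rot_same (S := S) (k := k) ?_, fun h => by simp at h⟩, ?_⟩
      · rw [hS]
        refine (rot_one _ _).trans ?_
        have := rot_one (Sum.inl k) (Sum.inr a :: (t.map Sum.inr ++ lrest S k))
        simpa using this
      · refine Relation.TransGen.tail' hr ?_
        rw [hS]
        exact step_eq (s := (some (TM2.Stmt.peek k f q), v)) (m := true) (x := Sum.inr a)
          (t := ((some q, f v (some a)), false, [Sum.inr a])) (by simp [qnx])
  | some (TM2.Stmt.pop k f q), _ =>
    have hr : StateTransition.Reaches qstep ((some (TM2.Stmt.pop k f q), v), false, l)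
        ((some (TM2.Stmt.pop k f q), v), true, ((S k).map Sum.inr ++ lrest S k) ++ [Sum.inl k]) := by
      refine Relation.ReflTransGen.tail (reach_lay (k := k) h3 ?_) ?_
      · intro y hy
        simp [qnx, hy]
      · exact step_eq (t := ((some (TM2.Stmt.pop k f q), v), true, [Sum.inl k])) (by simp [qnx])
    cases hS : S k with
    | nil =>
      obtain ⟨j, m, hm⟩ := lrest_cons S k
      refine ⟨((some q, f v none), false, (m ++ [Sum.inl k]) ++ [Sum.inl j]),
        ⟨by simp [hS], rfl, rot_update (k := k) ?_, fun h => by simp at h⟩, ?_⟩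
      · rw [hS, hm]
        refine (rot_one (Sum.inl j) (m ++ [Sum.inl k])).trans ?_
        have := rot_one (Sum.inl k) (Sum.inl j :: m)
        simpa using this
      · refine Relation.TransGen.tail' hr ?_
        rw [hS, hm]
        exact step_eq (s := (some (TM2.Stmt.pop k f q), v)) (m := true) (x := Sum.inl j)
          (t := ((some q, f v none), false, [Sum.inl j])) (by simp [qnx])
    | cons a t =>
      refine ⟨((some q, f v (some a)), false, (t.map Sum.inr ++ lrest S k ++ [Sum.inl k]) ++
        []), ⟨by simp [hS], rfl, rot_update (k := k) ?_, fun h => by simp at h⟩, ?_⟩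
      · rw [hS]
        have := rot_one (Sum.inl k) (t.map Sum.inr ++ lrest S k)
        simpa using this
      · refine Relation.TransGen.tail' hr ?_
        rw [hS]
        exact step_eq (s := (some (TM2.Stmt.pop k f q), v)) (m := true) (x := Sum.inr a)
          (t := ((some q, f v (some a)), false, [])) (by simp [qnx])
  | some (TM2.Stmt.load f q), _ =>
    obtain ⟨l', h5, h6⟩ := one_step (s := (some (TM2.Stmt.load f q), v)) (s' := (some q, f v)) h3
      (fun x => by simp [qnx])
    exact ⟨_, ⟨rfl, rfl, h5, fun h => by simp at h⟩, h6⟩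
  | some (TM2.Stmt.branch f q₁ q₂), _ =>
    obtain ⟨l', h5, h6⟩ := one_step (s := (some (TM2.Stmt.branch f q₁ q₂), v))
      (s' := (some (cond (f v) q₁ q₂), v)) h3 (fun x => by simp [qnx])
    exact ⟨_, ⟨rfl, rfl, h5, fun h => by simp at h⟩, h6⟩
  | some (TM2.Stmt.goto f), _ =>
    obtain ⟨l', h5, h6⟩ := one_step (s := (some (TM2.Stmt.goto f), v))
      (s' := (some (tr (f v)), v)) h3 (fun x => by simp [qnx])
    exact ⟨_, ⟨rfl, rfl, h5, fun h => by simp at h⟩, h6⟩
  | some TM2.Stmt.halt, _ =>
    obtain ⟨l', h5, h6⟩ := one_step (s := (some TM2.Stmt.halt, v))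
      (s' := (none, v)) h3 (fun x => by simp [qnx])
    refine ⟨((none, v), false, lay S K'.main), ⟨rfl, rfl, List.IsRotated.refl _, fun _ => rfl⟩,
      Relation.TransGen.trans_left h6 ?_⟩
    rw [lay_eq]
    refine reach_lay (k := K'.main) h5 ?_
    intro y hy
    simp [qnx, hy]

private theorem trq_halt (D : QC) (h : trq (shalt []) D) : D = qfin := by
  obtain ⟨s, b, l⟩ := D
  obtain ⟨h1, h2, h3, h4⟩ := h
  have h5 := h4 rfl
  dsimp only at h1 h2 h5
  subst h1 h2 h5
  rfl

private theorem trq_init (c : ToPartrec.Code) (n : ℕ) : trq (sinit c [n]) (qinit c n) :=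
  ⟨rfl, rfl, List.IsRotated.refl _, fun _ => rfl⟩

theorem qreach_iff (c : ToPartrec.Code)
    (hc : ∀ (n : ℕ) (w : List ℕ), w ∈ c.eval [n] → w = []) (n : ℕ) :
    StateTransition.Reaches qstep (qinit c n) qfin ↔ (c.eval [n]).Dom := by
  have hq : qstep qfin = none := by
    unfold qfin
    rw [lay_eq]
    simp [qstep, qnx]
  constructor
  · intro h
    have h1 : qfin ∈ StateTransition.eval qstep (qinit c n) :=
      StateTransition.mem_eval.2 ⟨h, hq⟩
    obtain ⟨b, hb, h2⟩ := StateTransition.tr_eval_rev q_respects (trq_init c n) h1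
    have h3 : b ∈ shalt <$> c.eval [n] := by
      rw [← small_eval]
      exact h2
    obtain ⟨w, hw, -⟩ := (Part.mem_map_iff _).1 h3
    exact Part.dom_iff_mem.2 ⟨w, hw⟩
  · intro h
    obtain ⟨w, hw⟩ := Part.dom_iff_mem.1 h
    have h1 : shalt [] ∈ StateTransition.eval sstep (sinit c [n]) := by
      rw [small_eval]
      have := hc n w hw
      subst this
      exact (Part.mem_map_iff _).2 ⟨_, hw, rfl⟩
    obtain ⟨b, hb, h2⟩ := StateTransition.tr_eval q_respects (trq_init c n) h1
    rw [trq_halt b hb] at h2
    exact (StateTransition.mem_eval.1 h2).1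

end Pool.Agent.LA78
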