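import Pool.Agent.LA78.QClosed
import Pool.Agent.LA78.QSim

/-!
# The equation for the machine

PROOF of `stp_of_qstep`: `D = (s, m, x :: l)`, `D' = (u.1, u.2.1, l ++ u.2.2)`; use the rule with
index `((⟨s, h⟩, m), x)` and the word `l.map inr` (`qnx_closed`).
PROOF of `machine_iff`. (If the machine halts) by `qreach_iff` `qinit` reaches `qfin`; by induction
on the path (all states are in the finite set, `qnx_closed`) `qenc qinit` reaches `qenc qfin` by
`Stp`; `eqS_of_reach`. (Conversely) let `S` be the set of all words `qenc D h` such that `D` reaches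
`qfin`; it contains `qenc qfin`. It is invariant: let `v = al t ++ x`, `w = ga t ++ x ++ de t`. If the
rule is trivial `v = w`. Otherwise `v = inl (s, m) :: inr y :: x`, `w = inl (s', m') :: (x ++ o.map inr)`
with `qnx s m y = some (s', m', o)`. If `v ∈ S` then `x = l.map inr`, `D = (s, m, y :: l)` reaches
`qfin`, `D ≠ qfin` because `qstep D ≠ none = qstep qfin`, so the next configuration
`(s', m', l ++ o)` reaches `qfin` (first step of the path), and its word is `w`. If `w ∈ S` then
`x ++ o.map inr = l'.map inr`, so `x = l.map inr`, `l' = l ++ o`, and `(s, m, y :: l)` reaches `qfin`.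
So by `mem_of_eqS`, `qenc qinit ∈ S`, `qinit` reaches `qfin`, and the machine halts by `qreach_iff`.
-/

set_option autoImplicit false

namespace Pool.Agent.LA78

open Turing Turing.PartrecToTM2 Pool.Agent.NB

noncomputable instance instFintypeSS (c : ToPartrec.Code) : Fintype (stateSet c) :=
  (stateSet_finite c).fintype

theorem qinit_mem (c : ToPartrec.Code) (n : ℕ) : (qinit c n).1 ∈ stateSet c := init_mem c none

theorem qfin_mem (c : ToPartrec.Code) : qfin.1 ∈ stateSet c := halt_mem c none

deriving instance Fintype for K'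

theorem qrule_none {c : ToPartrec.Code} {t : RA c} (hq : qnx t.1.1.1 t.1.2 t.2 = none) :
    qrule c t = ([], [], []) := by
  unfold qrule
  rw [hq]

theorem qrule_some {c : ToPartrec.Code} {t : RA c} {u : SS × Bool × List QL}
    (hq : qnx t.1.1.1 t.1.2 t.2 = some u) :
    qrule c t = ([Sum.inl t.1, Sum.inr t.2],
      [Sum.inl (⟨u.1, qnx_closed c t.1.1.2 hq⟩, u.2.1)], u.2.2.map Sum.inr) := by
  unfold qrule
  rw [hq]
  exact dif_pos (qnx_closed c t.1.1.2 hq)

theorem qenc_inj {c : ToPartrec.Code} {D D' : QC} {h : D.1 ∈ stateSet c} {h' : D'.1 ∈ stateSet c}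
    (e : qenc D h = qenc D' h') : D = D' := by
  obtain ⟨s, m, l⟩ := D
  obtain ⟨s', m', l'⟩ := D'
  unfold qenc at e
  rw [List.cons_eq_cons] at e
  obtain ⟨e1, e2⟩ := e
  have e3 := Sum.inl_injective e1
  have e4 : s = s' := congrArg (fun p => (p.1 : SS)) e3
  have e5 : m = m' := congrArg Prod.snd e3
  have e6 : l = l' := (List.map_injective_iff.2 Sum.inr_injective) e2
  rw [e4, e5, e6]

theorem stp_of_qstep {c : ToPartrec.Code} {D D' : QC} (h : D.1 ∈ stateSet c)
    (hs : D' ∈ qstep D) : ∃ h' : D'.1 ∈ stateSet c, Stp (qrules c) (qenc D h) (qenc D' h') := by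
  obtain ⟨s, m, l⟩ := D
  cases l with
  | nil => simp [qstep] at hs
  | cons x l =>
    simp only [qstep, Option.mem_def, Option.map_eq_some_iff] at hs
    obtain ⟨u, hu, rfl⟩ := hs
    have h' : u.1 ∈ stateSet c := qnx_closed c (s := s) h hu
    refine ⟨h', ((⟨s, h⟩, m), x), l.map Sum.inr, ?_, ?_⟩
    · show qenc _ h = (qrule c ((⟨s, h⟩, m), x)).1 ++ _
      rw [qrule_some (c := c) (t := ((⟨s, h⟩, m), x)) hu]
      simp [qenc]
    · show qenc _ _ = (qrule c ((⟨s, h⟩, m), x)).2.1 ++ _ ++ (qrule c ((⟨s, h⟩, m), x)).2.2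
      rw [qrule_some (c := c) (t := ((⟨s, h⟩, m), x)) hu]
      simp [qenc]

theorem reach_of_qreach {c : ToPartrec.Code} {D D' : QC} (h : D.1 ∈ stateSet c)
    (hs : StateTransition.Reaches qstep D D') :
    ∃ h' : D'.1 ∈ stateSet c,
      Relation.ReflTransGen (Stp (qrules c)) (qenc D h) (qenc D' h') := by
  induction hs with
  | refl => exact ⟨h, Relation.ReflTransGen.refl⟩
  | tail _ hbc ih =>
    obtain ⟨h1, h2⟩ := ih
    obtain ⟨h3, h4⟩ := stp_of_qstep h1 hbc
    exact ⟨h3, h2.tail h4⟩

theorem qstep_qfin : qstep qfin = none := by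
  simp [qfin, qstep, lay, cyc, seg, qnx]

theorem machine_iff (c : ToPartrec.Code)
    (hc : ∀ (n : ℕ) (w : List ℕ), w ∈ c.eval [n] → w = []) (n : ℕ) :
    EqS (qrules c) (qenc qfin (qfin_mem c)) (qenc (qinit c n) (qinit_mem c n)) ↔
      (c.eval [n]).Dom := by
  constructor
  · intro h
    let S : Set (List (GA c)) := {v | ∃ (D : QC) (hD : D.1 ∈ stateSet c),
      v = qenc D hD ∧ StateTransition.Reaches qstep D qfin}
    have hinv : ∀ v w, Stp (qrules c) v w → (v ∈ S ↔ w ∈ S) := by
      rintro v w ⟨t, x, rfl, rfl⟩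
      show (qrule c t).1 ++ x ∈ S ↔ (qrule c t).2.1 ++ x ++ (qrule c t).2.2 ∈ S
      rcases hq : qnx t.1.1.1 t.1.2 t.2 with _ | u
      · rw [qrule_none hq]
        simp
      · rw [qrule_some hq]
        obtain ⟨⟨⟨s, hs⟩, m⟩, y⟩ := t
        change qnx s m y = some u at hq
        constructor
        · rintro ⟨D, hD, e, hr⟩
          obtain ⟨s', m', l'⟩ := D
          unfold qenc at e
          simp only [List.cons_append, List.nil_append, List.cons_eq_cons] at e
          obtain ⟨e1, e2⟩ := e
          have e3 := Sum.inl_injective e1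
          have e4 : s = s' := congrArg (fun p => (p.1 : SS)) e3
          have e5 : m = m' := congrArg Prod.snd e3
          subst e4 e5
          obtain ⟨a, l, rfl, e6, e7⟩ := List.map_eq_cons_iff.1 e2.symm
          have e8 : a = y := Sum.inr_injective e6
          subst e8
          rcases Relation.ReflTransGen.cases_head hr with e9 | ⟨D', h1, h2⟩
          · have h3 := qstep_qfin
            rw [← e9] at h3
            simp [qstep, hq] at h3
          · have h3 : D' = (u.1, u.2.1, l ++ u.2.2) := by
              simp only [qstep, hq, Option.map_some, Option.mem_def, Option.some.injEq] at h1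
              exact h1.symm
            subst h3
            have h' : u.1 ∈ stateSet c := qnx_closed c hs hq
            refine ⟨(u.1, u.2.1, l ++ u.2.2), h', ?_, h2⟩
            subst e7
            simp [qenc]
        · rintro ⟨D, hD, e, hr⟩
          obtain ⟨s', m', l'⟩ := D
          unfold qenc at e
          simp only [List.cons_append, List.nil_append, List.cons_eq_cons] at e
          obtain ⟨e1, e2⟩ := e
          have e3 := Sum.inl_injective e1
          have e4 : u.1 = s' := congrArg (fun p => (p.1 : SS)) e3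
          have e5 : u.2.1 = m' := congrArg Prod.snd e3
          subst e4 e5
          obtain ⟨l1, l2, rfl, e6, e7⟩ := List.map_eq_append_iff.1 e2.symm
          have e8 : l2 = u.2.2 := (List.map_injective_iff.2 Sum.inr_injective) e7
          subst e8
          subst e6
          refine ⟨(s, m, y :: l1), hs, by simp [qenc], ?_⟩
          refine Relation.ReflTransGen.head ?_ hr
          simp [qstep, hq]
    have hmem : qenc (qinit c n) (qinit_mem c n) ∈ S :=
      mem_of_eqS _ _ _ h S hinv ⟨qfin, qfin_mem c, rfl, Relation.ReflTransGen.refl⟩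
    obtain ⟨D, hD, e, hr⟩ := hmem
    rw [← qenc_inj e] at hr
    exact (qreach_iff c hc n).1 hr
  · intro h
    obtain ⟨h', h2⟩ := reach_of_qreach (qinit_mem c n) ((qreach_iff c hc n).2 h)
    exact eqS_of_reach _ _ _ h2

/-- The initial word: a fixed prefix, the input, a fixed suffix. -/
theorem qenc_qinit (c : ToPartrec.Code) (n : ℕ) :
    qenc (qinit c n) (qinit_mem c n) =
      [Sum.inl (⟨(qinit c 0).1, qinit_mem c 0⟩, false), Sum.inr (Sum.inl K'.main)] ++
        (trList [n]).map (fun a => Sum.inr (Sum.inr a)) ++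
        [Sum.inr (Sum.inl K'.rev), Sum.inr (Sum.inl K'.aux), Sum.inr (Sum.inl K'.stack)] := by
  simp [qenc, qinit, lay, cyc, seg, Function.comp_def]

end Pool.Agent.LA78
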