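import Mathlib

/-!
# The input word is a primitive recursive function

PROOF. As `Pool.Agent.NB.Val`: `trList [0] = [cons]`, `trList [2n] = bit0 :: trList [n]` for `n > 0`,
`trList [2n+1] = bit1 :: trList [n]`, and `Primrec.nat_strong_rec` with values in `List ℕ`.
-/

set_option autoImplicit false

namespace Pool.Agent.LA78

open Turing Turing.PartrecToTM2

private theorem trNum_bit0 (n : Num) (h : n ≠ 0) : trNum n.bit0 = Γ'.bit0 :: trNum n := by
  cases n with
  | zero => exact absurd rfl h
  | pos p => rfl

private theorem trList_zero' : trList [0] = [Γ'.cons] := by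
  simp [trList]

private theorem trList_even (n : ℕ) (h : n ≠ 0) :
    trList [2 * n] = Γ'.bit0 :: trList [n] := by
  have h1 : trNat (2 * n) = Γ'.bit0 :: trNat n := by
    have h2 : ((2 * n : ℕ) : Num) = Num.bit0 (n : Num) := by
      rw [← Num.bit0_of_bit0]
      push_cast
      ring
    unfold trNat
    rw [h2]
    refine trNum_bit0 _ ?_
    intro h3
    apply h
    exact_mod_cast h3
  simp only [trList, h1, List.cons_append]

private theorem trList_odd (n : ℕ) :
    trList [2 * n + 1] = Γ'.bit1 :: trList [n] := by
  by_cases h : n = 0
  · subst h
    have h1 : trNat (2 * 0 + 1) = [Γ'.bit1] := by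
      have h2 : ((2 * 0 + 1 : ℕ) : Num) = 1 := by norm_num
      unfold trNat
      rw [h2]
      rfl
    simp only [trList, h1, trNat_zero, List.cons_append, List.nil_append]
  · have h1 : trNat (2 * n + 1) = Γ'.bit1 :: trNat n := by
      have h2 : ((2 * n + 1 : ℕ) : Num) = Num.bit1 (n : Num) := by
        rw [← Num.bit1_of_bit1]
        push_cast
        ring
      unfold trNat
      rw [h2]
      have h3 : (n : Num) ≠ 0 := by
        intro h3
        apply h
        exact_mod_cast h3
      revert h3
      cases (n : Num) with
      | zero => intro h3; exact absurd rfl h3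
      | pos p => intro _; rfl
    simp only [trList, h1, List.cons_append]

theorem primrec_input (f : Γ' → ℕ) : Primrec fun n : ℕ => (trList [n]).map f := by
  have hrec : ∀ n : ℕ, (trList [n]).map f =
      if n = 0 then [f Γ'.cons] else
        (if n % 2 = 0 then f Γ'.bit0 else f Γ'.bit1) :: (trList [n / 2]).map f := by
    intro n
    split_ifs with h1 h2
    · subst h1
      rw [trList_zero']
      rfl
    · have h3 : n = 2 * (n / 2) := by omega
      conv_lhs => rw [h3]
      rw [trList_even _ (by omega)]
      rfl
    · have h3 : n = 2 * (n / 2) + 1 := by omega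
      conv_lhs => rw [h3]
      rw [trList_odd]
      rfl
  have key : Primrec₂ fun (_ : Unit) (n : ℕ) => (trList [n]).map f := by
    refine Primrec.nat_strong_rec _ (g := fun (_ : Unit) (l : List (List ℕ)) =>
      if l.length = 0 then some [f Γ'.cons] else
        (l[l.length / 2]?).map fun y =>
          (if l.length % 2 = 0 then f Γ'.bit0 else f Γ'.bit1) :: y) ?_ ?_
    · have hl : Primrec fun p : Unit × List (List ℕ) => p.2.length :=
        Primrec.list_length.comp Primrec.snd
      refine Primrec.ite (Primrec.eq.comp hl (Primrec.const 0)) (Primrec.const _) ?_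
      refine Primrec.option_map (Primrec.list_getElem?.comp Primrec.snd
        (Primrec.nat_div.comp hl (Primrec.const 2))) ?_
      exact Primrec.list_cons.comp
        (Primrec.ite (Primrec.eq.comp (Primrec.nat_mod.comp (hl.comp Primrec.fst)
          (Primrec.const 2)) (Primrec.const 0)) (Primrec.const _) (Primrec.const _))
        Primrec.snd
    · intro _ n
      simp only [List.length_map, List.length_range]
      rw [hrec n]
      split_ifs with h1 h2
      · rfl
      · rw [List.getElem?_map, List.getElem?_range (by omega)]
        rfl
      · rw [List.getElem?_map, List.getElem?_range (by omega)]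
        rfl
  exact key.comp (Primrec.const ()) Primrec.id

end Pool.Agent.LA78
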