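import Pool.Agent.LA78.Eqn

/-!
# A solution of the system gives a solution of the equation

PROOF. Let `M : L (Γ ⊕ Bool) →ₗ⁅ℚ⁆ Matrix (Fin 3) (Fin 3) (U Γ)` be the Lie homomorphism with
`inl y ↦ uof y • E₁₁`, `inr false ↦ E₀₁`, `inr true ↦ E₁₂` (matrix units; the Lie structure is the
commutator; take it as `(ulift ..) ∘ io` if you want to avoid Lie instances on matrices). By
`L_ind`, `M f` is strictly upper triangular except for the entry `N f` at `(1,1)`; write
`P f = (M f)₀₁`, `Q f = (M f)₁₂`, `μ f = (M f)₀₂`. Brackets with letters: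
`[f, y]`: `P ↦ P y`, `Q ↦ - y Q`, `μ ↦ 0`;
`[f, b]` (`b = inr true`): `μ ↦ P f`;   `[f, a]` (`a = inr false`): `μ ↦ - Q f`.
Hence for words `v` in `Γ`: `μ (f ∘ y) = 0`, `μ (f ∘ (v b)) = P f * wd v`,
`μ (f ∘ (v a)) = - (-1)^|v| wd (v.reverse) * Q f`. Also `P a = 1`, so `μ (a ∘ (v b)) = wd v`.
Let `h` be a solution. Apply `μ` to the equation `some r`:
`P (k_r) - wd (ga r) * Q (h_r) = 0`. Apply `μ` to the equation `none`:
`Σ_r (P (k_r) * wd (de r) - wd (al r) * Q (h_r)) = wd F - wd I`. Take `P r = Q (h_r)`.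
-/

set_option autoImplicit false

namespace Pool.Agent.LA78

namespace STE

variable {Γ : Type}

/-- The matrices of the letters. -/
noncomputable def mz : Γ ⊕ Bool → Matrix (Fin 3) (Fin 3) (U Γ)
  | Sum.inl y => Matrix.single 1 1 (uof y)
  | Sum.inr false => Matrix.single 0 1 1
  | Sum.inr true => Matrix.single 1 2 1

/-- The matrix of an element. -/
noncomputable def mm (f : L (Γ ⊕ Bool)) : Matrix (Fin 3) (Fin 3) (U Γ) := ulift mz (io f)

theorem mm_of (x : Γ ⊕ Bool) : mm (of x) = mz x := by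
  rw [mm, io_of, ulift_uof]

theorem mm_add (f g : L (Γ ⊕ Bool)) : mm (f + g) = mm f + mm g := by
  rw [mm, map_add, map_add]; rfl

theorem mm_zero : mm (0 : L (Γ ⊕ Bool)) = 0 := by
  rw [mm, map_zero, map_zero]

theorem mm_smul (c : ℚ) (f : L (Γ ⊕ Bool)) : mm (c • f) = c • mm f := by
  rw [mm, map_smul, map_smul]; rfl

theorem mm_lie (f g : L (Γ ⊕ Bool)) : mm ⁅f, g⁆ = mm f * mm g - mm g * mm f := by
  rw [mm, io_lie, map_sub, map_mul, map_mul]; rfl

theorem tri (f : L (Γ ⊕ Bool)) : (∀ i, mm f i 0 = 0) ∧ (∀ j, mm f 2 j = 0) := by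
  refine L_ind (P := fun f => (∀ i, mm f i 0 = 0) ∧ (∀ j, mm f 2 j = 0)) ?_ ?_ ?_ ?_ ?_ f
  · rw [mm_zero]; simp
  · intro x
    rw [mm_of]
    rcases x with y | b
    · constructor
      · intro i; simp [mz, Matrix.single]
      · intro j; simp [mz, Matrix.single]
    · rcases b with _ | _
      · constructor
        · intro i; simp [mz, Matrix.single]
        · intro j; simp [mz, Matrix.single]
      · constructor
        · intro i; simp [mz, Matrix.single]
        · intro j; simp [mz, Matrix.single]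
  · intro f g hf hg
    rw [mm_add]
    constructor
    · intro i; rw [Matrix.add_apply, hf.1, hg.1, add_zero]
    · intro j; rw [Matrix.add_apply, hf.2, hg.2, add_zero]
  · intro c f hf
    rw [mm_smul]
    constructor
    · intro i; rw [Matrix.smul_apply, hf.1, smul_zero]
    · intro j; rw [Matrix.smul_apply, hf.2, smul_zero]
  · intro f g hf hg
    rw [mm_lie]
    constructor
    · intro i
      rw [Matrix.sub_apply, Matrix.mul_apply, Matrix.mul_apply]
      simp [hf.1, hg.1]
    · intro j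
      rw [Matrix.sub_apply, Matrix.mul_apply, Matrix.mul_apply]
      simp [hf.2, hg.2]

/-- The functional `P`. -/
noncomputable def pP (f : L (Γ ⊕ Bool)) : U Γ := mm f 0 1

/-- The functional `Q`. -/
noncomputable def qQ (f : L (Γ ⊕ Bool)) : U Γ := mm f 1 2

/-- The functional `μ`. -/
noncomputable def mu (f : L (Γ ⊕ Bool)) : U Γ := mm f 0 2

theorem mu_add (f g : L (Γ ⊕ Bool)) : mu (f + g) = mu f + mu g := by
  rw [mu, mm_add]; rfl

theorem mu_zero : mu (0 : L (Γ ⊕ Bool)) = 0 := by
  rw [mu, mm_zero]; rfl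

/-- `μ` as an additive map. -/
noncomputable def muh : L (Γ ⊕ Bool) →+ U Γ where
  toFun := mu
  map_zero' := mu_zero
  map_add' := mu_add

theorem muh_apply (f : L (Γ ⊕ Bool)) : muh f = mu f := rfl

theorem pP_y (f : L (Γ ⊕ Bool)) (y : Γ) : pP ⁅f, of (Sum.inl y)⁆ = pP f * uof y := by
  rw [pP, mm_lie, mm_of, Matrix.sub_apply, Matrix.mul_apply, Matrix.mul_apply]
  simp [Fin.sum_univ_three, mz, Matrix.single, pP]

theorem qQ_y (f : L (Γ ⊕ Bool)) (y : Γ) : qQ ⁅f, of (Sum.inl y)⁆ = -(uof y * qQ f) := by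
  rw [qQ, mm_lie, mm_of, Matrix.sub_apply, Matrix.mul_apply, Matrix.mul_apply]
  simp [Fin.sum_univ_three, mz, Matrix.single, qQ]

theorem mu_y (f : L (Γ ⊕ Bool)) (y : Γ) : mu ⁅f, of (Sum.inl y)⁆ = 0 := by
  rw [mu, mm_lie, mm_of, Matrix.sub_apply, Matrix.mul_apply, Matrix.mul_apply]
  simp [Fin.sum_univ_three, mz, Matrix.single]

theorem mu_b (f : L (Γ ⊕ Bool)) : mu ⁅f, of (Sum.inr true)⁆ = pP f := by
  rw [mu, mm_lie, mm_of, Matrix.sub_apply, Matrix.mul_apply, Matrix.mul_apply]
  simp [Fin.sum_univ_three, mz, Matrix.single, pP]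

theorem mu_a (f : L (Γ ⊕ Bool)) : mu ⁅f, of (Sum.inr false)⁆ = - qQ f := by
  rw [mu, mm_lie, mm_of, Matrix.sub_apply, Matrix.mul_apply, Matrix.mul_apply]
  simp [Fin.sum_univ_three, mz, Matrix.single, qQ]

theorem pP_a : pP (of (Sum.inr false) : L (Γ ⊕ Bool)) = 1 := by
  rw [pP, mm_of]
  simp [mz, Matrix.single]

theorem act_concat' {X : Type} {g : Type*} [LieRing g] (ζ : X → g) (w : List X) (x : X) (f : g) :
    act ζ (w ++ [x]) f = ⁅act ζ w f, ζ x⁆ := by
  simp [act]

theorem pP_act (w : List Γ) : ∀ f : L (Γ ⊕ Bool), pP (act of (up w) f) = pP f * wd w := by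
  induction w with
  | nil => intro f; rw [wd_nil, mul_one]; rfl
  | cons y w ih =>
    intro f
    have : act of (up (y :: w)) f = act of (up w) ⁅f, of (Sum.inl y)⁆ := rfl
    rw [this, ih, pP_y, wd_cons, mul_assoc]

theorem qQ_act (w : List Γ) : ∀ f : L (Γ ⊕ Bool),
    qQ (act of (up w) f) = ((-1 : ℤ) ^ w.length) • (wd w.reverse * qQ f) := by
  induction w with
  | nil => intro f; simp [wd_nil, up, act]
  | cons y w ih =>
    intro f
    have : act of (up (y :: w)) f = act of (up w) ⁅f, of (Sum.inl y)⁆ := rfl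
    rw [this, ih, qQ_y, List.reverse_cons, wd_append, wd_single, List.length_cons, pow_succ]
    simp [mul_assoc]

theorem mu_act_b (w : List Γ) (f : L (Γ ⊕ Bool)) :
    mu (act of (up w ++ [Sum.inr true]) f) = pP f * wd w := by
  rw [act_concat', mu_b, pP_act]

theorem mu_act_a (w : List Γ) (f : L (Γ ⊕ Bool)) :
    mu (act of (up w.reverse ++ [Sum.inr false]) f) = - (((-1 : ℤ) ^ w.length) • (wd w * qQ f)) := by
  rw [act_concat', mu_a, qQ_act, List.reverse_reverse, List.length_reverse]

theorem muh_hr (w : List Γ) (f : L (Γ ⊕ Bool)) :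
    muh (((-1 : ℤ) ^ w.length) • act of (up w.reverse ++ [Sum.inr false]) f) = - (wd w * qQ f) := by
  rw [map_zsmul, muh_apply, mu_act_a, smul_neg, smul_smul, ← mul_pow]
  simp

end STE

open STE in
theorem eqS_of_solv {Γ ρ : Type} [Fintype Γ] [Fintype ρ] (R : Rules Γ ρ) (F I : List Γ)
    (h : Solv (Aof R) (Gf F I)) : EqS R F I := by
  classical
  obtain ⟨h, hh⟩ := h
  have e1 : ∀ r, pP (h (Sum.inl (Sum.inr r))) = wd (R.ga r) * qQ (h (Sum.inl (Sum.inl r))) := by
    intro r
    have := congrArg muh (hh (some r))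
    rw [map_sum, Fintype.sum_sum_type, Fintype.sum_sum_type] at this
    simp only [Aof] at this
    rw [Finset.sum_eq_single r, Finset.sum_eq_single r] at this
    · rw [if_pos rfl, if_pos rfl, actL_cons, actL_cons, actL_nil, actL_nil, add_zero, add_zero,
        muh_hr, one_smul, muh_apply] at this
      have h2 : mu (act of [(Sum.inr true : Γ ⊕ Bool)] (h (Sum.inl (Sum.inr r)))) =
          pP (h (Sum.inl (Sum.inr r))) := mu_b _
      rw [h2] at this
      have h3 : ∑ x : Option ρ × Γ, muh (actL of (if x.1 = some r then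
          [((1 : ℤ), [(Sum.inl x.2 : Γ ⊕ Bool)])] else []) (h (Sum.inr x))) = 0 := by
        apply Finset.sum_eq_zero
        intro x _
        by_cases hx : x.1 = some r
        · rw [if_pos hx, actL_cons, actL_nil, add_zero, one_smul, muh_apply]
          exact mu_y _ _
        · rw [if_neg hx, actL_nil, map_zero]
      rw [h3] at this
      have h4 : muh (val of (Gf F I (some r)) : L (Γ ⊕ Bool)) = 0 := by
        simp [Gf, val]
      rw [h4, add_zero] at this
      rw [← sub_eq_zero, ← this]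
      abel
    · intro b _ hb
      rw [if_neg hb, actL_nil, map_zero]
    · intro hr; exact absurd (Finset.mem_univ r) hr
    · intro b _ hb
      rw [if_neg hb, actL_nil, map_zero]
    · intro hr; exact absurd (Finset.mem_univ r) hr
  refine ⟨fun r => qQ (h (Sum.inl (Sum.inl r))), ?_⟩
  have := congrArg muh (hh none)
  rw [map_sum, Fintype.sum_sum_type, Fintype.sum_sum_type] at this
  simp only [Aof] at this
  have h3 : ∑ x : Option ρ × Γ, muh (actL of (if x.1 = none then
      [((1 : ℤ), [(Sum.inl x.2 : Γ ⊕ Bool)])] else []) (h (Sum.inr x))) = 0 := by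
    apply Finset.sum_eq_zero
    intro x _
    by_cases hx : x.1 = none
    · rw [if_pos hx, actL_cons, actL_nil, add_zero, one_smul, muh_apply]
      exact mu_y _ _
    · rw [if_neg hx, actL_nil, map_zero]
  rw [h3, add_zero] at this
  have h4 : muh (val of (Gf F I (none : Option ρ)) : L (Γ ⊕ Bool)) = wd F - wd I := by
    simp only [Gf, val, List.map_cons, List.map_nil, List.sum_cons, List.sum_nil, add_zero,
      one_smul, neg_smul, map_add, map_neg, muh_apply, mu_act_b, pP_a, one_mul]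
    abel
  rw [h4] at this
  rw [← this, ← Finset.sum_add_distrib]
  refine Finset.sum_congr rfl fun r _ => ?_
  rw [actL_cons, actL_nil, add_zero, muh_hr, actL_cons, actL_nil, add_zero, one_smul, muh_apply,
    mu_act_b, e1]
  abel

end Pool.Agent.LA78
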