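import Pool.Agent.LA78.Eqn

/-!
# The element `Wof` of the system is nonzero
-/

set_option autoImplicit false

namespace Pool.Agent.LA78

theorem Wof_ne_zero {Γ ρ : Type} [Fintype Γ] [Fintype ρ] [Nonempty Γ] (R : Rules Γ ρ) :
    Wof (Aof R) ≠ 0 := by
  classical
  intro h0
  obtain ⟨y⟩ := ‹Nonempty Γ›
  let φ : L (((Γ ⊕ Bool) ⊕ Option ρ) ⊕ ((ρ ⊕ ρ) ⊕ (Option ρ × Γ))) →ₗ⁅ℚ⁆ L (Fin 3) :=
    llift (Sum.elim (Sum.elim (fun _ => of 1) (fun c => if c = none then of 2 else 0))
      (fun j => if j = Sum.inr (none, y) then of 0 else 0))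
  have hz : ∀ z, φ (zl z) = of 1 := fun z => llift_of _ _
  have hd : ∀ c, φ (dl c) = if c = none then of 2 else 0 := fun c => llift_of _ _
  have he : ∀ j, φ (el j) = if j = Sum.inr (none, y) then of 0 else 0 := fun j => llift_of _ _
  have h1 : φ (Wof (Aof R)) = ⁅⁅(of 0 : L (Fin 3)), (of 1 : L (Fin 3))⁆, (of 2 : L (Fin 3))⁆ := by
    rw [hom_Wof, Finset.sum_eq_single none]
    · rw [hd, if_pos rfl, Finset.sum_eq_single (Sum.inr (none, y))]
      · rw [he, if_pos rfl]
        simp only [Aof, if_true, actL_cons, actL_nil, add_zero, one_smul, hz]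
        rfl
      · intro j _ hj
        rw [he, if_neg hj, actL_zero]
      · intro h
        exact absurd (Finset.mem_univ _) h
    · intro c _ hc
      rw [hd, if_neg hc, lie_zero]
    · intro h
      exact absurd (Finset.mem_univ _) h
  rw [h0, map_zero] at h1
  have h2 := congrArg (fun f => cf (io f) [0, 1, 2]) h1
  simp only [map_zero, cf_zero, io_lie, io_of, ← wd_single, mul_sub, sub_mul, ← wd_append,
    cf_sub, cf_wd] at h2
  revert h2
  simp

end Pool.Agent.LA78
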