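import Pool.Agent.LA78.Codes
import Pool.Agent.LA78.IsoIff
import Pool.Agent.LA78.SysToEq
import Pool.Agent.LA78.EqToSys
import Pool.Agent.LA78.WNe
import Pool.Agent.LA78.Mach
import Pool.Agent.LA78.Prim
import Pool.Agent.NB.Halt

/-!
# The isomorphism problem for one-relator Lie algebras over `ℚ` is undecidable
-/

set_option autoImplicit false

namespace Pool.Agent.LA78

open Turing Turing.PartrecToTM2 Pool.Agent.NB

/-- Renaming the letters by an equivalence gives isomorphic algebras. -/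
theorem iso_rename {X Y : Type} (e : X ≃ Y) (r : L X) :
    Nonempty (OneRel r ≃ₗ⁅ℚ⁆ OneRel (llift (fun x => of (e x)) r)) := by
  let F : L X →ₗ⁅ℚ⁆ L Y := llift fun x => of (e x)
  let G : L Y →ₗ⁅ℚ⁆ L X := llift fun y => of (e.symm y)
  have hFG : ∀ y, F (G (of y)) = of y := by intro y; simp [F, G]
  have hGF : ∀ x, G (F (of x)) = of x := by intro x; simp [F, G]
  have h : G (F r) = r := by
    have h1 : G.comp F = LieHom.id := hom_ext fun x => hGF x
    exact LieHom.congr_fun h1 r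
  obtain ⟨φ, -⟩ := iso_of_maps F G hFG hGF (qm_self (F r)) (by rw [h]; exact qm_self r)
  exact ⟨φ⟩

/-- The value of a code over `Fin N`. -/
theorem iso_code {X : Type} [Fintype X] (K : Code X) :
    Nonempty (OneRel (val of K : L X) ≃ₗ⁅ℚ⁆
      OneRel (val of (mapC (Fintype.equivFin X) K) : L (Fin (Fintype.card X)))) := by
  have h := iso_rename (Fintype.equivFin X) (val of K : L X)
  have e : llift (fun x => of (Fintype.equivFin X x)) (val of K : L X) =
      (val of (mapC (Fintype.equivFin X) K) : L (Fin (Fintype.card X))) := by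
    rw [val_hom, val_mapC]
    simp
  rw [e] at h
  exact h

theorem mapC_mapC {X Y Z : Type} (f : X → Y) (g : Y → Z) (K : Code X) :
    mapC g (mapC f K) = mapC (fun x => g (f x)) K := by
  simp [mapC, Function.comp_def]

/-- What an algorithm as in the frozen statement decides, for codes over a finite alphabet. -/
theorem use_algorithm (f : (ℕ × List (ℤ × ℕ × List ℕ)) → (ℕ × List (ℤ × ℕ × List ℕ)) → Bool)
    (hf : ∀ (a b : ℕ × List (ℤ × ℕ × List ℕ))
        (r : FreeLieAlgebra ℚ (Fin a.1)) (s : FreeLieAlgebra ℚ (Fin b.1))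
        (I : LieIdeal ℚ (FreeLieAlgebra ℚ (Fin a.1)))
        (J : LieIdeal ℚ (FreeLieAlgebra ℚ (Fin b.1))),
        (FreeLieAlgebra.lift ℚ
            (fun i : Fin a.1 => FreeLieAlgebra.of ℚ (i : ℕ))) r =
          (a.2.map (fun t : ℤ × ℕ × List ℕ =>
            t.1 • t.2.2.foldl
              (fun (x : FreeLieAlgebra ℚ ℕ) (j : ℕ) => ⁅x, FreeLieAlgebra.of ℚ j⁆)
              (FreeLieAlgebra.of ℚ t.2.1))).sum →
        (FreeLieAlgebra.lift ℚ
            (fun i : Fin b.1 => FreeLieAlgebra.of ℚ (i : ℕ))) s =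
          (b.2.map (fun t : ℤ × ℕ × List ℕ =>
            t.1 • t.2.2.foldl
              (fun (x : FreeLieAlgebra ℚ ℕ) (j : ℕ) => ⁅x, FreeLieAlgebra.of ℚ j⁆)
              (FreeLieAlgebra.of ℚ t.2.1))).sum →
        I = LieSubmodule.lieSpan ℚ (FreeLieAlgebra ℚ (Fin a.1))
              ({r} : Set (FreeLieAlgebra ℚ (Fin a.1))) →
        J = LieSubmodule.lieSpan ℚ (FreeLieAlgebra ℚ (Fin b.1))
              ({s} : Set (FreeLieAlgebra ℚ (Fin b.1))) →
        (f a b = true ↔
          Nonempty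
            ((FreeLieAlgebra ℚ (Fin a.1) ⧸ I) ≃ₗ⁅ℚ⁆
              (FreeLieAlgebra ℚ (Fin b.1) ⧸ J)))) {X : Type} [Fintype X] (K K' : Code X) :
    f (Fintype.card X, mapC (fun x => (Fintype.equivFin X x : ℕ)) K)
        (Fintype.card X, mapC (fun x => (Fintype.equivFin X x : ℕ)) K') = true ↔
      Nonempty (OneRel (val of K : L X) ≃ₗ⁅ℚ⁆ OneRel (val of K' : L X)) := by
  have key : ∀ K : Code X, (FreeLieAlgebra.lift ℚ
      (fun i : Fin (Fintype.card X) => FreeLieAlgebra.of ℚ (i : ℕ)))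
        (val of (mapC (Fintype.equivFin X) K) : L (Fin (Fintype.card X))) =
      ((mapC (fun x => (Fintype.equivFin X x : ℕ)) K).map (fun t : ℤ × ℕ × List ℕ =>
            t.1 • t.2.2.foldl
              (fun (x : FreeLieAlgebra ℚ ℕ) (j : ℕ) => ⁅x, FreeLieAlgebra.of ℚ j⁆)
              (FreeLieAlgebra.of ℚ t.2.1))).sum := by
    intro K
    change llift (fun i : Fin (Fintype.card X) => of (i : ℕ)) _ =
      val of (mapC (fun x => (Fintype.equivFin X x : ℕ)) K)
    rw [val_hom, val_mapC, val_mapC]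
    simp
  rw [hf (Fintype.card X, mapC (fun x => (Fintype.equivFin X x : ℕ)) K)
        (Fintype.card X, mapC (fun x => (Fintype.equivFin X x : ℕ)) K')
        (val of (mapC (Fintype.equivFin X) K)) (val of (mapC (Fintype.equivFin X) K')) _ _
        (key K) (key K') rfl rfl]
  obtain ⟨φ⟩ := iso_code K
  obtain ⟨φ'⟩ := iso_code K'
  exact ⟨fun ⟨ψ⟩ => ⟨(φ.trans ψ).trans φ'.symm⟩, fun ⟨ψ⟩ => ⟨(φ.symm.trans ψ).trans φ'⟩⟩

theorem relC_concat {P J : Type} (z : Fin 4 → P) (R : List P) (V : Code (P ⊕ J))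
    (m : ℤ × (P ⊕ J) × List (P ⊕ J)) :
    relC z R (V ++ [m]) = relC z R V ++
      [(m.1, some m.2.1, (m.2.2 ++ R.map Sum.inl).map some ++ [none])] := by
  simp [relC, snocC, mapC, List.map_append]

theorem primrec_code (N : ℕ) (fixed : List (ℤ × ℕ × List ℕ)) (a : ℤ) (b : ℕ) (c₁ c₂ : List ℕ)
    (f : Γ' → ℕ) :
    Primrec fun n : ℕ => (N, fixed ++ [(a, b, c₁ ++ ((trList [n]).map f ++ c₂))]) := by
  refine Primrec.pair (Primrec.const N) ?_
  refine Primrec.list_append.comp (Primrec.const fixed) ?_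
  refine Primrec.list_cons.comp ?_ (Primrec.const [])
  refine Primrec.pair (Primrec.const a) (Primrec.pair (Primrec.const b) ?_)
  refine Primrec.list_append.comp (Primrec.const c₁) ?_
  exact Primrec.list_append.comp (primrec_input f) (Primrec.const c₂)

theorem undecidable (f : (ℕ × List (ℤ × ℕ × List ℕ)) → (ℕ × List (ℤ × ℕ × List ℕ)) → Bool)
    (hcomp : Computable₂ f)
    (hf : ∀ (a b : ℕ × List (ℤ × ℕ × List ℕ))
        (r : FreeLieAlgebra ℚ (Fin a.1)) (s : FreeLieAlgebra ℚ (Fin b.1))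
        (I : LieIdeal ℚ (FreeLieAlgebra ℚ (Fin a.1)))
        (J : LieIdeal ℚ (FreeLieAlgebra ℚ (Fin b.1))),
        (FreeLieAlgebra.lift ℚ
            (fun i : Fin a.1 => FreeLieAlgebra.of ℚ (i : ℕ))) r =
          (a.2.map (fun t : ℤ × ℕ × List ℕ =>
            t.1 • t.2.2.foldl
              (fun (x : FreeLieAlgebra ℚ ℕ) (j : ℕ) => ⁅x, FreeLieAlgebra.of ℚ j⁆)
              (FreeLieAlgebra.of ℚ t.2.1))).sum →
        (FreeLieAlgebra.lift ℚ
            (fun i : Fin b.1 => FreeLieAlgebra.of ℚ (i : ℕ))) s =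
          (b.2.map (fun t : ℤ × ℕ × List ℕ =>
            t.1 • t.2.2.foldl
              (fun (x : FreeLieAlgebra ℚ ℕ) (j : ℕ) => ⁅x, FreeLieAlgebra.of ℚ j⁆)
              (FreeLieAlgebra.of ℚ t.2.1))).sum →
        I = LieSubmodule.lieSpan ℚ (FreeLieAlgebra ℚ (Fin a.1))
              ({r} : Set (FreeLieAlgebra ℚ (Fin a.1))) →
        J = LieSubmodule.lieSpan ℚ (FreeLieAlgebra ℚ (Fin b.1))
              ({s} : Set (FreeLieAlgebra ℚ (Fin b.1))) →
        (f a b = true ↔
          Nonempty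
            ((FreeLieAlgebra ℚ (Fin a.1) ⧸ I) ≃ₗ⁅ℚ⁆
              (FreeLieAlgebra ℚ (Fin b.1) ⧸ J)))) : False := by
  classical
  obtain ⟨c, hc1, hc2⟩ := exists_halting_code
  have : Nonempty (GA c) := ⟨Sum.inr (Sum.inl K'.main)⟩
  let F : List (GA c) := qenc qfin (qfin_mem c)
  let I : ℕ → List (GA c) := fun n => qenc (qinit c n) (qinit_mem c n)
  let A := Aof (qrules c)
  have hW : Wof A ≠ 0 := Wof_ne_zero (qrules c)
  let z : Fin 4 → (GA c ⊕ Bool) ⊕ Option (RA c) :=
    ![Sum.inl (Sum.inr false), Sum.inl (Sum.inr true), Sum.inr none,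
      Sum.inl (Sum.inl (Sum.inr (Sum.inl K'.main)))]
  have hz : Function.Injective z := by
    intro i j hij
    fin_cases i <;> fin_cases j <;> simp [z] at hij ⊢
  obtain ⟨R, hR⟩ := iso_iff A hW z hz
  -- the codes
  let K : ℕ → Code (Option (((GA c ⊕ Bool) ⊕ Option (RA c)) ⊕
      ((RA c ⊕ RA c) ⊕ (Option (RA c) × GA c)))) :=
    fun n => relC z R (WC A ++ [monC 1 F, monC (-1) (I n)])
  let K₁ : Code (Option (((GA c ⊕ Bool) ⊕ Option (RA c)) ⊕
      ((RA c ⊕ RA c) ⊕ (Option (RA c) × GA c)))) := relC z R (WC A)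
  have hK : ∀ n, (val of (K n) : L _) = rr (wel z R (Wof A + Gof (Gf F (I n)))) := by
    intro n
    rw [val_relC, val_append, val_WC, val_monC]
  have hK₁ : (val of K₁ : L _) = rr (wel z R (Wof A)) := by
    rw [val_relC, val_WC]
  let num : Option (((GA c ⊕ Bool) ⊕ Option (RA c)) ⊕
      ((RA c ⊕ RA c) ⊕ (Option (RA c) × GA c))) → ℕ := fun x => (Fintype.equivFin _ x : ℕ)
  let code : ℕ → ℕ × List (ℤ × ℕ × List ℕ) := fun n => (Fintype.card (Option
    (((GA c ⊕ Bool) ⊕ Option (RA c)) ⊕ ((RA c ⊕ RA c) ⊕ (Option (RA c) × GA c)))),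
      mapC num (K n))
  let code' : ℕ × List (ℤ × ℕ × List ℕ) := (Fintype.card (Option
    (((GA c ⊕ Bool) ⊕ Option (RA c)) ⊕ ((RA c ⊕ RA c) ⊕ (Option (RA c) × GA c)))),
      mapC num K₁)
  have hdec : ∀ n, f (code n) code' = true ↔ (c.eval [n]).Dom := by
    intro n
    have h1 : f (code n) code' = true ↔ Nonempty (OneRel (val of (K n) : L _) ≃ₗ⁅ℚ⁆
        OneRel (val of K₁ : L _)) := use_algorithm f hf (K n) K₁
    rw [h1, hK, hK₁, hR (Gf F (I n)), ← machine_iff c hc2 n]
    exact ⟨eqS_of_solv (qrules c) F (I n), solv_of_eqS (qrules c) F (I n)⟩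
  -- computability of the codes
  have hcode : Computable code := by
    let pre : List (GA c) := [Sum.inl (⟨(qinit c 0).1, qinit_mem c 0⟩, false),
      Sum.inr (Sum.inl K'.main)]
    let post : List (GA c) := [Sum.inr (Sum.inl K'.rev), Sum.inr (Sum.inl K'.aux),
      Sum.inr (Sum.inl K'.stack)]
    let up2 : GA c → Option (((GA c ⊕ Bool) ⊕ Option (RA c)) ⊕
      ((RA c ⊕ RA c) ⊕ (Option (RA c) × GA c))) :=
        fun x => some (Sum.inl (Sum.inl (Sum.inl x)))
    have e : code = fun n => (Fintype.card (Option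
        (((GA c ⊕ Bool) ⊕ Option (RA c)) ⊕ ((RA c ⊕ RA c) ⊕ (Option (RA c) × GA c)))),
        mapC num (relC z R (WC A ++ [monC 1 F])) ++
          [((-1 : ℤ), num (some (Sum.inl (Sum.inl (Sum.inr false)))),
            (pre.map fun x => num (up2 x)) ++
              ((trList [n]).map (fun a => num (up2 (Sum.inr (Sum.inr a)))) ++
              ((post.map fun x => num (up2 x)) ++
                [num (some (Sum.inl (Sum.inl (Sum.inr true)))),
                  num (some (Sum.inl (Sum.inr none)))] ++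
                (R.map fun p => num (some (Sum.inl p))) ++ [num none])))]) := by
      funext n
      have e1 : WC A ++ [monC 1 F, monC (-1) (I n)] = (WC A ++ [monC 1 F]) ++ [monC (-1) (I n)] := by
        simp
      have e2 : I n = pre ++ (trList [n]).map (fun a => Sum.inr (Sum.inr a)) ++ post :=
        qenc_qinit c n
      simp only [code, K]
      rw [e1, relC_concat, e2]
      simp [mapC, monC, up, up2, pre, post, List.map_append, Function.comp_def]
    rw [e]
    exact (primrec_code _ _ _ _ _ _ _).to_comp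
  apply hc1
  have h2 : ComputablePred fun n : ℕ => f (code n) code' = true := by
    refine ComputablePred.computable_iff.2 ⟨fun n => f (code n) code', ?_, rfl⟩
    exact hcomp.comp hcode (Computable.const code')
  exact h2.of_eq hdec

end Pool.Agent.LA78
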