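import Pool.Agent.LA78.Embed
import Pool.Agent.LA78.Lyn

/-!
# A divisibility lemma in the free associative algebra

PROOF. All leads are for the weight zero, so by length first.
`reduce`: if the lead of `u` is `W ++ V` (where `W` is the lead of `w`) then
`u - (cf u (W ++ V) / cf w W) • (w * wd V)` is zero or has a strictly `kle`-smaller lead. `kle`
(weight zero) on words over a finite alphabet is well-founded (finitely many words of each
length; e.g. induction on the length and then on the number of words of this length which are
`lle`-larger). So the process stops with `u - w * g` zero or with a lead which does not have the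
prefix `W`.
`two_div`: by `reduce` choose `g'` such that `u' = u - io w * g'` is zero or has a lead not
divisible by `W = lead (io w)` on the left; the constant term is unchanged (`cf_io_nil`) so
`u' ≠ 0`; still `u' * io β = io w * g₁`. In the same way `v' * io w = io β * h₁` with the lead of
`v'` not having the prefix `B = lead (io β)`. With `P = lead u'`, `P ++ B = W ++ lead g₁`. As `W` is
not a prefix of `P`, `P` is a proper prefix of `W`: `W = P ++ T`, `T ≠ []`, and then
`B = T ++ lead g₁`. In the same way `B = P' ++ T'`, `T' ≠ []`, `W = T' ++ lead h₁`. By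
`lead_suffix`: `W ≤ T` (suffix), `T ≤ B` (prefix), `B ≤ T'` (suffix), `T' ≤ W` (prefix). So
`T = W`, `P = []`, and in the same way `P' = []`. A nonzero element whose lead is the empty word is
a nonzero constant (`kle` with weight zero: the empty word is the smallest one). So `β` is in
`w * U`, `w` is in `β * U`: `io β = io w * g₂`, `io w = io β * h₂`, so
`io w * (g₂ * h₂ - 1) = 0`, `g₂ * h₂ = 1` (no zero divisors), so `g₂` and `h₂` have lead `[]` and are
constants. Then `β = c • w` by injectivity of `io`.
-/

set_option autoImplicit false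

namespace Pool.Agent.LA78

private theorem td_isLead_wd {X : Type} [LinearOrder X] (V : List X) :
    IsLead (fun _ => 0) (wd V) V := by
  classical
  refine ⟨?_, ?_⟩
  · rw [cf_wd, if_pos rfl]
    exact one_ne_zero
  · intro w hw
    rw [cf_wd] at hw
    by_cases h : V = w
    · rw [h]; exact kle_refl _ _
    · rw [if_neg h] at hw
      exact absurd rfl hw

private theorem td_finite {X : Type} [LinearOrder X] [Finite X] (V : List X) :
    {v : List X | kle (fun _ => 0) v V}.Finite := by
  refine (List.finite_length_le X V.length).subset ?_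
  intro v hv
  have h0 : ∀ z : List X, wsum (fun _ => 0) z = 0 := by
    intro z
    simp [wsum]
  rcases hv with hv | ⟨_, hv | ⟨hv, _⟩⟩
  · rw [h0, h0] at hv
    exact absurd hv (lt_irrefl _)
  · exact hv.le
  · exact hv.le

theorem reduce {X : Type} [LinearOrder X] [Finite X] {w : U X} {W : List X}
    (hW : IsLead (fun _ => 0) w W) (u : U X) :
    ∃ g : U X, ∀ V, IsLead (fun _ => 0) (u - w * g) V → ¬ W <+: V := by
  have key : ∀ n : ℕ, ∀ u : U X,
      (∀ V, IsLead (fun _ => 0) u V → {v : List X | kle (fun _ => 0) v V}.ncard ≤ n) →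
      ∃ g : U X, ∀ V, IsLead (fun _ => 0) (u - w * g) V → ¬ W <+: V := by
    intro n
    induction n with
    | zero =>
      intro u hu
      refine ⟨0, fun V hV => ?_⟩
      rw [mul_zero, sub_zero] at hV
      have h1 := hu V hV
      have h2 : {v : List X | kle (fun _ => 0) v V}.ncard = 0 := Nat.le_zero.1 h1
      rw [Set.ncard_eq_zero (td_finite V)] at h2
      have h3 : V ∈ {v : List X | kle (fun _ => 0) v V} := kle_refl _ _
      rw [h2] at h3
      exact absurd h3 (Set.notMem_empty _)
    | succ n ih =>
      intro u hu
      by_cases hex : ∃ V, IsLead (fun _ => 0) u V ∧ W <+: V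
      · obtain ⟨V, hV, V', rfl⟩ := hex
        set c : ℚ := cf u (W ++ V') / cf w W with hc
        have hm : IsLead (fun _ => 0) (w * wd V') (W ++ V') := hW.mul (td_isLead_wd V')
        have hmc : cf (w * wd V') (W ++ V') = cf w W := by
          classical
          rw [hW.coeff_mul (td_isLead_wd V'), cf_wd, if_pos rfl, mul_one]
        obtain ⟨g, hg⟩ := ih (u - w * (c • wd V')) (by
          intro Z hZ
          have hz : cf u Z ≠ 0 ∨ cf (w * wd V') Z ≠ 0 := by
            by_contra hcon
            push Not at hcon
            apply hZ.1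
            rw [cf_sub, mul_smul_comm, cf_smul, hcon.1, hcon.2]
            ring
          have hle : kle (fun _ => 0) Z (W ++ V') := by
            rcases hz with h | h
            · exact hV.2 Z h
            · exact hm.2 Z h
          have hne : Z ≠ W ++ V' := by
            intro h
            apply hZ.1
            rw [h, cf_sub, mul_smul_comm, cf_smul, hmc, hc, div_mul_cancel₀ _ hW.1, sub_self]
          have hlt : {v : List X | kle (fun _ => 0) v Z}.ncard <
              {v : List X | kle (fun _ => 0) v (W ++ V')}.ncard := by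
            apply Set.ncard_lt_ncard _ (td_finite _)
            refine ⟨fun v hv => kle_trans hv hle, fun hcon => ?_⟩
            exact hne (kle_antisymm hle (hcon (kle_refl (fun _ => 0) (W ++ V'))))
          have := hu _ hV
          omega)
        refine ⟨c • wd V' + g, ?_⟩
        have e : u - w * (c • wd V' + g) = u - w * (c • wd V') - w * g := by
          rw [mul_add]; abel
        rw [e]
        exact hg
      · refine ⟨0, fun V hV hp => hex ⟨V, ?_, hp⟩⟩
        rw [mul_zero, sub_zero] at hV
        exact hV
  by_cases hu : u = 0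
  · refine key 0 u fun V hV => ?_
    rw [hu] at hV
    exact absurd rfl hV.ne_zero
  · obtain ⟨V, hV⟩ := exists_lead (fun _ => 0) hu
    refine key {v : List X | kle (fun _ => 0) v V}.ncard u fun V' hV' => ?_
    rw [hV'.unique hV]

private theorem td_const {X : Type} [LinearOrder X] {u : U X}
    (h : IsLead (fun _ => 0) u []) : u = cf u [] • (1 : U X) := by
  classical
  apply cf_ext
  intro z
  rw [cf_smul, cf_one]
  by_cases hz : z = []
  · rw [if_pos hz, hz, mul_one]
  · rw [if_neg hz, mul_zero]
    by_contra hne
    rcases h.2 z hne with h1 | ⟨_, h1 | ⟨h1, _⟩⟩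
    · simp [wsum] at h1
    · simp at h1
    · exact hz (List.length_eq_zero_iff.1 h1)

private theorem td_half {X : Type} [LinearOrder X] [Finite X] {β w : L X} {W B : List X}
    (hW : IsLead (fun _ => 0) (io w) W) (hB : IsLead (fun _ => 0) (io β) B) {u g : U X}
    (hu : cf u [] ≠ 0) (h1 : u * io β = io w * g) :
    ∃ (u' g' : U X) (P G T : List X), u' * io β = io w * g' ∧ IsLead (fun _ => 0) u' P ∧
      IsLead (fun _ => 0) g' G ∧ T ≠ [] ∧ W = P ++ T ∧ B = T ++ G := by
  obtain ⟨g0, hg0⟩ := reduce hW u
  have e1 : (u - io w * g0) * io β = io w * (g - g0 * io β) := by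
    rw [sub_mul, h1, mul_sub, mul_assoc]
  have hc : cf (u - io w * g0) [] ≠ 0 := by
    rw [cf_sub, cf_mul_nil, cf_io_nil, zero_mul, sub_zero]
    exact hu
  have hne : u - io w * g0 ≠ 0 := by
    intro h
    rw [h] at hc
    exact hc rfl
  obtain ⟨P, hP⟩ := exists_lead (fun _ => 0) hne
  have hgne : g - g0 * io β ≠ 0 := by
    intro h
    rw [h, mul_zero] at e1
    exact mul_ne_zero' hne hB.ne_zero e1
  obtain ⟨G, hG⟩ := exists_lead (fun _ => 0) hgne
  have e2 : P ++ B = W ++ G := by
    have l1 := hP.mul hB
    rw [e1] at l1
    exact l1.unique (hW.mul hG)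
  have hnp := hg0 P hP
  rcases List.append_eq_append_iff.1 e2 with ⟨T, hT1, hT2⟩ | ⟨T, hT1, hT2⟩
  · refine ⟨_, _, P, G, T, e1, hP, hG, ?_, hT1, hT2⟩
    rintro rfl
    rw [List.append_nil] at hT1
    exact hnp (by rw [hT1])
  · exact absurd ⟨T, hT1.symm⟩ hnp

theorem two_div {X : Type} [Finite X] {β w : L X} (hβ : β ≠ 0) (hw : w ≠ 0) {u v g h : U X}
    (hu : cf u [] ≠ 0) (hv : cf v [] ≠ 0) (h1 : u * io β = io w * g)
    (h2 : v * io w = io β * h) : ∃ c : ℚ, c ≠ 0 ∧ β = c • w := by
  classical
  let _ : LinearOrder X := linearOrderOfSTO (WellOrderingRel (α := X))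
  have hβ' : io β ≠ 0 := fun hcon => hβ (io_injective (by rw [hcon, map_zero]))
  have hw' : io w ≠ 0 := fun hcon => hw (io_injective (by rw [hcon, map_zero]))
  obtain ⟨W, hW⟩ := exists_lead (fun _ => 0) hw'
  obtain ⟨B, hB⟩ := exists_lead (fun _ => 0) hβ'
  obtain ⟨u', g', P, G, T, e1, hP, hG, hT, hWP, hBT⟩ := td_half hW hB hu h1
  obtain ⟨v', h', P', H, T', _, _, _, hT', hBP, hWT⟩ := td_half hB hW hv h2
  have a1 : lle W T := lead_suffix hW T hT (by rw [hWP]; exact List.suffix_append _ _)
  have a2 : lle T B := lle_prefix (by rw [hBT]; exact List.prefix_append _ _)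
  have a3 : lle B T' := lead_suffix hB T' hT' (by rw [hBP]; exact List.suffix_append _ _)
  have a4 : lle T' W := lle_prefix (by rw [hWT]; exact List.prefix_append _ _)
  have b1 : W = T := lle_antisymm a1 (lle_trans a2 (lle_trans a3 a4))
  have b2 : B = T' := lle_antisymm a3 (lle_trans a4 (lle_trans a1 a2))
  have hP0 : P = [] := by
    have := congrArg List.length hWP
    rw [← b1, List.length_append] at this
    exact List.length_eq_zero_iff.1 (by omega)
  have hG0 : G = [] := by
    have l1 := congrArg List.length hBT
    have l2 := congrArg List.length hWT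
    rw [← b1, List.length_append] at l1
    rw [← b2, List.length_append] at l2
    exact List.length_eq_zero_iff.1 (by omega)
  rw [hP0] at hP
  rw [hG0] at hG
  have c1 := td_const hP
  have c2 := td_const hG
  have hp1 := hP.1
  have hp2 := hG.1
  refine ⟨cf g' [] / cf u' [], div_ne_zero hp2 hp1, ?_⟩
  apply io_injective
  rw [c1, c2, smul_mul_assoc, one_mul, mul_smul_comm, mul_one] at e1
  rw [map_smul, div_eq_inv_mul, mul_smul, ← e1, smul_smul, inv_mul_cancel₀ hp1, one_smul]

end Pool.Agent.LA78
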