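import Pool.Agent.LA78.Norm
import Pool.Agent.LA78.DMap
import Pool.Agent.LA78.TwoDiv

/-!
# An isomorphism of the one-relator algebras with relators `[w, κ]` and `[w', κ]` gives an
automorphism of `L Y` which maps `w` to a multiple of `w'`

PROOF. `normalize` gives `φ` with `prjq w' (φ (qm κ)) = 0`, `symm_kap` the same for `φ.symm`.
Let `Θ f = prjq w' (φ (qm (rr w) (inc f)))`, `Θ' f = prjq w (φ.symm (qm (rr w') (inc f)))`; they
are inverse to each other by `theta_inv` for `φ` and `φ.symm`. Choose lifts `Φ` of `φ`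
(`Φ = llift` of chosen preimages under `qm (rr w')` of `φ (qm (rr w) (of x))`, then
`qm (rr w') (Φ f) = φ (qm (rr w) f)` for all `f`) and `Φ'` of `φ.symm`.
`qm (rr w') (Φ (rr w)) = φ 0 = 0`, `prj (Φ κ) = prjq w' (qm (Φ κ)) = 0`,
`prj (Φ (inc f)) = Θ f`. `dmap` gives `u * io (Θ w) = io w' * g`, and `cf u [] ≠ 0` by
`kap_coeff_ne`. In the same way `v * io (Θ' w') = io w * g'`, `cf v [] ≠ 0`. Apply the algebra
homomorphism `ulift (fun y => io (Θ (of y)))` (`io_hom`) to the last equation: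
`v₁ * io w' = io (Θ w) * g₁` with `v₁ = ulift _ v`, whose constant term is `cf v []`
(substitution by elements without constant term). `two_div` with `β = Θ w`, `w'` gives the claim;
`Θ w ≠ 0` because `w ≠ 0` (from `hw` with `θ` e.g. `prj`) and `Θ` is injective.
-/

set_option autoImplicit false

namespace Pool.Agent.LA78

/-- The constant term of a substitution. -/
theorem cf_ulift_nil {X Y : Type} (ζ : X → U Y) (hζ : ∀ x, cf (ζ x) [] = 0) (f : U X) :
    cf (ulift ζ f) [] = cf f [] := by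
  classical
  have h : (cfl ([] : List Y)).comp (ulift ζ).toLinearMap = cfl ([] : List X) := by
    apply lin_ext
    intro w
    simp only [LinearMap.comp_apply, cfl_apply, AlgHom.toLinearMap_apply]
    cases w with
    | nil => rw [wd_nil, map_one, cf_one_nil, cf_one_nil]
    | cons x w =>
      rw [wd_cons, map_mul, cf_mul_nil, ulift_uof, hζ, zero_mul, cf_uof_mul_nil]
  exact LinearMap.congr_fun h f

/-- A lift of a homomorphism of quotients. -/
theorem exists_lift {X Y : Type} (r : L X) (s : L Y) (φ : OneRel r →ₗ⁅ℚ⁆ OneRel s) :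
    ∃ Φ : L X →ₗ⁅ℚ⁆ L Y, ∀ f, qm s (Φ f) = φ (qm r f) := by
  choose F hF using fun x : X => qm_surjective s (φ (qm r (of x)))
  refine ⟨llift F, fun f => ?_⟩
  have h : (qm s).comp (llift F) = φ.comp (qm r) := by
    apply hom_ext
    intro x
    rw [LieHom.comp_apply, LieHom.comp_apply, llift_of, hF]
  exact LieHom.congr_fun h f

theorem iso_core {Y : Type} [Fintype Y] (w w' : L Y) (hw' : w' ≠ 0)
    (hw : ∀ θ : L (Option Y) →ₗ⁅ℚ⁆ L Y, Function.Surjective θ → θ (inc w) ≠ 0)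
    (φ : OneRel (rr w) ≃ₗ⁅ℚ⁆ OneRel (rr w')) :
    ∃ (Θ : L Y →ₗ⁅ℚ⁆ L Y) (δ : ℚ), Function.Injective Θ ∧ δ ≠ 0 ∧ Θ w = δ • w' := by
  obtain ⟨φ, hφ⟩ := normalize w w' hw φ
  have hφ' := symm_kap w w' hw' φ hφ
  have hw0 : w ≠ 0 := by
    rintro rfl
    exact hw prj (fun f => ⟨inc f, prj_inc f⟩) (by simp)
  let Θ : L Y →ₗ⁅ℚ⁆ L Y :=
    (prjq w').comp ((φ : OneRel (rr w) →ₗ⁅ℚ⁆ OneRel (rr w')).comp ((qm (rr w)).comp inc))
  let Θ' : L Y →ₗ⁅ℚ⁆ L Y :=
    (prjq w).comp ((φ.symm : OneRel (rr w') →ₗ⁅ℚ⁆ OneRel (rr w)).comp ((qm (rr w')).comp inc))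
  have h1 : ∀ f, Θ (Θ' f) = f := theta_inv w w' φ hφ
  have h2 : ∀ f, Θ' (Θ f) = f := by
    intro f
    exact theta_inv w' w φ.symm hφ' f
  have hinj : Function.Injective Θ := fun f g h => by rw [← h2 f, h, h2]
  obtain ⟨Φ, hΦ⟩ := exists_lift (rr w) (rr w') (φ : OneRel (rr w) →ₗ⁅ℚ⁆ OneRel (rr w'))
  obtain ⟨Φ', hΦ'⟩ := exists_lift (rr w') (rr w) (φ.symm : OneRel (rr w') →ₗ⁅ℚ⁆ OneRel (rr w))
  have hΘ : ∀ f, prj (Φ (inc f)) = Θ f := fun f => by
    rw [← prjq_qm w', hΦ]; rfl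
  have hΘ' : ∀ f, prj (Φ' (inc f)) = Θ' f := fun f => by
    rw [← prjq_qm w, hΦ']; rfl
  have hk : prj (Φ kap) = 0 := by rw [← prjq_qm w', hΦ]; exact hφ
  have hk' : prj (Φ' kap) = 0 := by rw [← prjq_qm w, hΦ']; exact hφ'
  obtain ⟨u, g, hu, hu0⟩ := dmap w w' Φ (by rw [hΦ, qm_self, map_zero]) hk
  obtain ⟨v, g', hv, hv0⟩ := dmap w' w Φ' (by rw [hΦ', qm_self, map_zero]) hk'
  have hc : cf (io (Φ kap)) [none] ≠ 0 := by
    refine kap_coeff_ne w w' Φ Φ' hk ?_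
    rw [hΦ', hΦ]
    exact φ.symm_apply_apply _
  have hc' : cf (io (Φ' kap)) [none] ≠ 0 := by
    refine kap_coeff_ne w' w Φ' Φ hk' ?_
    rw [hΦ, hΦ']
    exact φ.apply_symm_apply _
  rw [hΘ] at hu
  rw [hΘ'] at hv
  have hv2 := congrArg (ulift fun y => io (Θ (of y))) hv
  rw [map_mul, map_mul, ← io_hom Θ, ← io_hom Θ, h1] at hv2
  obtain ⟨c, hc0, hcw⟩ := two_div (β := Θ w) (w := w') (by
      intro h
      apply hw0
      apply hinj
      rw [h, map_zero]) hw' (by rw [hu0]; exact hc)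
    (by
      rw [cf_ulift_nil _ (fun y => cf_io_nil _), hv0]
      exact hc') hu hv2
  exact ⟨Θ, c, hinj, hc0, hcw⟩

end Pool.Agent.LA78
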