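import Pool.Agent.LA78.Words

/-!
# Merges of words

`Mg u v w` says that `w` is a merge (shuffle) of `u` and `v` (defined in `Defs`).

PROOFS.
`merge_swap` (for words `p` and `y ≤ x`: each merge of `px` and `y` is `≤` some merge of `x` and
`py`): induction on `|p| + |x| + |y|`. `p = []`: take the same word. Let `p = a p'`. If `w = a w'`
takes its first letter from `px`, then `w'` is a merge of `p'x` and `y`; by induction there is a
merge `w'*` of `x` and `p'y` with `w' ≤ w'*`; `a w'*` is a merge of `x` and `a p' y`. If `w = c w'`
takes its first letter from `y = c y'`, then `x = e x'` and `c < e`, or `c = e` and `y' ≤ x'`. If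
`c < e`: any merge of `x` and `py` which starts with `e` (e.g. `x ++ py`) is larger. If `c = e`:
`w'` is a merge of `(pc)x'` and `y'`; by induction with `pc` there is a merge `w'*` of `x'` and
`(pc)y' = p y` with `w' ≤ w'*`; and `c w'*` is a merge of `x` and `py`.

`merge_le`: induction on `|u| + |v|`. If `u = []` or `v = []` the merge is `u ++ v`. Let
`u = z u'`, `v = y v'`. If `w = z w'` from the left: induction for `u'`, `v` (suffixes of `u'` are
suffixes of `u`). If `w = y w'` from the right: `v ≤ u` (take `s = u`), so `y < z` (done) or
`y = z`, `v' ≤ u'`; `w'` is a merge of `[z] u'` and `v'`, by `merge_swap` (`p = [z]`, `x = u'`)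
it is `≤` a merge of `u'` and `z v' = v`, which is `≤ u' ++ v` by induction. So
`w ≤ z :: (u' ++ v)`.

`suffix_ge`: let `s` be a nonempty suffix of `u`. Then `s ++ v` is a suffix of `u ++ v`, so
`v ≤ s ++ v`. If not `v ≤ s` then `s < v` by totality; either `s` is a proper prefix of `v`,
`v = s v'` with `v'` nonempty, so `s v' ≤ s v` gives `v' ≤ v` (`lle_append_left_iff`), but
`v ≤ v'` by minimality, so `v = v'`, contradiction to the lengths; or `s` and `v` differ at some
place, `s < v` there, and then `s ++ v < v`, contradiction. (Write it as an induction along the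
common prefix if convenient.)
-/

set_option autoImplicit false

namespace Pool.Agent.LA78

variable {X : Type}

theorem Mg.length {u v w : List X} (h : Mg u v w) : w.length = u.length + v.length := by
  induction h with
  | nil => rfl
  | left _ ih => simp only [List.length_cons, ih]; omega
  | right _ ih => simp only [List.length_cons, ih]; omega

theorem Mg.wsum {u v w : List X} (wt : X → ℕ) (h : Mg u v w) :
    wsum wt w = LA78.wsum wt u + LA78.wsum wt v := by
  induction h with
  | nil => rfl
  | left _ ih => simp only [wsum_cons]; omega
  | right _ ih => simp only [wsum_cons]; omega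

theorem Mg.append (u v : List X) : Mg u v (u ++ v) := by
  induction u with
  | nil =>
    induction v with
    | nil => exact Mg.nil
    | cons a v ih => exact Mg.right ih
  | cons a u ih => exact Mg.left ih

theorem merge_swap [LinearOrder X] (p x y w : List X) (h : lle y x) (hw : Mg (p ++ x) y w) :
    ∃ w', Mg x (p ++ y) w' ∧ lle w w' := by
  induction w generalizing p x y with
  | nil =>
    have hl := hw.length
    simp only [List.length_nil, List.length_append] at hl
    have h1 : p = [] := List.length_eq_zero_iff.1 (by omega)
    subst h1
    exact ⟨[], hw, lle_refl _⟩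
  | cons d w ih =>
    cases p with
    | nil => exact ⟨_, hw, lle_refl _⟩
    | cons a p =>
      rw [List.cons_append] at hw
      cases hw with
      | left hw =>
        obtain ⟨w', h1, h2⟩ := ih p x y h hw
        exact ⟨_, Mg.right h1, Or.inr ⟨rfl, h2⟩⟩
      | @right _ _ y' _ hw =>
        cases x with
        | nil => exact h.elim
        | cons e x' =>
          rcases h with h | ⟨rfl, h⟩
          · exact ⟨_, Mg.append _ _, Or.inl h⟩
          · obtain ⟨w', h1, h2⟩ := ih (a :: p ++ [d]) x' y' h (by simpa using hw)
            refine ⟨d :: w', Mg.left ?_, Or.inr ⟨rfl, h2⟩⟩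
            simpa using h1

theorem merge_le [LinearOrder X] (u v w : List X) (h : ∀ s, s ≠ [] → s <:+ u → lle v s)
    (hw : Mg u v w) : lle w (u ++ v) := by
  obtain ⟨n, hn⟩ : ∃ n, w.length = n := ⟨_, rfl⟩
  induction n generalizing u v w with
  | zero =>
    have : w = [] := List.length_eq_zero_iff.1 hn
    subst this
    trivial
  | succ n ih =>
    cases hw with
    | nil => simp at hn
    | @left a u' _ w' hw =>
      refine Or.inr ⟨rfl, ih u' v w' (fun s hs hs2 => h s hs (hs2.trans (List.suffix_cons a u'))) hw
        (by simpa using hn)⟩
    | @right a _ v' w' hw =>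
      have hn' : w'.length = n := by simpa using hn
      cases u with
      | nil =>
        refine Or.inr ⟨rfl, ?_⟩
        have := ih [] v' w' (fun s hs hs2 => (hs (List.suffix_nil.1 hs2)).elim) hw hn'
        simpa using this
      | cons z u' =>
        have h0 : lle (a :: v') (z :: u') := h _ (by simp) (List.suffix_refl _)
        rcases h0 with h0 | ⟨rfl, h0⟩
        · exact Or.inl h0
        · obtain ⟨w'', h1, h2⟩ := merge_swap [a] u' v' w' h0 hw
          refine Or.inr ⟨rfl, lle_trans h2 (ih u' (a :: v') w'' (fun s hs hs2 =>
            h s hs (hs2.trans (List.suffix_cons a u'))) h1 ?_)⟩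
          have e1 := h1.length
          have e2 := hw.length
          simp only [List.length_append, List.length_cons, List.length_nil] at e1 e2
          omega

theorem lle_split [LinearOrder X] (v s t : List X) (h : lle v (s ++ t)) :
    lle v s ∨ ∃ v', v = s ++ v' ∧ lle v' t := by
  induction s generalizing v with
  | nil => exact Or.inr ⟨v, rfl, h⟩
  | cons a s ih =>
    cases v with
    | nil => exact Or.inl trivial
    | cons b v =>
      rcases h with h | ⟨rfl, h⟩
      · exact Or.inl (Or.inl h)
      · rcases ih v h with h1 | ⟨v', h1, h2⟩
        · exact Or.inl (Or.inr ⟨rfl, h1⟩)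
        · exact Or.inr ⟨v', by rw [h1]; rfl, h2⟩

theorem suffix_ge [LinearOrder X] (u v : List X) (hv : v ≠ [])
    (hmin : ∀ s, s ≠ [] → s <:+ u ++ v → lle v s) : ∀ s, s ≠ [] → s <:+ u → lle v s := by
  intro s hs hsu
  have hsv : s ++ v <:+ u ++ v := by
    obtain ⟨t, rfl⟩ := hsu
    exact ⟨t, by simp⟩
  have h1 : lle v (s ++ v) := hmin _ (by simp [hv]) hsv
  rcases lle_split v s v h1 with h2 | ⟨v', h2, h3⟩
  · exact h2
  · by_cases hv' : v' = []
    · subst hv'
      rw [List.append_nil] at h2
      rw [h2]
      exact lle_refl _
    · have h4 : v' <:+ u ++ v := by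
        refine (List.suffix_append s v').trans ?_
        rw [← h2]
        exact List.suffix_append u v
      have h5 := hmin v' hv' h4
      have h6 : v' = v := lle_antisymm h3 h5
      exfalso
      apply hs
      have h7 := congrArg List.length h2
      rw [h6] at h7
      simp only [List.length_append] at h7
      exact List.length_eq_zero_iff.1 (by omega)

end Pool.Agent.LA78
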