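import Pool.Agent.LA78.Basic

/-!
# One-relator Lie algebras: maps
-/

set_option autoImplicit false

namespace Pool.Agent.LA78

variable {X Y : Type}

/-- The quotient map. -/
noncomputable def qm (r : L X) : L X →ₗ⁅ℚ⁆ OneRel r :=
  { (LieSubmodule.Quotient.mk' (LieSubmodule.lieSpan ℚ (L X) ({r} : Set (L X))) :
      L X →ₗ[ℚ] OneRel r) with
    map_lie' := fun {_ _} => rfl }

theorem qm_surjective (r : L X) : Function.Surjective (qm r) :=
  LieSubmodule.Quotient.surjective_mk' _

theorem qm_eq_zero {r f : L X} :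
    qm r f = 0 ↔ f ∈ LieSubmodule.lieSpan ℚ (L X) ({r} : Set (L X)) :=
  LieSubmodule.Quotient.mk_eq_zero _

theorem qm_self (r : L X) : qm r r = 0 :=
  qm_eq_zero.2 (LieSubmodule.subset_lieSpan (Set.mem_singleton r))

/-- Induction on the ideal generated by `r`. -/
theorem ideal_ind {r : L X} {P : L X → Prop} (hr : P r) (h0 : P 0)
    (hadd : ∀ f g, P f → P g → P (f + g)) (hsmul : ∀ (c : ℚ) f, P f → P (c • f))
    (hlie : ∀ f g : L X, P g → P ⁅f, g⁆) {f : L X} (hf : qm r f = 0) : P f := by
  let I : LieIdeal ℚ (L X) :=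
    { carrier := {f | P f}
      add_mem' := fun {a b} ha hb => hadd a b ha hb
      zero_mem' := h0
      smul_mem' := fun c {x} hx => hsmul c x hx
      lie_mem := fun {a b} hb => hlie a b hb }
  have h1 : LieSubmodule.lieSpan ℚ (L X) ({r} : Set (L X)) ≤ I := by
    rw [LieSubmodule.lieSpan_le]
    intro y hy
    rw [Set.mem_singleton_iff] at hy
    rw [hy]
    exact hr
  exact h1 (qm_eq_zero.1 hf)

/-- A homomorphism which kills `r` kills the ideal generated by `r`. -/
theorem kill {g : Type*} [LieRing g] [LieAlgebra ℚ g] {r : L X} (F : L X →ₗ⁅ℚ⁆ g) (h : F r = 0)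
    {f : L X} (hf : qm r f = 0) : F f = 0 := by
  refine ideal_ind (P := fun f => F f = 0) h (map_zero F) ?_ ?_ ?_ hf
  · intro f g hf hg; rw [map_add, hf, hg, add_zero]
  · intro c f hf; rw [map_smul, hf, smul_zero]
  · intro f g hg; rw [LieHom.map_lie, hg, lie_zero]

/-- The homomorphism induced on the quotient. -/
noncomputable def qd {g : Type*} [LieRing g] [LieAlgebra ℚ g] {r : L X} (F : L X →ₗ⁅ℚ⁆ g)
    (h : F r = 0) : OneRel r →ₗ⁅ℚ⁆ g :=
  { Submodule.liftQ (LieSubmodule.lieSpan ℚ (L X) ({r} : Set (L X))).toSubmodule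
      (F : L X →ₗ[ℚ] g) (fun _ hx => kill F h (qm_eq_zero.2 hx)) with
    map_lie' := by
      intro x y
      obtain ⟨x, rfl⟩ := qm_surjective r x
      obtain ⟨y, rfl⟩ := qm_surjective r y
      exact F.map_lie x y }

@[simp] theorem qd_qm {g : Type*} [LieRing g] [LieAlgebra ℚ g] {r : L X} (F : L X →ₗ⁅ℚ⁆ g)
    (h : F r = 0) (f : L X) : qd F h (qm r f) = F f := rfl

theorem qhom_ext {g : Type*} [LieRing g] [LieAlgebra ℚ g] {r : L X} {F G : OneRel r →ₗ⁅ℚ⁆ g}
    (h : ∀ x, F (qm r (of x)) = G (qm r (of x))) : F = G := by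
  have h1 : F.comp (qm r) = G.comp (qm r) := hom_ext h
  ext x
  obtain ⟨x, rfl⟩ := qm_surjective r x
  exact LieHom.congr_fun h1 x

/-- A pair of mutually inverse maps which match the relators gives an isomorphism. -/
theorem iso_of_maps {r : L X} {s : L Y} (F : L X →ₗ⁅ℚ⁆ L Y) (G : L Y →ₗ⁅ℚ⁆ L X)
    (hFG : ∀ y, F (G (of y)) = of y) (hGF : ∀ x, G (F (of x)) = of x)
    (hr : qm s (F r) = 0) (hs : qm r (G s) = 0) :
    ∃ φ : OneRel r ≃ₗ⁅ℚ⁆ OneRel s, ∀ f, φ (qm r f) = qm s (F f) := by
  let A : OneRel r →ₗ⁅ℚ⁆ OneRel s := qd ((qm s).comp F) hr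
  let B : OneRel s →ₗ⁅ℚ⁆ OneRel r := qd ((qm r).comp G) hs
  have hBA : B.comp A = LieHom.id := by
    apply qhom_ext
    intro x
    change qm r (G (F (of x))) = qm r (of x)
    rw [hGF]
  have hAB : A.comp B = LieHom.id := by
    apply qhom_ext
    intro x
    change qm s (F (G (of x))) = qm s (of x)
    rw [hFG]
  refine ⟨{ A with
            invFun := B
            left_inv := fun x => LieHom.congr_fun hBA x
            right_inv := fun x => LieHom.congr_fun hAB x }, fun f => rfl⟩

/-! ### The extra letter -/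

/-- The inclusion of the free Lie algebra on `Y` in the one on `Option Y`. -/
noncomputable def inc : L Y →ₗ⁅ℚ⁆ L (Option Y) := llift fun y => of (some y)

/-- The projection which kills the extra letter. -/
noncomputable def prj : L (Option Y) →ₗ⁅ℚ⁆ L Y :=
  llift fun o : Option Y => match o with
    | some y => of y
    | none => 0

/-- The extra letter. -/
noncomputable def kap : L (Option Y) := of none

@[simp] theorem inc_of (y : Y) : inc (of y) = of (some y) := llift_of _ y

@[simp] theorem prj_of_some (y : Y) : prj (of (some y)) = of y := llift_of _ _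

@[simp] theorem prj_kap : prj (kap : L (Option Y)) = 0 := llift_of _ _

@[simp] theorem prj_inc (f : L Y) : prj (inc f) = f := by
  have h : (prj (Y := Y)).comp inc = LieHom.id := by
    apply hom_ext
    intro y
    simp [LieHom.comp_apply]
  exact LieHom.congr_fun h f

/-- The relator `[w, κ]`. -/
noncomputable def rr (w : L Y) : L (Option Y) := ⁅inc w, kap⁆

theorem prj_rr (w : L Y) : prj (rr w) = 0 := by
  rw [rr, LieHom.map_lie, prj_kap, lie_zero]

/-- The projection of the one-relator algebra onto the free algebra on `Y`. -/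
noncomputable def prjq (w : L Y) : OneRel (rr w) →ₗ⁅ℚ⁆ L Y := qd prj (prj_rr w)

@[simp] theorem prjq_qm (w : L Y) (f : L (Option Y)) : prjq w (qm (rr w) f) = prj f := rfl

/-- The ideal generated by a relator of high order has high order. -/
theorem lo_of_qm {r f : L X} {n : ℕ} (hr : lo n (io r)) (hf : qm r f = 0) : lo n (io f) := by
  refine ideal_ind (P := fun f => lo n (io f)) hr ?_ ?_ ?_ ?_ hf
  · rw [map_zero]; exact lo_zero n
  · intro f g hf hg; rw [map_add]; exact lo_add hf hg
  · intro c f hf; rw [map_smul]; exact lo_smul c hf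
  · intro f g hg
    exact lo_mono (by omega) (lo_lie (lo_io f) hg)

/-- Linear parts: the value of a homomorphism on the linear part. -/
theorem cf_hom_single {X Y : Type} [Fintype X] (Θ : L X →ₗ⁅ℚ⁆ L Y) (f : L X) (y : Y) :
    cf (io (Θ f)) [y] = ∑ x, cf (io f) [x] * cf (io (Θ (of x))) [y] := by
  classical
  refine L_ind (P := fun f => cf (io (Θ f)) [y] =
    ∑ x, cf (io f) [x] * cf (io (Θ (of x))) [y]) ?_ ?_ ?_ ?_ ?_ f
  · simp
  · intro x
    simp [cf_uof]
  · intro f g hf hg
    simp only [map_add, cf_add, hf, hg, add_mul, Finset.sum_add_distrib]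
  · intro c f hf
    simp only [map_smul, cf_smul, hf, Finset.mul_sum, mul_assoc]
  · intro f g _ _
    have h1 : cf (io (Θ ⁅f, g⁆)) [y] = 0 := by
      rw [LieHom.map_lie]
      exact lo_lie (lo_io _) (lo_io _) [y] (by simp)
    have h2 : ∀ x, cf (io ⁅f, g⁆) [x] = 0 := fun x =>
      lo_lie (lo_io _) (lo_io _) [x] (by simp)
    rw [h1]
    symm
    refine Finset.sum_eq_zero ?_
    intro x _
    rw [h2, zero_mul]

end Pool.Agent.LA78
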