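import Pool.Agent.LA78.Comm
import Pool.Agent.LA78.Quo

/-!
# Normalisation of an isomorphism, and its inverse

`rr w = ⁅inc w, κ⁆`, `prjq w : OneRel (rr w) → L Y` kills `κ`.

PROOF of `normalize`. Let `θ f = prjq w' (φ (qm (rr w) f))`, a surjective Lie homomorphism
`L (Option Y) → L Y` with `θ (rr w) = 0`, i.e. `⁅θ (inc w), θ κ⁆ = 0`. If `θ κ = 0` take `φ' = φ`.
Otherwise `θ (inc w) = c • θ κ` by `comm_prop`, and `c ≠ 0` by `hw`. Let `F, G` be the
endomorphisms of `L (Option Y)` which fix the letters `some y` and map `κ` to `κ - c⁻¹ • inc w`,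
`κ + c⁻¹ • inc w` (`llift`); they fix all `inc f`, they are inverse to each other, and
`F (rr w) = ⁅inc w, κ - c⁻¹ • inc w⁆ = rr w`, the same for `G`. `iso_of_maps` gives an automorphism
of `OneRel (rr w)`; compose it with `φ`: now `κ` goes to `θ κ - c⁻¹ • θ (inc w) = 0`.

PROOF of `symm_kap`. `θ' f = prjq w (φ.symm (qm (rr w') f))` satisfies
`⁅θ' (inc w'), θ' κ⁆ = 0`. Let `Θ f = prjq w' (φ (qm (rr w) (inc f)))`. As
`prjq w' (φ (qm κ)) = 0`, `prjq w' ∘ φ = Θ ∘ prjq w` on `OneRel (rr w)` (`qhom_ext`). Hence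
`Θ (θ' f) = prjq w' (qm (rr w') f) = prj f` for all `f`; so `Θ (θ' (inc w')) = w'` and
`Θ (θ' κ) = 0`. If `θ' κ ≠ 0` then `θ' (inc w') = c • θ' κ` by `comm_prop`, and `w' = c • 0 = 0`,
contradiction.
-/

set_option autoImplicit false

namespace Pool.Agent.LA78

variable {Y : Type}

/-- Two Lie homomorphisms which agree on the letters. -/
theorem Norm_shift (w : L Y) (c : ℚ) :
    ∃ F : L (Option Y) →ₗ⁅ℚ⁆ L (Option Y), (∀ f : L Y, F (inc f) = inc f) ∧
      F kap = kap + c • inc w := by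
  let F : L (Option Y) →ₗ⁅ℚ⁆ L (Option Y) := llift fun o : Option Y => match o with
    | some y => of (some y)
    | none => kap + c • inc w
  refine ⟨F, ?_, ?_⟩
  · intro f
    have h : F.comp inc = inc := by
      apply hom_ext
      intro y
      rw [LieHom.comp_apply, inc_of]
      exact llift_of _ _
    exact LieHom.congr_fun h f
  · exact llift_of _ _

theorem normalize (w w' : L Y)
    (hw : ∀ θ : L (Option Y) →ₗ⁅ℚ⁆ L Y, Function.Surjective θ → θ (inc w) ≠ 0)
    (φ : OneRel (rr w) ≃ₗ⁅ℚ⁆ OneRel (rr w')) :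
    ∃ φ' : OneRel (rr w) ≃ₗ⁅ℚ⁆ OneRel (rr w'), prjq w' (φ' (qm (rr w) kap)) = 0 := by
  let θ : L (Option Y) →ₗ⁅ℚ⁆ L Y := (prjq w').comp (φ.toLieHom.comp (qm (rr w)))
  have hθ : ∀ f, θ f = prjq w' (φ (qm (rr w) f)) := fun f => rfl
  have hsurj : Function.Surjective θ := by
    intro f
    obtain ⟨g, hg⟩ := qm_surjective (rr w) (φ.symm (qm (rr w') (inc f)))
    refine ⟨g, ?_⟩
    rw [hθ, hg, LieEquiv.apply_symm_apply, prjq_qm, prj_inc]
  have hker : ⁅θ (inc w), θ kap⁆ = 0 := by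
    have h : θ (rr w) = 0 := by
      rw [hθ, qm_self, map_zero, map_zero]
    rw [rr, LieHom.map_lie] at h
    exact h
  by_cases hk : θ kap = 0
  · exact ⟨φ, hk⟩
  obtain ⟨c, hc⟩ := comm_prop hk hker
  have hc0 : c ≠ 0 := by
    rintro rfl
    exact hw θ hsurj (by rw [hc, zero_smul])
  obtain ⟨F, hF1, hF2⟩ := Norm_shift w (-c⁻¹)
  obtain ⟨G, hG1, hG2⟩ := Norm_shift w c⁻¹
  have hFr : F (rr w) = rr w := by
    rw [rr, LieHom.map_lie, hF1, hF2, lie_add, lie_smul, lie_self, smul_zero, add_zero]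
  have hGr : G (rr w) = rr w := by
    rw [rr, LieHom.map_lie, hG1, hG2, lie_add, lie_smul, lie_self, smul_zero, add_zero]
  obtain ⟨ψ, hψ⟩ := iso_of_maps (r := rr w) (s := rr w) F G
    (by
      intro y
      cases y with
      | some y => rw [← inc_of, hG1, hF1]
      | none =>
        change F (G kap) = kap
        rw [hG2, map_add, map_smul, hF2, hF1, neg_smul, neg_add_cancel_right])
    (by
      intro y
      cases y with
      | some y => rw [← inc_of, hF1, hG1]
      | none =>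
        change G (F kap) = kap
        rw [hF2, map_add, map_smul, hG2, hG1, neg_smul, add_neg_cancel_right])
    (by rw [hFr, qm_self]) (by rw [hGr, qm_self])
  refine ⟨ψ.trans φ, ?_⟩
  rw [LieEquiv.trans_apply, hψ, ← hθ, hF2, map_add, map_smul, hc, smul_smul, neg_mul,
    inv_mul_cancel₀ hc0, neg_smul, one_smul, add_neg_cancel]

/-- The maps on the quotients by the extra letter are inverse to each other. -/
theorem theta_comp (w w' : L Y) (φ : OneRel (rr w) ≃ₗ⁅ℚ⁆ OneRel (rr w'))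
    (h : prjq w' (φ (qm (rr w) kap)) = 0) (u : OneRel (rr w)) :
    prjq w' (φ u) = prjq w' (φ (qm (rr w) (inc (prjq w u)))) := by
  let A : OneRel (rr w) →ₗ⁅ℚ⁆ L Y := (prjq w').comp φ.toLieHom
  let B : OneRel (rr w) →ₗ⁅ℚ⁆ L Y :=
    (prjq w').comp (φ.toLieHom.comp ((qm (rr w)).comp (inc.comp (prjq w))))
  have hAB : A = B := by
    apply qhom_ext
    intro x
    cases x with
    | some y =>
      change prjq w' (φ (qm (rr w) (of (some y)))) =
        prjq w' (φ (qm (rr w) (inc (prjq w (qm (rr w) (of (some y)))))))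
      rw [prjq_qm, prj_of_some, inc_of]
    | none =>
      change prjq w' (φ (qm (rr w) kap)) =
        prjq w' (φ (qm (rr w) (inc (prjq w (qm (rr w) kap)))))
      rw [prjq_qm, prj_kap, h, map_zero, map_zero, map_zero, map_zero]
  exact LieHom.congr_fun hAB u

/-- The maps on the quotients by the extra letter are inverse to each other. -/
theorem theta_inv (w w' : L Y) (φ : OneRel (rr w) ≃ₗ⁅ℚ⁆ OneRel (rr w'))
    (h : prjq w' (φ (qm (rr w) kap)) = 0) (f : L Y) :
    prjq w' (φ (qm (rr w) (inc (prjq w (φ.symm (qm (rr w') (inc f))))))) = f := by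
  rw [← theta_comp w w' φ h, LieEquiv.apply_symm_apply, prjq_qm, prj_inc]

theorem symm_kap (w w' : L Y) (hw' : w' ≠ 0) (φ : OneRel (rr w) ≃ₗ⁅ℚ⁆ OneRel (rr w'))
    (h : prjq w' (φ (qm (rr w) kap)) = 0) : prjq w (φ.symm (qm (rr w') kap)) = 0 := by
  by_contra hk
  have hker : ⁅prjq w (φ.symm (qm (rr w') (inc w'))), prjq w (φ.symm (qm (rr w') kap))⁆ = 0 := by
    rw [← LieHom.map_lie, ← LieEquiv.map_lie, ← LieHom.map_lie]
    change prjq w (φ.symm (qm (rr w') (rr w'))) = 0
    rw [qm_self, map_zero, map_zero]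
  obtain ⟨c, hc⟩ := comm_prop hk hker
  apply hw'
  have h1 := theta_inv w w' φ h w'
  have h2 : prjq w' (φ (qm (rr w) (inc (prjq w (φ.symm (qm (rr w') kap)))))) = 0 := by
    rw [← theta_comp w w' φ h, LieEquiv.apply_symm_apply, prjq_qm, prj_kap]
  rw [← h1, hc, map_smul, map_smul, map_smul, map_smul, h2, smul_zero]

end Pool.Agent.LA78
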