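import Pool.Agent.LA78.Rel

/-!
# Combinatorics of the exponents

PROOFS. `exists_good`: enumerate `P` by `e : P ≃ Fin n` and take
`N p = (D + 2) * (n + 1 + (e p + 1))`.
`pin_comb`: (1) for each `t`, `∑_p m t p ≤ 1`: if `m t p ≥ 2` then
`(N p - 1) * 2 ≤ N t + D`, against `two`; if `m t p, m t q ≥ 1`, `p ≠ q`, then
`(N p - 1) + (N q - 1) ≤ N t + D`, but `N t + D < 2 (N p - 1)` and `N t + D < 2 (N q - 1)`.
(2) choose `τ p` with `m (τ p) p ≠ 0`; by (1) `τ` is injective, so bijective, and
`N p - 1 ≤ N (τ p) + D`, so `N p ≤ N (τ p)` by `gap`. Summing over `p`, equality everywhere, so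
`τ p = p` by `inj`. (3) So `m p p = 1`, and `m t p = 0` for `t ≠ p` by (1) and `m t t ≠ 0`.
-/

set_option autoImplicit false

namespace Pool.Agent.LA78

theorem exists_good (P : Type) [Fintype P] (D : ℕ) : ∃ N : P → ℕ, Good N D := by
  classical
  set n := Fintype.card P with hn
  let e : P ≃ Fin n := Fintype.equivFin P
  refine ⟨fun p => (D + 2) * (n + 1 + ((e p : ℕ) + 1)), ?_, ?_, ?_, ?_⟩
  · intro p
    nlinarith [Nat.zero_le D, Nat.zero_le n, Nat.zero_le (e p : ℕ),
      Nat.zero_le (D * (n + 1 + ((e p : ℕ) + 1)))]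
  · intro p q
    have h1 : (D + 2) * (n + 1 + ((e q : ℕ) + 1)) ≤ (D + 2) * (2 * n + 1) := by
      have := (e q).2
      exact Nat.mul_le_mul_left _ (by omega)
    have h2 : (D + 2) * (n + 2) ≤ (D + 2) * (n + 1 + ((e p : ℕ) + 1)) :=
      Nat.mul_le_mul_left _ (by omega)
    have h3 : 2 * ((D + 2) * (n + 2)) = (D + 2) * (2 * n + 1) + 3 * (D + 2) := by ring
    omega
  · intro p q h
    have h1 : (e q : ℕ) < e p := by
      by_contra hc
      have : (D + 2) * (n + 1 + ((e p : ℕ) + 1)) ≤ (D + 2) * (n + 1 + ((e q : ℕ) + 1)) :=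
        Nat.mul_le_mul_left _ (by omega)
      exact absurd h (by simpa using this)
    have h2 : (D + 2) * (n + 1 + ((e q : ℕ) + 1)) + (D + 2) ≤
        (D + 2) * (n + 1 + ((e p : ℕ) + 1)) := by
      have h3 : (D + 2) * (n + 1 + ((e q : ℕ) + 1)) + (D + 2) =
        (D + 2) * (n + 1 + ((e q : ℕ) + 1) + 1) := by ring
      rw [h3]
      exact Nat.mul_le_mul_left _ (by omega)
    change (D + 2) * (n + 1 + ((e q : ℕ) + 1)) + D < (D + 2) * (n + 1 + ((e p : ℕ) + 1)) - 1
    omega
  · intro p q h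
    have h1 : n + 1 + ((e p : ℕ) + 1) = n + 1 + ((e q : ℕ) + 1) :=
      Nat.eq_of_mul_eq_mul_left (by omega) h
    exact e.injective (Fin.ext (by omega))

theorem pin_comb {P : Type} [Fintype P] [DecidableEq P] {N : P → ℕ} {D : ℕ} (hG : Good N D)
    (m : P → P → ℕ)
    (h1 : ∀ t, (∀ p, m t p = 0) ∨ ∑ p, (N p - 1) * m t p ≤ N t + D)
    (h2 : ∀ p, ∃ t, m t p ≠ 0) : ∀ t p, m t p = if t = p then 1 else 0 := by
  -- at most one in each row
  have hle : ∀ t p, (N p - 1) * m t p ≤ N t + D := by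
    intro t p
    rcases h1 t with h | h
    · rw [h p]; omega
    · refine le_trans ?_ h
      exact Finset.single_le_sum (f := fun p => (N p - 1) * m t p)
        (fun i _ => Nat.zero_le _) (Finset.mem_univ p)
  have hone : ∀ t p, m t p ≤ 1 := by
    intro t p
    by_contra hc
    have h3 : (N p - 1) * 2 ≤ (N p - 1) * m t p := Nat.mul_le_mul_left _ (by omega)
    have h4 := hle t p
    have h5 := hG.two p t
    omega
  have huniq : ∀ t p q, m t p ≠ 0 → m t q ≠ 0 → p = q := by
    intro t p q hp hq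
    by_contra hne
    rcases h1 t with h | h
    · exact hp (h p)
    · have h3 : ∑ x ∈ ({p, q} : Finset P), (N x - 1) * m t x ≤ ∑ x, (N x - 1) * m t x :=
        Finset.sum_le_sum_of_subset (Finset.subset_univ _)
      rw [Finset.sum_pair hne] at h3
      have hp1 : m t p = 1 := le_antisymm (hone t p) (Nat.one_le_iff_ne_zero.2 hp)
      have hq1 : m t q = 1 := le_antisymm (hone t q) (Nat.one_le_iff_ne_zero.2 hq)
      rw [hp1, hq1] at h3
      have h5 := hG.two p t
      have h6 := hG.two q t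
      omega
  choose τ hτ using h2
  have hinj : Function.Injective τ := by
    intro p q h
    refine huniq (τ p) p q (hτ p) ?_
    rw [h]
    exact hτ q
  have hNle : ∀ p, N p ≤ N (τ p) := by
    intro p
    by_contra hc
    have h3 := hG.gap p (τ p) (by omega)
    have h4 := hle (τ p) p
    have h5 : m (τ p) p = 1 := le_antisymm (hone _ _) (Nat.one_le_iff_ne_zero.2 (hτ p))
    rw [h5] at h4
    omega
  have hbij : Function.Bijective τ := Finite.injective_iff_bijective.1 hinj
  have hsum : ∑ p, N (τ p) = ∑ p, N p := by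
    exact Function.Bijective.sum_comp hbij N
  have heq : ∀ p, N p = N (τ p) := by
    intro p
    have h3 := (Finset.sum_eq_sum_iff_of_le (fun i (_ : i ∈ Finset.univ) => hNle i)).1 hsum.symm
    exact h3 p (Finset.mem_univ p)
  have hid : ∀ p, τ p = p := fun p => (hG.inj (heq p)).symm
  intro t p
  by_cases h : t = p
  · subst h
    rw [if_pos rfl]
    have h3 := hτ t
    rw [hid t] at h3
    exact le_antisymm (hone t t) (Nat.one_le_iff_ne_zero.2 h3)
  · rw [if_neg h]
    by_contra hc
    have h3 := hτ t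
    rw [hid t] at h3
    exact h (huniq t t p h3 hc)

end Pool.Agent.LA78
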