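import Pool.Agent.LA78.QDef

/-!
# The finite state set is closed under the queue machine

PROOF. Cases on the statement, the mode and the symbol. Either the new state is the old one, or it
is the state of `C'` for a step `C' ∈ sstep C` of a suitable configuration `C = (s, v, S)` (choose
the stack `S` with the top symbol which is read, or the empty stack for a separator); use
`Pool.Agent.NB.step_closed`.
-/

set_option autoImplicit false

namespace Pool.Agent.LA78

open Turing Turing.PartrecToTM2 Pool.Agent.NB

theorem qnx_closed (c : ToPartrec.Code) {s : SS} {m : Bool} {x : QL} {u : SS × Bool × List QL}
    (hs : s ∈ stateSet c) (h : qnx s m x = some u) : u.1 ∈ stateSet c := by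
  obtain ⟨t, v⟩ := s
  have key : ∀ (S : K' → List Γ') (C' : SCfg), C' ∈ sstep (t, v, S) →
      (C'.1, C'.2.1) ∈ stateSet c := fun S C' h' => step_closed c (t, v, S) C' hs h'
  rcases t with _ | t
  · cases m
    · simp only [qnx] at h
      split at h
      · cases h
      · cases h
        exact hs
    · simp [qnx] at h
  cases t with
  | push k f q =>
    cases m
    · simp only [qnx] at h
      split at h
      · cases h
        exact key (fun _ => []) _ rfl
      · cases h
        exact hs
    · simp [qnx] at h
  | peek k f q =>
    cases m
    · simp only [qnx] at h
      cases h
      exact hs
    · rcases x with j | a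
      · simp only [qnx] at h
        cases h
        exact key (fun _ => []) _ rfl
      · simp only [qnx] at h
        cases h
        exact key (fun _ => [a]) _ rfl
  | pop k f q =>
    cases m
    · simp only [qnx] at h
      cases h
      exact hs
    · rcases x with j | a
      · simp only [qnx] at h
        cases h
        exact key (fun _ => []) _ rfl
      · simp only [qnx] at h
        cases h
        exact key (fun _ => [a]) _ rfl
  | load f q =>
    cases m
    · simp only [qnx] at h
      cases h
      exact key (fun _ => []) _ rfl
    · simp [qnx] at h
  | branch f q₁ q₂ =>
    cases m
    · simp only [qnx] at h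
      cases h
      exact key (fun _ => []) _ rfl
    · simp [qnx] at h
  | goto f =>
    cases m
    · simp only [qnx] at h
      cases h
      exact key (fun _ => []) _ rfl
    · simp [qnx] at h
  | halt =>
    cases m
    · simp only [qnx] at h
      cases h
      exact key (fun _ => []) _ rfl
    · simp [qnx] at h

end Pool.Agent.LA78
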