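import Pool.Agent.LA78.Eqn

/-!
# The equation and the rewriting system

PROOF of `eqS_of_reach`: induction on the path (`Relation.ReflTransGen.head_induction_on`). Zero
steps: `P = 0`. One step `I → I'` with `I = al r ++ x`, `I' = ga r ++ x ++ de r`: add `wd x` to `P r`
of the solution for `I'` (`wd_append`).
PROOF of `mem_of_eqS`: let `χ : U Γ →ₗ[ℚ] ℚ` be linear with `χ (wd w) = 1` if `w ∈ S`, else `0`
(`f ↦ Σ` over the support of coefficients at words of `S`). By invariance
`χ (wd ga * p * wd de - wd al * p) = 0` for `p` a word, so for all `p` (`lin_ext`). So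
`χ (wd F) = χ (wd I)`.
-/

set_option autoImplicit false

namespace Pool.Agent.LA78

theorem eqS_of_reach {Γ ρ : Type} [Fintype ρ] (R : Rules Γ ρ) (F I : List Γ)
    (h : Relation.ReflTransGen (Stp R) I F) : EqS R F I := by
  classical
  induction h using Relation.ReflTransGen.head_induction_on with
  | refl => exact ⟨0, by simp⟩
  | @head I I' hs _ ih =>
    obtain ⟨r, x, rfl, rfl⟩ := hs
    obtain ⟨P, hP⟩ := ih
    refine ⟨fun r' => P r' + if r' = r then wd x else 0, ?_⟩
    have h1 : ∀ r', (wd (R.ga r') * (P r' + if r' = r then wd x else 0) * wd (R.de r') -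
        wd (R.al r') * (P r' + if r' = r then wd x else 0)) =
        (wd (R.ga r') * P r' * wd (R.de r') - wd (R.al r') * P r') +
        (if r' = r then (wd (R.ga r') * wd x * wd (R.de r') - wd (R.al r') * wd x) else 0) := by
      intro r'
      by_cases h : r' = r
      · simp only [if_pos h]
        noncomm_ring
      · simp only [if_neg h, add_zero]
    rw [Finset.sum_congr rfl fun r' _ => h1 r', Finset.sum_add_distrib, hP,
      Finset.sum_ite_eq' Finset.univ r]
    simp only [Finset.mem_univ, if_true, wd_append]
    abel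

open Classical in
/-- The linear functional which is `1` on words of `S` and `0` on the others. -/
noncomputable def chi {X : Type} (S : Set (List X)) : U X →ₗ[ℚ] ℚ where
  toFun f := f.coeff.sum fun w c => if FreeMonoid.toList w ∈ S then c else 0
  map_add' f g := by
    change (f.coeff + g.coeff).sum _ = _
    refine Finsupp.sum_add_index' (fun w => by simp) (fun w c d => ?_)
    split_ifs <;> simp
  map_smul' c f := by
    change (c • f.coeff).sum _ = _
    rw [Finsupp.sum_smul_index' (fun w => by simp), RingHom.id_apply, Finsupp.smul_sum]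
    refine Finset.sum_congr rfl fun w _ => ?_
    dsimp only
    split_ifs <;> simp

open Classical in
theorem chi_wd {X : Type} (S : Set (List X)) (w : List X) :
    chi S (wd w) = if w ∈ S then 1 else 0 := by
  change (Finsupp.single (FreeMonoid.ofList w) (1 : ℚ)).sum
    (fun w c => if FreeMonoid.toList w ∈ S then c else 0) = _
  rw [Finsupp.sum_single_index (by split_ifs <;> rfl)]
  rfl

theorem mem_of_eqS {Γ ρ : Type} [Fintype ρ] (R : Rules Γ ρ) (F I : List Γ) (h : EqS R F I)
    (S : Set (List Γ)) (hS : ∀ v w, Stp R v w → (v ∈ S ↔ w ∈ S)) (hF : F ∈ S) : I ∈ S := by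
  classical
  obtain ⟨P, hP⟩ := h
  have key : ∀ r : ρ, ∀ p : U Γ,
      chi S (wd (R.ga r) * p * wd (R.de r) - wd (R.al r) * p) = 0 := by
    intro r p
    refine U_ind (P := fun p => chi S (wd (R.ga r) * p * wd (R.de r) - wd (R.al r) * p) = 0)
      (by simp) ?_ ?_ p
    · intro f g hf hg
      have : wd (R.ga r) * (f + g) * wd (R.de r) - wd (R.al r) * (f + g) =
          (wd (R.ga r) * f * wd (R.de r) - wd (R.al r) * f) +
          (wd (R.ga r) * g * wd (R.de r) - wd (R.al r) * g) := by noncomm_ring
      rw [this, map_add, hf, hg, add_zero]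
    · intro c x
      have h1 : wd (R.ga r) * (c • wd x) * wd (R.de r) - wd (R.al r) * (c • wd x) =
          c • (wd (R.ga r ++ x ++ R.de r) - wd (R.al r ++ x)) := by
        rw [wd_append, wd_append, wd_append, smul_sub, mul_smul_comm, mul_smul_comm,
          smul_mul_assoc]
      have h2 := hS _ _ ⟨r, x, rfl, rfl⟩
      rw [h1, map_smul, map_sub, chi_wd, chi_wd]
      simp only [h2, sub_self, smul_zero]
  have h3 := congrArg (chi S) hP
  rw [map_sum (chi S), Finset.sum_eq_zero (fun r _ => key r (P r)), map_sub, chi_wd, chi_wd,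
    if_pos hF] at h3
  by_contra hI
  rw [if_neg hI] at h3
  norm_num at h3

end Pool.Agent.LA78
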