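import Pool.Agent.NB.Machine
import Pool.Agent.LA78.Reach

/-!
# The stack machine of Mathlib on a queue: definitions

A configuration of the small-step machine `NB.sstep` with four stacks is stored in one queue: the
cyclic word `main S_main rev S_rev aux S_aux stack S_stack` with four separators. One step of the
queue machine reads the first symbol of the queue, and writes symbols at the end.
-/

set_option autoImplicit false

namespace Pool.Agent.LA78

open Turing Turing.PartrecToTM2 Pool.Agent.NB

/-- Queue symbols: separators and stack symbols. -/
abbrev QL := K' ⊕ Γ'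

/-- The states of the small-step machine. -/
abbrev SS := Option St × Option Γ'

/-- The transition function: state, mode (`true`: the separator of the stack to be read has just
been passed), symbol read; new state, new mode, symbols written. -/
def qnx : SS → Bool → QL → Option (SS × Bool × List QL)
  | (none, v), false, x => if x = Sum.inl K'.main then none else some ((none, v), false, [x])
  | (none, _), true, _ => none
  | (some (TM2.Stmt.push k f q), v), false, x =>
      if x = Sum.inl k then some ((some q, v), false, [x, Sum.inr (f v)])
      else some ((some (TM2.Stmt.push k f q), v), false, [x])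
  | (some (TM2.Stmt.push _ _ _), _), true, _ => none
  | (some (TM2.Stmt.peek k f q), v), false, x =>
      some ((some (TM2.Stmt.peek k f q), v), decide (x = Sum.inl k), [x])
  | (some (TM2.Stmt.peek _ f q), v), true, Sum.inr a =>
      some ((some q, f v (some a)), false, [Sum.inr a])
  | (some (TM2.Stmt.peek _ f q), v), true, Sum.inl j =>
      some ((some q, f v none), false, [Sum.inl j])
  | (some (TM2.Stmt.pop k f q), v), false, x =>
      some ((some (TM2.Stmt.pop k f q), v), decide (x = Sum.inl k), [x])
  | (some (TM2.Stmt.pop _ f q), v), true, Sum.inr a =>
      some ((some q, f v (some a)), false, [])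
  | (some (TM2.Stmt.pop _ f q), v), true, Sum.inl j =>
      some ((some q, f v none), false, [Sum.inl j])
  | (some (TM2.Stmt.load f q), v), false, x => some ((some q, f v), false, [x])
  | (some (TM2.Stmt.load _ _), _), true, _ => none
  | (some (TM2.Stmt.branch f q₁ q₂), v), false, x =>
      some ((some (cond (f v) q₁ q₂), v), false, [x])
  | (some (TM2.Stmt.branch _ _ _), _), true, _ => none
  | (some (TM2.Stmt.goto f), v), false, x => some ((some (tr (f v)), v), false, [x])
  | (some (TM2.Stmt.goto _), _), true, _ => none
  | (some TM2.Stmt.halt, v), false, x => some ((none, v), false, [x])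
  | (some TM2.Stmt.halt, _), true, _ => none

/-- Configurations of the queue machine. -/
abbrev QC := SS × Bool × List QL

/-- One step of the queue machine. -/
def qstep : QC → Option QC
  | (_, _, []) => none
  | (s, m, x :: l) => (qnx s m x).map fun t => (t.1, t.2.1, l ++ t.2.2)

/-- A separator and its stack. -/
def seg (S : K' → List Γ') (k : K') : List QL := Sum.inl k :: (S k).map Sum.inr

/-- The cyclic order of the stacks. -/
def cyc : K' → List K'
  | K'.main => [K'.main, K'.rev, K'.aux, K'.stack]
  | K'.rev => [K'.rev, K'.aux, K'.stack, K'.main]
  | K'.aux => [K'.aux, K'.stack, K'.main, K'.rev]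
  | K'.stack => [K'.stack, K'.main, K'.rev, K'.aux]

/-- The queue which starts with stack `k`. -/
def lay (S : K' → List Γ') (k : K') : List QL := (cyc k).flatMap (seg S)

/-- The queue configuration `D` represents the machine configuration `C`. -/
def trq (C : SCfg) (D : QC) : Prop :=
  D.1 = (C.1, C.2.1) ∧ D.2.1 = false ∧ D.2.2 ~r lay C.2.2 K'.main ∧
    (C.1 = none → D.2.2 = lay C.2.2 K'.main)

/-- The initial queue configuration. -/
def qinit (c : ToPartrec.Code) (n : ℕ) : QC :=
  ((some (tr (trNormal c Cont'.halt)), none), false,
    lay (K'.elim (trList [n]) [] [] []) K'.main)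

/-- The final queue configuration. -/
def qfin : QC := ((none, none), false, lay (K'.elim [] [] [] []) K'.main)

/-- The finite alphabet of the rewriting system for a code `c`. -/
abbrev GA (c : ToPartrec.Code) : Type := ((stateSet c) × Bool) ⊕ QL

/-- The index set of the rules. -/
abbrev RA (c : ToPartrec.Code) : Type := ((stateSet c) × Bool) × QL

open Classical in
/-- The rules. -/
noncomputable def qrule (c : ToPartrec.Code) (t : RA c) :
    List (GA c) × List (GA c) × List (GA c) :=
  match qnx t.1.1.1 t.1.2 t.2 with
  | none => ([], [], [])
  | some u => if h : u.1 ∈ stateSet c then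
      ([Sum.inl t.1, Sum.inr t.2], [Sum.inl (⟨u.1, h⟩, u.2.1)], u.2.2.map Sum.inr)
      else ([], [], [])

/-- The rewriting system. -/
noncomputable def qrules (c : ToPartrec.Code) : Rules (GA c) (RA c) where
  al t := (qrule c t).1
  ga t := (qrule c t).2.1
  de t := (qrule c t).2.2

/-- The word of a configuration whose state is in the finite set. -/
def qenc {c : ToPartrec.Code} (D : QC) (h : D.1 ∈ stateSet c) : List (GA c) :=
  Sum.inl (⟨D.1, h⟩, D.2.1) :: D.2.2.map Sum.inr

end Pool.Agent.LA78
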