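import Pool.Agent.LA78.QDef

/-!
# Rotating the queue, and the cyclic layout
-/

set_option autoImplicit false

namespace Pool.Agent.LA78

open Turing Turing.PartrecToTM2 Pool.Agent.NB

theorem rotate_to_aux {s : SS} {x : QL}
    (hs : ∀ y, y ≠ x → qnx s false y = some (s, false, [y])) :
    ∀ (m₂ m₁ : List QL), x ∉ m₂ →
    StateTransition.Reaches qstep (s, false, m₂ ++ x :: m₁) (s, false, x :: (m₁ ++ m₂)) := by
  intro m₂
  induction m₂ with
  | nil => intro m₁ _; simp; exact Relation.ReflTransGen.refl
  | cons y m₂ ih =>
    intro m₁ hx
    have hyx : y ≠ x := by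
      rintro rfl; exact hx List.mem_cons_self
    have h1 : StateTransition.Reaches qstep (s, false, (y :: m₂) ++ x :: m₁)
        (s, false, m₂ ++ x :: (m₁ ++ [y])) := by
      refine Relation.ReflTransGen.single ?_
      simp [qstep, hs y hyx]
    have h2 := ih (m₁ ++ [y]) (fun h => hx (List.mem_cons_of_mem _ h))
    refine h1.trans ?_
    have e : m₁ ++ [y] ++ m₂ = m₁ ++ (y :: m₂) := by simp
    rw [e] at h2
    exact h2

theorem rotate_to {s : SS} {x : QL} {m l : List QL} (hx : x ∉ m) (hl : l ~r x :: m)
    (hs : ∀ y, y ≠ x → qnx s false y = some (s, false, [y])) :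
    StateTransition.Reaches qstep (s, false, l) (s, false, x :: m) := by
  obtain ⟨n, hn⟩ := hl.symm
  -- (x :: m).rotate n = l
  rw [List.rotate_eq_drop_append_take_mod] at hn
  set k := n % (x :: m).length with hk
  rcases k with _ | k
  · simp at hn
    subst hn
    exact Relation.ReflTransGen.refl
  · simp only [List.drop_succ_cons, List.take_succ_cons] at hn
    subst hn
    have := rotate_to_aux hs (m.drop k) (m.take k) (fun h => hx (List.mem_of_mem_drop h))
    rwa [List.take_append_drop] at this

theorem lay_rot (S : K' → List Γ') (k : K') : lay S k ~r lay S K'.main := by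
  unfold lay
  cases k with
  | main => exact List.IsRotated.refl _
  | rev =>
    simp only [cyc, List.flatMap_cons, List.flatMap_nil, List.append_nil]
    have := @List.isRotated_append _ (seg S K'.main) (seg S K'.rev ++ (seg S K'.aux ++ seg S K'.stack))
    simp only [List.append_assoc] at this
    exact this.symm
  | aux =>
    simp only [cyc, List.flatMap_cons, List.flatMap_nil, List.append_nil]
    have := @List.isRotated_append _ (seg S K'.main ++ seg S K'.rev) (seg S K'.aux ++ seg S K'.stack)
    simp only [List.append_assoc] at this
    exact this.symm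
  | stack =>
    simp only [cyc, List.flatMap_cons, List.flatMap_nil, List.append_nil]
    have := @List.isRotated_append _ (seg S K'.main ++ (seg S K'.rev ++ seg S K'.aux)) (seg S K'.stack)
    simp only [List.append_assoc] at this
    exact this.symm

/-- The part of the queue which does not belong to the stack `k`. -/
def lrest (S : K' → List Γ') (k : K') : List QL := (cyc k).tail.flatMap (seg S)

theorem lay_eq (S : K' → List Γ') (k : K') :
    lay S k = Sum.inl k :: ((S k).map Sum.inr ++ lrest S k) := by
  cases k <;> simp [lay, lrest, cyc, seg]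

theorem not_mem_lrest (S : K' → List Γ') (k : K') :
    (Sum.inl k : QL) ∉ (S k).map Sum.inr ++ lrest S k := by
  cases k <;> simp [lrest, cyc, seg]

theorem lrest_cons (S : K' → List Γ') (k : K') : ∃ j l, lrest S k = Sum.inl j :: l := by
  cases k <;> exact ⟨_, _, by simp only [lrest, cyc, seg, List.tail_cons, List.flatMap_cons, List.cons_append]; rfl⟩

theorem lrest_update (S : K' → List Γ') (k : K') (t : List Γ') :
    lrest (Function.update S k t) k = lrest S k := by
  cases k <;> simp [lrest, cyc, seg, Function.update]

end Pool.Agent.LA78
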