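import Pool.Agent.LA78.Quo

/-!
# The relators and linear systems: definitions
-/

set_option autoImplicit false

namespace Pool.Agent.LA78

/-- The pinned letters. -/
noncomputable def pl {P J : Type} (p : P) : L (P ⊕ J) := of (Sum.inl p)

/-- The element `[z₀, z₁] + [z₂, z₃]`. -/
noncomputable def tt {P J : Type} (z : Fin 4 → P) : L (P ⊕ J) :=
  ⁅(pl (z 0) : L (P ⊕ J)), (pl (z 1) : L (P ⊕ J))⁆ +
    ⁅(pl (z 2) : L (P ⊕ J)), (pl (z 3) : L (P ⊕ J))⁆

/-- The element `[z₀, z₁] + [z₂, z₃] + V ∘ R`. -/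
noncomputable def wel {P J : Type} (z : Fin 4 → P) (R : List P) (V : L (P ⊕ J)) : L (P ⊕ J) :=
  tt z + act pl R V

/-- Good exponents. -/
structure Good {P : Type} (N : P → ℕ) (D : ℕ) : Prop where
  three : ∀ p, 3 ≤ N p
  two : ∀ p q, N q + D < 2 * (N p - 1)
  gap : ∀ p q, N q < N p → N q + D < N p - 1
  inj : Function.Injective N

/-- The action of a list of weighted words. -/
def actL {Z : Type} {g : Type*} [LieRing g] (ζ : Z → g) (a : List (ℤ × List Z)) (f : g) : g :=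
  (a.map fun t => t.1 • act ζ t.2 f).sum

/-- The linear system `∑_j h_j ∘ A_{jc} = G_c` is solvable in the free Lie algebra on `Z`. -/
def Solv {Z C J : Type} [Fintype J] (A : J → C → List (ℤ × List Z)) (G : C → Code Z) : Prop :=
  ∃ h : J → L Z, ∀ c, ∑ j, actL of (A j c) (h j) = val of (G c)

/-- The letters of the system in the big algebra. -/
noncomputable def zl {Z C J : Type} (z : Z) : L ((Z ⊕ C) ⊕ J) := of (Sum.inl (Sum.inl z))

/-- The letters `d_c`. -/
noncomputable def dl {Z C J : Type} (c : C) : L ((Z ⊕ C) ⊕ J) := of (Sum.inl (Sum.inr c))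

/-- The letters `e_j`. -/
noncomputable def el {Z C J : Type} (j : J) : L ((Z ⊕ C) ⊕ J) := of (Sum.inr j)

/-- `∑_c [∑_j e_j ∘ A_{jc}, d_c]`. -/
noncomputable def Wof {Z C J : Type} [Fintype C] [Fintype J] (A : J → C → List (ℤ × List Z)) :
    L ((Z ⊕ C) ⊕ J) :=
  ∑ c : C, ⁅∑ j : J, actL (zl : Z → L ((Z ⊕ C) ⊕ J)) (A j c) (el j),
    (dl c : L ((Z ⊕ C) ⊕ J))⁆

/-- `∑_c [G_c, d_c]`. -/
noncomputable def Gof {Z C J : Type} [Fintype C] (G : C → Code Z) : L ((Z ⊕ C) ⊕ J) :=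
  ∑ c : C, ⁅val (zl : Z → L ((Z ⊕ C) ⊕ J)) (G c), (dl c : L ((Z ⊕ C) ⊕ J))⁆

section actL

variable {Z : Type} {g : Type*} [LieRing g]

@[simp] theorem actL_nil (ζ : Z → g) (f : g) : actL ζ [] f = 0 := rfl

theorem actL_cons (ζ : Z → g) (t : ℤ × List Z) (a : List (ℤ × List Z)) (f : g) :
    actL ζ (t :: a) f = t.1 • act ζ t.2 f + actL ζ a f := by
  simp [actL]

theorem actL_add (ζ : Z → g) (a : List (ℤ × List Z)) (f h : g) :
    actL ζ a (f + h) = actL ζ a f + actL ζ a h := by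
  induction a with
  | nil => simp
  | cons t a ih =>
    rw [actL_cons, actL_cons, actL_cons, ih, act_add, smul_add]
    abel

@[simp] theorem actL_zero (ζ : Z → g) (a : List (ℤ × List Z)) : actL ζ a (0 : g) = 0 := by
  induction a with
  | nil => simp
  | cons t a ih => rw [actL_cons, ih, act_zero, smul_zero, add_zero]

theorem actL_neg (ζ : Z → g) (a : List (ℤ × List Z)) (f : g) :
    actL ζ a (-f) = - actL ζ a f := by
  induction a with
  | nil => simp
  | cons t a ih =>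
    rw [actL_cons, actL_cons, ih, act_neg, smul_neg]
    abel

theorem actL_hom [LieAlgebra ℚ g] {h : Type*} [LieRing h] [LieAlgebra ℚ h] (φ : g →ₗ⁅ℚ⁆ h)
    (ζ : Z → g) (a : List (ℤ × List Z)) (f : g) :
    φ (actL ζ a f) = actL (fun x => φ (ζ x)) a (φ f) := by
  induction a with
  | nil => simp
  | cons t a ih => rw [actL_cons, actL_cons, map_add, ih, map_zsmul, act_hom]

end actL

/-- The value of a homomorphism on `Wof`. -/
theorem hom_Wof {Z C J : Type} [Fintype C] [Fintype J] (A : J → C → List (ℤ × List Z))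
    {g : Type*} [LieRing g] [LieAlgebra ℚ g] (φ : L ((Z ⊕ C) ⊕ J) →ₗ⁅ℚ⁆ g) :
    φ (Wof A) = ∑ c : C, ⁅∑ j : J, actL (fun z => φ (zl z)) (A j c) (φ (el j)),
      φ (dl c)⁆ := by
  rw [Wof, map_sum]
  refine Finset.sum_congr rfl fun c _ => ?_
  rw [LieHom.map_lie, map_sum]
  congr 1
  exact Finset.sum_congr rfl fun j _ => actL_hom φ _ _ _

/-- The value of a homomorphism on `Gof`. -/
theorem hom_Gof {Z C J : Type} [Fintype C] (G : C → Code Z)
    {g : Type*} [LieRing g] [LieAlgebra ℚ g] (φ : L ((Z ⊕ C) ⊕ J) →ₗ⁅ℚ⁆ g) :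
    φ (Gof G) = ∑ c : C, ⁅val (fun z => φ (zl z)) (G c), φ (dl c)⁆ := by
  rw [Gof, map_sum]
  refine Finset.sum_congr rfl fun c _ => ?_
  rw [LieHom.map_lie, val_hom]

/-- Words in the variables: a polynomial in letters. -/
theorem lo_Wof {Z C J : Type} [Fintype C] [Fintype J] (A : J → C → List (ℤ × List Z)) :
    lo 2 (io (Wof A)) := by
  rw [Wof, map_sum]
  exact lo_sum _ _ fun c _ => lo_lie (lo_io _) (lo_io _)

theorem lo_Gof {Z C J : Type} [Fintype C] (G : C → Code Z) :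
    lo 2 (io (Gof G : L ((Z ⊕ C) ⊕ J))) := by
  rw [Gof, map_sum]
  exact lo_sum _ _ fun c _ => lo_lie (lo_io _) (lo_io _)

end Pool.Agent.LA78
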