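import Pool.Agent.LA78.Basic

/-!
# The lexicographic order on words, and the order `kle`
-/

set_option autoImplicit false

namespace Pool.Agent.LA78

variable {X : Type} [LinearOrder X]

theorem lle_refl (u : List X) : lle u u := by
  induction u with
  | nil => trivial
  | cons a u ih => exact Or.inr ⟨rfl, ih⟩

theorem lle_trans {u v w : List X} (h1 : lle u v) (h2 : lle v w) : lle u w := by
  induction u generalizing v w with
  | nil => trivial
  | cons a u ih =>
    cases v with
    | nil => exact h1.elim
    | cons b v =>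
      cases w with
      | nil => exact h2.elim
      | cons c w =>
        rcases h1 with h1 | ⟨rfl, h1⟩
        · rcases h2 with h2 | ⟨rfl, _⟩
          · exact Or.inl (h1.trans h2)
          · exact Or.inl h1
        · rcases h2 with h2 | ⟨rfl, h2⟩
          · exact Or.inl h2
          · exact Or.inr ⟨rfl, ih h1 h2⟩

theorem lle_antisymm {u v : List X} (h1 : lle u v) (h2 : lle v u) : u = v := by
  induction u generalizing v with
  | nil =>
    cases v with
    | nil => rfl
    | cons b v => exact h2.elim
  | cons a u ih =>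
    cases v with
    | nil => exact h1.elim
    | cons b v =>
      rcases h1 with h1 | ⟨rfl, h1⟩
      · rcases h2 with h2 | ⟨rfl, _⟩
        · exact absurd h1 (lt_asymm h2)
        · exact absurd h1 (lt_irrefl _)
      · rcases h2 with h2 | ⟨_, h2⟩
        · exact absurd h2 (lt_irrefl _)
        · rw [ih h1 h2]

theorem lle_total (u v : List X) : lle u v ∨ lle v u := by
  induction u generalizing v with
  | nil => exact Or.inl trivial
  | cons a u ih =>
    cases v with
    | nil => exact Or.inr trivial
    | cons b v =>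
      rcases lt_trichotomy a b with h | rfl | h
      · exact Or.inl (Or.inl h)
      · rcases ih v with h | h
        · exact Or.inl (Or.inr ⟨rfl, h⟩)
        · exact Or.inr (Or.inr ⟨rfl, h⟩)
      · exact Or.inr (Or.inl h)

theorem lle_append (u v : List X) : lle u (u ++ v) := by
  induction u with
  | nil => trivial
  | cons a u ih => exact Or.inr ⟨rfl, ih⟩

theorem lle_prefix {u v : List X} (h : u <+: v) : lle u v := by
  obtain ⟨t, rfl⟩ := h
  exact lle_append u t

theorem lle_append_left_iff (p u v : List X) : lle (p ++ u) (p ++ v) ↔ lle u v := by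
  induction p with
  | nil => rfl
  | cons a p ih =>
    simp only [List.cons_append, lle, lt_irrefl, true_and, false_or]
    exact ih

/-- Words of the same length: the lexicographic order is compatible with concatenation. -/
theorem lle_append_of_length {u v x y : List X} (hl : u.length = v.length) (h1 : lle u v)
    (h2 : lle x y) : lle (u ++ x) (v ++ y) := by
  induction u generalizing v with
  | nil =>
    have : v = [] := List.length_eq_zero_iff.1 hl.symm
    subst this
    exact h2
  | cons a u ih =>
    cases v with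
    | nil => exact h1.elim
    | cons b v =>
      rcases h1 with h1 | ⟨rfl, h1⟩
      · exact Or.inl h1
      · exact Or.inr ⟨rfl, ih (by simpa using hl) h1⟩

/-- The converse of `lle_append_of_length` in the first factor. -/
theorem lle_of_append {u v x y : List X} (hl : u.length = v.length)
    (h : lle (u ++ x) (v ++ y)) : lle u v := by
  induction u generalizing v with
  | nil => trivial
  | cons a u ih =>
    cases v with
    | nil => simp at hl
    | cons b v =>
      rcases h with h | ⟨rfl, h⟩
      · exact Or.inl h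
      · exact Or.inr ⟨rfl, ih (by simpa using hl) h⟩

theorem kle_refl (wt : X → ℕ) (u : List X) : kle wt u u :=
  Or.inr ⟨rfl, Or.inr ⟨rfl, lle_refl u⟩⟩

theorem kle_trans {wt : X → ℕ} {u v w : List X} (h1 : kle wt u v) (h2 : kle wt v w) :
    kle wt u w := by
  rcases h1 with h1 | ⟨h1, h1'⟩
  · rcases h2 with h2 | ⟨h2, _⟩
    · exact Or.inl (h1.trans h2)
    · exact Or.inl (h2 ▸ h1)
  · rcases h2 with h2 | ⟨h2, h2'⟩
    · exact Or.inl (h1 ▸ h2)
    · refine Or.inr ⟨h1.trans h2, ?_⟩
      rcases h1' with h1' | ⟨h1', h3⟩
      · rcases h2' with h2' | ⟨h2', _⟩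
        · exact Or.inl (h1'.trans h2')
        · exact Or.inl (h2' ▸ h1')
      · rcases h2' with h2' | ⟨h2', h4⟩
        · exact Or.inl (h1' ▸ h2')
        · exact Or.inr ⟨h1'.trans h2', lle_trans h4 h3⟩

theorem kle_antisymm {wt : X → ℕ} {u v : List X} (h1 : kle wt u v) (h2 : kle wt v u) : u = v := by
  rcases h1 with h1 | ⟨h1, h1'⟩
  · rcases h2 with h2 | ⟨h2, _⟩ <;> omega
  · rcases h2 with h2 | ⟨h2, h2'⟩
    · omega
    · rcases h1' with h1' | ⟨h1', h3⟩
      · rcases h2' with h2' | ⟨h2', _⟩ <;> omega
      · rcases h2' with h2' | ⟨h2', h4⟩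
        · omega
        · exact lle_antisymm h4 h3

theorem kle_total (wt : X → ℕ) (u v : List X) : kle wt u v ∨ kle wt v u := by
  rcases lt_trichotomy (wsum wt u) (wsum wt v) with h | h | h
  · exact Or.inl (Or.inl h)
  · rcases lt_trichotomy u.length v.length with h1 | h1 | h1
    · exact Or.inl (Or.inr ⟨h, Or.inl h1⟩)
    · rcases lle_total u v with h2 | h2
      · exact Or.inr (Or.inr ⟨h.symm, Or.inr ⟨h1.symm, h2⟩⟩)
      · exact Or.inl (Or.inr ⟨h, Or.inr ⟨h1, h2⟩⟩)
    · exact Or.inr (Or.inr ⟨h.symm, Or.inl h1⟩)
  · exact Or.inr (Or.inl h)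

/-- `kle` is compatible with concatenation. -/
theorem kle_append {wt : X → ℕ} {u v x y : List X} (h1 : kle wt u v) (h2 : kle wt x y) :
    kle wt (u ++ x) (v ++ y) := by
  unfold kle at *
  simp only [wsum_append, List.length_append]
  rcases h1 with h1 | ⟨h1, h1'⟩
  · rcases h2 with h2 | ⟨h2, _⟩ <;> exact Or.inl (by omega)
  · rcases h2 with h2 | ⟨h2, h2'⟩
    · exact Or.inl (by omega)
    · refine Or.inr ⟨by omega, ?_⟩
      rcases h1' with h1' | ⟨h1', h3⟩
      · rcases h2' with h2' | ⟨h2', _⟩ <;> exact Or.inl (by omega)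
      · rcases h2' with h2' | ⟨h2', h4⟩
        · exact Or.inl (by omega)
        · exact Or.inr ⟨by omega, lle_append_of_length h1'.symm h3 h4⟩

/-- If `u ≤ v`, `x ≤ y` and `uv`, `xy` agree then both pairs agree. -/
theorem kle_append_eq {wt : X → ℕ} {u v x y : List X} (h1 : kle wt u v) (h2 : kle wt x y)
    (h : u ++ x = v ++ y) : u = v ∧ x = y := by
  have e1 := congrArg (wsum wt) h
  have e2 := congrArg List.length h
  simp only [wsum_append, List.length_append] at e1 e2
  unfold kle at h1 h2
  have hl : u.length = v.length := by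
    rcases h1 with h1 | ⟨h1, h1' | ⟨h1', h3⟩⟩ <;>
      rcases h2 with h2 | ⟨h2, h2' | ⟨h2', h4⟩⟩ <;> omega
  exact List.append_inj h hl

end Pool.Agent.LA78
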